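import Mathlib

/-!
# Amenability by Foelner sets
-/

set_option autoImplicit false

namespace Pool.Agent.Asd3

open Classical in
/-- Amenability: for every finite set `T` and every positive `ε` there is a nonempty finite set `F`
such that at most `ε * |F|` elements of `F t` are not in `F`, for all `t` in `T`. -/
def Amen (H : Type*) [Group H] : Prop :=
  ∀ T : Finset H, ∀ ε : ℝ, 0 < ε → ∃ F : Finset H, F.Nonempty ∧
    ∀ t ∈ T, ((F.image (fun x => x * t) \ F).card : ℝ) ≤ ε * F.card

end Pool.Agent.Asd3
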