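import Mathlib

/-!
# Locally indicable groups
-/

set_option autoImplicit false

namespace Pool.Agent.Asd3

/-- Every nontrivial finitely generated subgroup has a nontrivial homomorphism to `ℤ`. -/
def LocInd (Γ : Type*) [Group Γ] : Prop :=
  ∀ H : Subgroup Γ, H.FG → H ≠ ⊥ → ∃ f : H →* Multiplicative ℤ, f ≠ 1

end Pool.Agent.Asd3
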