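import Mathlib
import Pool.Agent.Asd3.LocIndDef

/-!
# Chains on tuples of points, coinvariants, locally indicable groups: definitions

`Ch X A n` are the chains on `n`-tuples of points of `X` with coefficients in `A` (the simplices of
dimension `n - 1` of the full simplex on `X`), `bd` is the boundary, `chRep` the action of a group
acting on `X` and on `A`, `aug` the submodule generated by all `h c - c`.
-/

set_option autoImplicit false

namespace Pool.Agent.Asd3

open Finsupp

/-- Chains on `n`-tuples of points. -/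
abbrev Ch (X A : Type*) [Zero A] (n : ℕ) := (Fin n → X) →₀ A

section
variable {X Y A : Type*} [AddCommGroup A] [Module ℝ A]

/-- The boundary. -/
noncomputable def bd {n : ℕ} : Ch X A (n + 1) →ₗ[ℝ] Ch X A n :=
  Finsupp.lsum ℝ fun σ => ∑ i : Fin (n + 1), ((-1 : ℝ) ^ (i : ℕ)) •
    (Finsupp.lsingle (fun j => σ (i.succAbove j)) : A →ₗ[ℝ] Ch X A n)

/-- The map induced by a map of the points. -/
noncomputable def mp {n : ℕ} (f : X → Y) : Ch X A n →ₗ[ℝ] Ch Y A n :=
  Finsupp.lmapDomain A ℝ fun σ i => f (σ i)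

/-- The cone with vertex `v`. -/
noncomputable def cn {n : ℕ} (v : X) : Ch X A n →ₗ[ℝ] Ch X A (n + 1) :=
  Finsupp.lmapDomain A ℝ fun σ => Fin.cons v σ

end

section
variable {Γ X A : Type*} [Group Γ] [MulAction Γ X] [AddCommGroup A] [Module ℝ A]

/-- The action of `Γ` on chains. -/
noncomputable def chRep (ρ : Representation ℝ Γ A) (X : Type*) [MulAction Γ X] (n : ℕ) :
    Representation ℝ Γ (Ch X A n) where
  toFun g := Finsupp.lsum ℝ fun σ => (Finsupp.lsingle (fun i => g • σ i)) ∘ₗ ρ g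
  map_one' := by
    ext σ a
    simp
  map_mul' g h := by
    ext σ a
    simp [mul_smul]

@[simp] theorem chRep_single (ρ : Representation ℝ Γ A) (n : ℕ) (g : Γ) (σ : Fin n → X) (a : A) :
    chRep ρ X n g (single σ a) = single (fun i => g • σ i) (ρ g a) := by
  simp [chRep]

end

/-- The submodule generated by all `h m - m`, `h` in `H`. -/
def aug {Γ M : Type*} [Group Γ] [AddCommGroup M] [Module ℝ M] (ρ : Representation ℝ Γ M)
    (H : Subgroup Γ) : Submodule ℝ M :=
  Submodule.span ℝ {c | ∃ h ∈ H, ∃ d, c = ρ h d - d}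

/-- The trivial representation on the real numbers. -/
def triv (Γ : Type*) [Group Γ] : Representation ℝ Γ ℝ := Representation.trivial ℝ Γ ℝ

/-- Chains of the group itself with real coefficients, with the action by left multiplication. -/
noncomputable def cR (Γ : Type*) [Group Γ] (n : ℕ) : Representation ℝ Γ (Ch Γ ℝ n) :=
  chRep (triv Γ) Γ n

@[simp] theorem cR_single {Γ : Type*} [Group Γ] (n : ℕ) (g : Γ) (σ : Fin n → Γ) (a : ℝ) :
    cR Γ n g (single σ a) = single (fun i => g * σ i) a := by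
  simp [cR, triv]

/-- A proper length function of subexponential growth and asymptotic dimension at most `n`
(`f` moves points by at most `D` and takes at most `n + 1` values on sets of diameter `R`). -/
structure Tame (Γ : Type*) [Group Γ] (ℓ : Γ → ℕ) (n : ℕ) : Prop where
  one : ℓ 1 = 0
  inv : ∀ g, ℓ g⁻¹ = ℓ g
  mul : ∀ g h, ℓ (g * h) ≤ ℓ g + ℓ h
  fin : ∀ r : ℕ, {g | ℓ g ≤ r}.Finite
  grow : ∀ b : ℝ, 1 < b → ∃ N : ℕ, ∀ r : ℕ, N ≤ r → ((Set.ncard {g | ℓ g ≤ r} : ℕ) : ℝ) ≤ b ^ r
  asd : ∀ R : ℕ, ∃ D : ℕ, ∃ f : Γ → Γ, (∀ x, ℓ (x⁻¹ * f x) ≤ D) ∧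
    ∀ σ : Fin (n + 2) → Γ, (∀ i j, ℓ ((σ i)⁻¹ * σ j) ≤ R) →
      ¬ Function.Injective fun i => f (σ i)

end Pool.Agent.Asd3
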