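import Mathlib
import Pool.Agent.Asd3.Defs
import Pool.Agent.ASD.Final

/-!
# Asymptotic dimension at least three for locally indicable groups: targets
-/

set_option autoImplicit false

namespace Pool.Agent.Asd3

open Finsupp
open Pool.Agent.ASD (Bl SubexpGrowth AsdimLE)
open scoped BigOperators

/-- CONS: elements of `M` which are linearly independent modulo `aug ρ ⊤` are linearly independent
over the group algebra, if `x - 1` is injective on all `M / aug ρ H₀`, `H / H₀ = ⟨x⟩` infinite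
cyclic -/
def T_CONS : Prop := ∀ (Γ : Type) [Group Γ], LocInd Γ → ∀ (M : Type) [AddCommGroup M] [Module ℝ M]
  (ρ : Representation ℝ Γ M),
  (∀ (H : Subgroup Γ) (χ : H →* Multiplicative ℤ) (x : H), χ x = Multiplicative.ofAdd 1 →
    ∀ y : M, ρ x y - y ∈ aug ρ (χ.ker.map H.subtype) → y ∈ aug ρ (χ.ker.map H.subtype)) →
  ∀ (ι : Type) [Fintype ι] (u : ι → M), (∀ a : ι → ℝ, ∑ i, a i • u i ∈ aug ρ ⊤ → a = 0) →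
  ∀ v : ι → MonoidAlgebra ℝ Γ, ∑ i, ρ.asAlgebraHom (v i) (u i) = 0 → v = 0

/-- RANK: rank of the kernel of `ℝ[Γ]^m → ℝ[Γ]`, `e_j ↦ s_j - 1` -/
def T_RANK : Prop := ∀ (Γ : Type) [Group Γ] (ℓ : Γ → ℕ) (n : ℕ), Tame Γ ℓ n →
  (∀ g : Γ, g ≠ 1 → ¬ IsOfFinOrder g) → ∀ (m q : ℕ) (s : Fin m → Γ), (∃ j, s j ≠ 1) →
  ∀ r : Fin q → Fin m → MonoidAlgebra ℝ Γ,
  (∀ i, ∑ j, r i j * (MonoidAlgebra.of ℝ Γ (s j) - 1) = 0) →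
  (∀ v : Fin q → MonoidAlgebra ℝ Γ, (∀ j, ∑ i, v i * r i j = 0) → v = 0) → q + 1 ≤ m

/-- LAM: the explicit cocycle -/
def T_LAM : Prop := ∀ (Γ : Type) [Group Γ] (a b : Γ →* Multiplicative ℤ) (s t : Γ) (φ ψ : Γ → ℝ)
  (c : Γ →₀ ℝ), a s = Multiplicative.ofAdd 1 → b s = 1 → a t = 1 → b t = Multiplicative.ofAdd 1 →
  (∀ k ∈ a.ker ⊓ b.ker, ∀ k' ∈ a.ker ⊓ b.ker, φ (k * k') = φ k + φ k') →
  (∀ k ∈ a.ker ⊓ b.ker, ∀ k' ∈ a.ker ⊓ b.ker, ψ (k * k') = ψ k + ψ k') →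
  (∀ k ∈ a.ker ⊓ b.ker, φ (t * k * t⁻¹) = φ k + ψ (s * k * s⁻¹) - ψ k) →
  (∀ k ∈ c.support, k ∈ a.ker ⊓ b.ker) →
  (∀ χ : Γ → ℝ, (∀ k ∈ a.ker ⊓ b.ker, ∀ k' ∈ a.ker ⊓ b.ker, χ (k * k') = χ k + χ k') →
    (c.sum fun k x => x * (χ (s * k * s⁻¹) - χ k)) = 0) →
  (c.sum fun k x => x * φ k) ≠ 0 →
  ∃ Lam : Ch Γ ℝ 3 →ₗ[ℝ] ℝ, (∀ w : Ch Γ ℝ 4, Lam (bd w) = 0) ∧
    (∀ z ∈ aug (cR Γ 3) b.ker, Lam z = 0) ∧
    (∀ u : Ch Γ ℝ 3, bd u ∈ aug (cR Γ 2) b.ker → Lam (cR Γ 3 t u) = Lam u) ∧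
    ∃ u₀ : Ch Γ ℝ 3, bd u₀ ∈ aug (cR Γ 2) b.ker ∧ Lam u₀ ≠ 0

/-- TR: comparison of the cycles of the complete graph on `Γ` with the Cayley graph of `N` -/
def T_TR : Prop := ∀ (Γ : Type) [Group Γ] (N : Subgroup Γ) (m q : ℕ) (s : Fin m → N),
  Subgroup.closure (Set.range s) = ⊤ → ∀ u : Fin q → Ch Γ ℝ 3,
  (∀ i, bd (u i) ∈ aug (cR Γ 2) N) →
  ∃ (u' : Fin q → Ch Γ ℝ 3) (r : Fin q → Fin m → MonoidAlgebra ℝ N),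
    (∀ i, u' i - u i ∈ aug (cR Γ 3) N) ∧
    (∀ i, ∑ j, r i j * (MonoidAlgebra.of ℝ N (s j) - 1) = 0) ∧
    ∀ v : Fin q → MonoidAlgebra ℝ N, (∀ j, ∑ i, v i * r i j = 0) →
      bd (∑ i, Representation.asAlgebraHom
        (MonoidHom.comp (cR Γ 3) N.subtype : Representation ℝ N (Ch Γ ℝ 3)) (v i) (u' i)) = 0

/-- UNI: conjugation acts virtually unipotently on the homomorphisms to the real numbers -/
def T_UNI : Prop := ∀ (G : Type) [Group G] (S : Finset G), Subgroup.closure (S : Set G) = ⊤ →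
  SubexpGrowth S → ∀ (K : Subgroup G) (x : G) (α : K ≃* K), K.FG →
  (∀ k : K, (α k : G) = x * k * x⁻¹) →
  ∃ m d : ℕ, 0 < m ∧ ∀ f : K → ℝ, (∀ k k', f (k * k') = f k + f k') →
    (((LinearMap.funLeft ℝ ℝ α) ^ m - 1) ^ d) f = 0

/-- LIN: linear algebra for the choice of `φ`, `ψ`, `c` -/
def T_LIN : Prop := ∀ (K : Type) (V : Submodule ℝ (K → ℝ)), Module.Finite ℝ V → V ≠ ⊥ →
  ∀ A B : (K → ℝ) →ₗ[ℝ] (K → ℝ), (∀ f ∈ V, A f ∈ V) → (∀ f ∈ V, B f ∈ V) →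
  (∀ f ∈ V, A (B f) = B (A f)) → (∃ d : ℕ, ∀ f ∈ V, ((A - 1) ^ d) f = 0) →
  (∃ d : ℕ, ∀ f ∈ V, ((B - 1) ^ d) f = 0) →
  ∃ φ ∈ V, ∃ ψ ∈ V, ∃ c : K →₀ ℝ, B φ = φ + A ψ - ψ ∧
    (∀ χ ∈ V, (c.sum fun k x => x * (A χ k - χ k)) = 0) ∧ (c.sum fun k x => x * φ k) ≠ 0

/-- EX: existence of the data of LAM in locally indicable groups -/
def T_EX : Prop := ∀ (G : Type) [Group G] (S : Finset G), Subgroup.closure (S : Set G) = ⊤ →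
  SubexpGrowth S → LocInd G → (∀ C : ℕ, ∃ r : ℕ, C * (r + 1) ^ 2 < Set.ncard {g : G | Bl S r g}) →
  ∃ (Γ : Subgroup G) (a b : Γ →* Multiplicative ℤ) (s t : Γ) (φ ψ : Γ → ℝ) (c : Γ →₀ ℝ),
    a s = Multiplicative.ofAdd 1 ∧ b s = 1 ∧ a t = 1 ∧ b t = Multiplicative.ofAdd 1 ∧
    b.ker.FG ∧
    (∀ k ∈ a.ker ⊓ b.ker, ∀ k' ∈ a.ker ⊓ b.ker, φ (k * k') = φ k + φ k') ∧
    (∀ k ∈ a.ker ⊓ b.ker, ∀ k' ∈ a.ker ⊓ b.ker, ψ (k * k') = ψ k + ψ k') ∧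
    (∀ k ∈ a.ker ⊓ b.ker, φ (t * k * t⁻¹) = φ k + ψ (s * k * s⁻¹) - ψ k) ∧
    (∀ k ∈ c.support, k ∈ a.ker ⊓ b.ker) ∧
    (∀ χ : Γ → ℝ, (∀ k ∈ a.ker ⊓ b.ker, ∀ k' ∈ a.ker ⊓ b.ker, χ (k * k') = χ k + χ k') →
      (c.sum fun k x => x * (χ (s * k * s⁻¹) - χ k)) = 0) ∧
    (c.sum fun k x => x * φ k) ≠ 0

/-- TAME: growth and asymptotic dimension pass to subgroups -/
def T_TAME : Prop := ∀ (G : Type) [Group G] (S : Finset G) (n : ℕ),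
  Subgroup.closure (S : Set G) = ⊤ → SubexpGrowth S → AsdimLE S n →
  ∃ ℓ : G → ℕ, (∀ g r, ℓ g ≤ r ↔ Bl S r g) ∧ Tame G ℓ n ∧
    ∀ H : Subgroup G, Tame H (fun h => ℓ h) n

end Pool.Agent.Asd3
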