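import Mathlib
import Pool.Agent.Asd3.Targets

/-!
# CONS: linear independence over the group algebra of a locally indicable group
-/

set_option autoImplicit false

namespace Pool.Agent.Asd3

open Polynomial

namespace Cons

section lin

variable {ι M : Type*} [AddCommGroup M] [Module ℝ M]

theorem aeval_sub_mem (T : M →ₗ[ℝ] M) (A : Submodule ℝ M) (hT : ∀ y, T y - y ∈ A) (q : ℝ[X])
    (y : M) : aeval T q y - q.eval 1 • y ∈ A := by
  have h1 : (X - C 1 : ℝ[X]) ∣ q - C (q.eval 1) := by
    rw [dvd_iff_isRoot]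
    simp [IsRoot]
  obtain ⟨r, hr⟩ := h1
  have h2 : aeval T q y - q.eval 1 • y = T (aeval T r y) - aeval T r y := by
    have h3 : aeval T (q - C (q.eval 1)) y = aeval T ((X - C 1) * r) y := by rw [hr]
    simpa [map_sub, map_mul, Module.algebraMap_end_apply] using h3
  rw [h2]
  exact hT _

theorem poly_ind (T : M →ₗ[ℝ] M) (A0 A : Submodule ℝ M) (h01 : A0 ≤ A) (hT : ∀ y, T y - y ∈ A)
    (hinj : ∀ y, T y - y ∈ A0 → y ∈ A0) (u : ι → M)
    (hu : LinearIndependent ℝ fun i => A.mkQ (u i)) (s : Finset ι) (N : ℕ) :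
    ∀ p : ι → ℝ[X], (∀ i ∈ s, (p i).degree < N) → ∑ i ∈ s, aeval T (p i) (u i) ∈ A0 →
      ∀ i ∈ s, p i = 0 := by
  induction N with
  | zero =>
    intro p hp _ i hi
    have := hp i hi
    simpa using this
  | succ N ih =>
    intro p hp hs
    have h1 : ∀ i ∈ s, (p i).eval 1 = 0 := by
      rw [linearIndependent_iff'] at hu
      refine hu s (fun i => (p i).eval 1) ?_
      rw [← map_zero A.mkQ]
      have h2 : ∑ i ∈ s, ((p i).eval 1) • u i ∈ A := by
        have h3 : ∑ i ∈ s, (aeval T (p i) (u i) - ((p i).eval 1) • u i) ∈ A :=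
          Submodule.sum_mem _ fun i _ => aeval_sub_mem T A hT (p i) (u i)
        rw [Finset.sum_sub_distrib] at h3
        have h4 := A.sub_mem (h01 hs) h3
        simpa using h4
      have h5 : A.mkQ (∑ i ∈ s, ((p i).eval 1) • u i) = 0 :=
        (Submodule.Quotient.mk_eq_zero A).2 h2
      rw [map_sum] at h5
      simpa using h5
    choose! r hr using fun i (hi : i ∈ s) => (dvd_iff_isRoot (p := p i) (a := (1 : ℝ))).2 (h1 i hi)
    have h6 : ∑ i ∈ s, aeval T (p i) (u i) =
        T (∑ i ∈ s, aeval T (r i) (u i)) - ∑ i ∈ s, aeval T (r i) (u i) := by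
      rw [map_sum, ← Finset.sum_sub_distrib]
      refine Finset.sum_congr rfl fun i hi => ?_
      conv_lhs => rw [hr i hi]
      simp [map_sub, map_mul]
    rw [h6] at hs
    have h7 := ih r ?_ (hinj _ hs)
    · intro i hi
      rw [hr i hi, h7 i hi, mul_zero]
    · intro i hi
      by_cases h0 : r i = 0
      · rw [h0, degree_zero]
        exact WithBot.bot_lt_coe _
      · have h8 := hp i hi
        rw [hr i hi, degree_mul, degree_X_sub_C, degree_eq_natDegree h0] at h8
        rw [degree_eq_natDegree h0]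
        have h9 : ((1 + (r i).natDegree : ℕ) : WithBot ℕ) < ((N + 1 : ℕ) : WithBot ℕ) := by
          push_cast
          exact h8
        have h10 : 1 + (r i).natDegree < N + 1 := by exact_mod_cast h9
        have h11 : (r i).natDegree < N := by omega
        exact_mod_cast h11

theorem pow_ind (T : M →ₗ[ℝ] M) (A0 A : Submodule ℝ M) (h01 : A0 ≤ A) (hT : ∀ y, T y - y ∈ A)
    (hinj : ∀ y, T y - y ∈ A0 → y ∈ A0) (u : ι → M)
    (hu : LinearIndependent ℝ fun i => A.mkQ (u i)) :
    LinearIndependent ℝ fun q : ι × ℕ => A0.mkQ ((T ^ q.2) (u q.1)) := by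
  classical
  rw [linearIndependent_iff']
  intro s c hc
  set c' : ι × ℕ → ℝ := fun q => if q ∈ s then c q else 0 with hc'
  set N := s.sup (fun q => q.2) + 1 with hN
  have hN' : ∀ q ∈ s, q.2 < N := fun q hq => by
    have := Finset.le_sup (f := fun q : ι × ℕ => q.2) hq
    have h2 : q.2 ≤ s.sup (fun q => q.2) := this
    omega
  set s1 := s.image Prod.fst with hs1
  set p : ι → ℝ[X] := fun i => ∑ j ∈ Finset.range N, monomial j (c' (i, j)) with hp
  have hcoeff : ∀ i j, (p i).coeff j = if j < N then c' (i, j) else 0 := by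
    intro i j
    simp only [hp, finsetSum_coeff, coeff_monomial]
    rw [Finset.sum_ite_eq']
    by_cases h : j < N
    · simp [h]
    · simp [h]
  have h1 := poly_ind T A0 A h01 hT hinj u hu s1 N p ?_ ?_
  · intro q hq
    have h2 := h1 q.1 (Finset.mem_image_of_mem _ hq)
    have h3 := hcoeff q.1 q.2
    rw [h2, if_pos (hN' q hq)] at h3
    simp only [hc'] at h3
    simpa [hq] using h3.symm
  · intro i _
    rw [degree_lt_iff_coeff_zero]
    intro m hm
    rw [hcoeff, if_neg (by omega)]
  · have h4 : ∑ i ∈ s1, aeval T (p i) (u i) = ∑ q ∈ s, c q • (T ^ q.2) (u q.1) := by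
      have h5 : ∑ q ∈ s, c q • (T ^ q.2) (u q.1) =
          ∑ q ∈ s1 ×ˢ Finset.range N, c' q • (T ^ q.2) (u q.1) := by
        have h6 : ∑ q ∈ s, c q • (T ^ q.2) (u q.1) = ∑ q ∈ s, c' q • (T ^ q.2) (u q.1) :=
          Finset.sum_congr rfl fun q hq => by simp [hc', hq]
        rw [h6]
        refine Finset.sum_subset ?_ ?_
        · intro q hq
          rw [Finset.mem_product]
          exact ⟨Finset.mem_image_of_mem _ hq, Finset.mem_range.2 (hN' q hq)⟩
        · intro q _ hq
          simp [hc', hq]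
      rw [h5, Finset.sum_product]
      refine Finset.sum_congr rfl fun i _ => ?_
      simp only [hp, map_sum, LinearMap.sum_apply, aeval_monomial]
      refine Finset.sum_congr rfl fun j _ => ?_
      simp [Module.algebraMap_end_apply]
    rw [h4]
    have h7 : A0.mkQ (∑ q ∈ s, c q • (T ^ q.2) (u q.1)) = 0 := by
      rw [map_sum]
      simpa using hc
    exact (Submodule.Quotient.mk_eq_zero A0).1 h7

end lin

/-- a nontrivial homomorphism to `ℤ` can be made surjective -/
theorem exists_surj {H : Type*} [Group H] (f : H →* Multiplicative ℤ) (hf : f ≠ 1) :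
    ∃ (χ : H →* Multiplicative ℤ) (x : H), χ x = Multiplicative.ofAdd 1 := by
  obtain ⟨m, hm⟩ := Int.subgroup_cyclic (MonoidHom.range f).toAddSubgroup'
  have hmem : ∀ h : H, ∃ k : ℤ, Multiplicative.toAdd (f h) = k * m := by
    intro h
    have h1 : Multiplicative.toAdd (f h) ∈ AddSubgroup.closure ({m} : Set ℤ) := by
      rw [← hm]
      exact ⟨h, rfl⟩
    rw [AddSubgroup.mem_closure_singleton] at h1
    obtain ⟨k, hk⟩ := h1
    exact ⟨k, by rw [← hk, smul_eq_mul]⟩
  have hm0 : m ≠ 0 := by
    rintro rfl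
    refine hf (MonoidHom.ext fun h => ?_)
    obtain ⟨k, hk⟩ := hmem h
    rw [mul_zero] at hk
    exact Multiplicative.toAdd.injective hk
  choose k hk using hmem
  have hx : m ∈ (MonoidHom.range f).toAddSubgroup' := by
    rw [hm]
    exact AddSubgroup.subset_closure rfl
  obtain ⟨x, hx⟩ := hx
  refine ⟨MonoidHom.mk' (fun h => Multiplicative.ofAdd (k h)) ?_, x, ?_⟩
  · intro a b
    have h1 := hk (a * b)
    rw [map_mul, toAdd_mul, hk a, hk b, ← add_mul] at h1
    have h2 := mul_right_cancel₀ hm0 h1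
    rw [← h2, ofAdd_add]
  · have h1 := hk x
    have h2 : Multiplicative.toAdd (f x) = m := by
      rw [hx]; rfl
    rw [h2] at h1
    have h3 : k x = 1 := by
      have h4 : (k x) * m = 1 * m := by rw [one_mul]; exact h1.symm
      exact mul_right_cancel₀ hm0 h4
    simp [h3]

section grp

variable {Γ M : Type*} [Group Γ] [AddCommGroup M] [Module ℝ M]

theorem aug_mono (ρ : Representation ℝ Γ M) {H K : Subgroup Γ} (h : H ≤ K) : aug ρ H ≤ aug ρ K := by
  refine Submodule.span_mono ?_
  rintro c ⟨g, hg, d, rfl⟩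
  exact ⟨g, h hg, d, rfl⟩

theorem sub_mem_aug (ρ : Representation ℝ Γ M) {H : Subgroup Γ} {h : Γ} (hh : h ∈ H) (y : M) :
    ρ h y - y ∈ aug ρ H := Submodule.subset_span ⟨h, hh, y, rfl⟩

theorem main (hLI : LocInd Γ) (ρ : Representation ℝ Γ M)
    (hρ : ∀ (H : Subgroup Γ) (χ : H →* Multiplicative ℤ) (x : H), χ x = Multiplicative.ofAdd 1 →
      ∀ y : M, ρ x y - y ∈ aug ρ (χ.ker.map H.subtype) → y ∈ aug ρ (χ.ker.map H.subtype))
    {κ : Type*} (a : κ → ℝ) (S : Finset κ) (ha : ∀ k ∈ S, a k ≠ 0) (n : ℕ) :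
    ∀ (H : Subgroup Γ) (ι : Type) [DecidableEq ι] (u : ι → M),
      (LinearIndependent ℝ fun i => (aug ρ H).mkQ (u i)) → ∀ (i : κ → ι) (g : κ → Γ),
      (∀ k ∈ S, g k ∈ H) → (∀ k ∈ S, ∀ k' ∈ S, i k = i k' → g k = g k' → k = k') →
      S.card - (S.image i).card = n → ∑ k ∈ S, a k • ρ (g k) (u (i k)) = 0 → S = ∅ := by
  classical
  induction n using Nat.strong_induction_on with
  | _ n ih =>
  intro H ι _ u hu i g hg hinj hn hsum
  -- base points
  have hG : ∃ G : ι → Γ, (∀ j, G j ∈ H) ∧ ∀ k ∈ S, ∃ k' ∈ S, i k' = i k ∧ g k' = G (i k) := by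
    refine ⟨fun j => if h : ∃ k ∈ S, i k = j then g h.choose else 1, ?_, ?_⟩
    · intro j
      by_cases h : ∃ k ∈ S, i k = j
      · simp only [dif_pos h]
        exact hg _ h.choose_spec.1
      · simp only [dif_neg h]
        exact H.one_mem
    · intro k hk
      have h : ∃ k' ∈ S, i k' = i k := ⟨k, hk, rfl⟩
      refine ⟨h.choose, h.choose_spec.1, h.choose_spec.2, ?_⟩
      simp only [dif_pos h]
  obtain ⟨G, hGH, hG⟩ := hG
  set d : κ → Γ := fun k => g k * (G (i k))⁻¹ with hd
  by_cases hcase : ∀ k ∈ S, d k = 1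
  · -- all supports are points
    have hgG : ∀ k ∈ S, g k = G (i k) := fun k hk => by
      have := hcase k hk
      simp only [hd] at this
      exact mul_inv_eq_one.1 this
    have hi : ∀ k ∈ S, ∀ k' ∈ S, i k = i k' → k = k' := fun k hk k' hk' h =>
      hinj k hk k' hk' h (by rw [hgG k hk, hgG k' hk', h])
    have h1 : ∑ k ∈ S, a k • u (i k) ∈ aug ρ H := by
      have h2 : ∑ k ∈ S, a k • (ρ (g k) (u (i k)) - u (i k)) ∈ aug ρ H :=
        Submodule.sum_mem _ fun k hk => Submodule.smul_mem _ _ (sub_mem_aug ρ (hg k hk) _)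
      have h3 : ∑ k ∈ S, a k • u (i k) = ∑ k ∈ S, a k • ρ (g k) (u (i k)) -
          ∑ k ∈ S, a k • (ρ (g k) (u (i k)) - u (i k)) := by
        rw [← Finset.sum_sub_distrib]
        exact Finset.sum_congr rfl fun k _ => by rw [smul_sub]; abel
      rw [h3, hsum, zero_sub]
      exact Submodule.neg_mem _ h2
    have h4 : ∀ k ∈ S, a k = 0 := by
      have h5 : LinearIndependent ℝ fun k : S => (aug ρ H).mkQ (u (i k)) := by
        refine hu.comp (fun k : S => i k) ?_
        intro k k' h
        exact Subtype.ext (hi k k.2 k' k'.2 h)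
      rw [linearIndependent_iff'] at h5
      intro k hk
      refine h5 Finset.univ (fun k => a k) ?_ ⟨k, hk⟩ (Finset.mem_univ _)
      have h6 : (aug ρ H).mkQ (∑ k ∈ S, a k • u (i k)) = 0 :=
        (Submodule.Quotient.mk_eq_zero _).2 h1
      rw [map_sum, ← Finset.sum_coe_sort] at h6
      simpa using h6
    rw [Finset.eq_empty_iff_forall_notMem]
    intro k hk
    exact ha k hk (h4 k hk)
  · push Not at hcase
    obtain ⟨k0, hk0, hdk0⟩ := hcase
    set H' : Subgroup Γ := Subgroup.closure (S.image d : Set Γ) with hH'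
    have hdH' : ∀ k ∈ S, d k ∈ H' := fun k hk =>
      Subgroup.subset_closure (by simpa using ⟨k, hk, rfl⟩)
    have hH'H : H' ≤ H := by
      rw [hH', Subgroup.closure_le]
      intro y hy
      simp only [Finset.coe_image, Set.mem_image, Finset.mem_coe] at hy
      obtain ⟨k, hk, rfl⟩ := hy
      exact H.mul_mem (hg k hk) (H.inv_mem (hGH _))
    obtain ⟨f, hf⟩ := hLI H' ⟨S.image d, rfl⟩ (fun h => hdk0 (by
      have := hdH' k0 hk0
      rw [h, Subgroup.mem_bot] at this
      exact this))
    obtain ⟨χ, x, hx⟩ := exists_surj f hf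
    set H0 : Subgroup Γ := χ.ker.map H'.subtype with hH0
    have hH0H : H0 ≤ H := by
      rintro _ ⟨y, _, rfl⟩
      exact hH'H y.2
    set D : κ → ℤ := fun k => if h : d k ∈ H' then Multiplicative.toAdd (χ ⟨d k, h⟩) else 0 with hD
    have hDk : ∀ k (hk : k ∈ S), χ ⟨d k, hdH' k hk⟩ = Multiplicative.ofAdd (D k) := fun k hk => by
      simp only [hD, dif_pos (hdH' k hk), ofAdd_toAdd]
    set K : ℤ := ∑ k ∈ S, |D k| with hK
    have hDK : ∀ k ∈ S, 0 ≤ D k + K := fun k hk => by
      have h1 : |D k| ≤ K := Finset.single_le_sum (f := fun k => |D k|)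
        (fun _ _ => abs_nonneg _) hk
      have h2 := neg_abs_le (D k)
      linarith
    set u' : ι → M := fun j => ρ ((x : Γ) ^ (-K) * G j) (u j) with hu'
    have hu'ind : LinearIndependent ℝ fun j => (aug ρ H).mkQ (u' j) := by
      have h1 : (fun j => (aug ρ H).mkQ (u' j)) = fun j => (aug ρ H).mkQ (u j) := by
        funext j
        rw [Submodule.mkQ_apply, Submodule.mkQ_apply, Submodule.Quotient.eq]
        exact sub_mem_aug ρ (H.mul_mem (H.zpow_mem (hH'H x.2) _) (hGH j)) _
      rw [h1]
      exact hu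
    have hu''ind := pow_ind (ρ (x : Γ)) (aug ρ H0) (aug ρ H) (aug_mono ρ hH0H)
      (fun y => sub_mem_aug ρ (hH'H x.2) y) (hρ H' χ x hx) u' hu'ind
    set jj : κ → ℕ := fun k => (D k + K).toNat with hjj
    have hjjk : ∀ k ∈ S, ((jj k : ℕ) : ℤ) = D k + K := fun k hk => Int.toNat_of_nonneg (hDK k hk)
    refine ih (S.card - (S.image fun k => (i k, jj k)).card) ?_ H0 (ι × ℕ)
      (fun q => ((ρ (x : Γ)) ^ q.2) (u' q.1)) hu''ind (fun k => (i k, jj k))
      (fun k => d k * (x : Γ) ^ (-D k)) ?_ ?_ rfl ?_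
    · -- the complexity decreases
      have h1 : (S.image fun k => (i k, jj k)).image Prod.fst = S.image i := by
        rw [Finset.image_image]
        rfl
      have h2 : (S.image fun k => (i k, jj k)).card ≤ S.card := Finset.card_image_le
      have h3 : (S.image i).card ≤ (S.image fun k => (i k, jj k)).card := by
        rw [← h1]
        exact Finset.card_image_le
      have h4 : (S.image i).card ≠ (S.image fun k => (i k, jj k)).card := by
        intro h4
        rw [← h1] at h4
        rw [Finset.card_image_iff] at h4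
        have h5 : ∀ k ∈ S, D k = 0 := by
          intro k hk
          obtain ⟨k', hk', hik', hgk'⟩ := hG k hk
          have h6 : (i k, jj k) = (i k', jj k') := by
            refine h4 ?_ ?_ hik'.symm
            · exact Finset.mem_coe.2 (Finset.mem_image.2 ⟨k, hk, rfl⟩)
            · exact Finset.mem_coe.2 (Finset.mem_image.2 ⟨k', hk', rfl⟩)
          have h7 : d k' = 1 := by
            simp only [hd]
            rw [hgk', hik', mul_inv_cancel]
          have h8 : D k' = 0 := by
            have h9 := hDk k' hk'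
            have h10 : (⟨d k', hdH' k' hk'⟩ : H') = 1 := Subtype.ext h7
            rw [h10, map_one] at h9
            exact (Multiplicative.ofAdd.injective h9).symm
          have h11 := hjjk k hk
          have h12 := hjjk k' hk'
          have h13 : jj k = jj k' := (Prod.ext_iff.1 h6).2
          rw [h13, h12, h8] at h11
          linarith
        have h6 : χ = 1 := by
          have h7 : ∀ y (hy : y ∈ H'), χ ⟨y, hy⟩ = 1 := by
            intro y hy
            induction hy using Subgroup.closure_induction with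
            | mem y hy =>
              simp only [Finset.coe_image, Set.mem_image, Finset.mem_coe] at hy
              obtain ⟨k, hk, rfl⟩ := hy
              rw [hDk k hk, h5 k hk]
              rfl
            | one => exact map_one χ
            | mul y z hy hz h1 h2 =>
              have : (⟨y * z, H'.mul_mem hy hz⟩ : H') = ⟨y, hy⟩ * ⟨z, hz⟩ := rfl
              rw [this, map_mul, h1, h2, one_mul]
            | inv y hy h1 =>
              have : (⟨y⁻¹, H'.inv_mem hy⟩ : H') = ⟨y, hy⟩⁻¹ := rfl
              rw [this, map_inv, h1, inv_one]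
          exact MonoidHom.ext fun y => h7 y y.2
        rw [h6] at hx
        have h8 : (0 : ℤ) = 1 := Multiplicative.ofAdd.injective hx
        exact zero_ne_one h8
      omega
    · intro k hk
      refine ⟨⟨d k, hdH' k hk⟩ * x ^ (-D k), ?_, ?_⟩
      · simp only [SetLike.mem_coe, MonoidHom.mem_ker]
        rw [map_mul, hDk k hk, map_zpow, hx, ← ofAdd_zsmul, ← ofAdd_add]
        simp
      · simp
    · intro k hk k' hk' h1 h2
      have h3 : i k = i k' := (Prod.ext_iff.1 h1).1
      have h4 : jj k = jj k' := (Prod.ext_iff.1 h1).2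
      have h5 : D k = D k' := by
        have h6 := hjjk k hk
        have h7 := hjjk k' hk'
        rw [h4, h7] at h6
        linarith
      simp only [h5] at h2
      have h6 : d k = d k' := mul_right_cancel h2
      simp only [hd] at h6
      rw [h3] at h6
      exact hinj k hk k' hk' h3 (mul_right_cancel h6)
    · rw [← hsum]
      refine Finset.sum_congr rfl fun k hk => ?_
      congr 1
      simp only [hu', ← map_pow]
      rw [← Module.End.mul_apply, ← Module.End.mul_apply, ← map_mul, ← map_mul]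
      congr 2
      have h1 : (x : Γ) ^ (jj k) = (x : Γ) ^ (D k + K) := by
        rw [← hjjk k hk, zpow_natCast]
      rw [h1]
      simp only [hd]
      group

end grp

end Cons

/-- CONS -/
theorem p_CONS : T_CONS := by
  classical
  intro Γ _ hLI M _ _ ρ hρ ι _ u hu v hv
  have hu' : LinearIndependent ℝ fun i => (aug ρ ⊤).mkQ (u i) := by
    rw [Fintype.linearIndependent_iff]
    intro a ha
    have h1 : (aug ρ ⊤).mkQ (∑ i, a i • u i) = 0 := by
      rw [map_sum]
      simpa using ha
    have h2 := hu a ((Submodule.Quotient.mk_eq_zero _).1 h1)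
    intro i
    rw [h2]
    rfl
  set S : Finset (Σ _ : ι, Γ) := Finset.univ.sigma fun i => (v i).coeff.support with hS
  have h1 := Cons.main hLI ρ hρ (κ := Σ _ : ι, Γ) (fun k => (v k.1).coeff k.2) S
    (fun k hk => by
      rw [hS, Finset.mem_sigma] at hk
      exact Finsupp.mem_support_iff.1 hk.2) (S.card - (S.image Sigma.fst).card) ⊤ ι u hu'
    Sigma.fst Sigma.snd (fun _ _ => Subgroup.mem_top _)
    (fun k _ k' _ h1 h2 => Sigma.ext h1 (heq_of_eq h2)) rfl (by
      rw [hS, Finset.sum_sigma, ← hv]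
      refine Finset.sum_congr rfl fun i _ => ?_
      rw [Representation.asAlgebraHom_def, MonoidAlgebra.lift_apply, Finsupp.sum,
        LinearMap.sum_apply]
      rfl)
  funext i
  refine MonoidAlgebra.ext (Finsupp.ext fun g => ?_)
  by_contra h
  have h2 : (⟨i, g⟩ : Σ _ : ι, Γ) ∈ S := by
    rw [hS, Finset.mem_sigma]
    exact ⟨Finset.mem_univ _, Finsupp.mem_support_iff.2 h⟩
  rw [h1] at h2
  exact absurd h2 (Finset.notMem_empty _)

end Pool.Agent.Asd3
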