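import Mathlib
import Pool.Agent.Asd3.Defs

/-!
# Chains: boundary, cones, alternation, a natural homotopy
-/

set_option autoImplicit false

namespace Pool.Agent.Asd3

open Finsupp
open scoped BigOperators

section basic
variable {X Y Z A : Type*} [AddCommGroup A] [Module ℝ A] {n : ℕ}

@[simp] theorem bd_single (σ : Fin (n + 1) → X) (a : A) :
    bd (single σ a : Ch X A (n + 1)) = ∑ i : Fin (n + 1), ((-1 : ℝ) ^ (i : ℕ)) •
      (single (fun j => σ (i.succAbove j)) a : Ch X A n) := by
  simp [bd]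

@[simp] theorem mp_single (f : X → Y) (σ : Fin n → X) (a : A) :
    mp f (single σ a : Ch X A n) = single (fun i => f (σ i)) a := by
  simp [mp, mapDomain_single]

@[simp] theorem cn_single (v : X) (σ : Fin n → X) (a : A) :
    cn v (single σ a : Ch X A n) = single (Fin.cons v σ : Fin (n + 1) → X) a := by
  simp [cn, mapDomain_single]

theorem lext {M : Type*} [AddCommGroup M] [Module ℝ M] {f g : Ch X A n →ₗ[ℝ] M}
    (h : ∀ σ a, f (single σ a) = g (single σ a)) (c : Ch X A n) : f c = g c := by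
  have : f = g := by
    ext σ a
    exact h σ a
  rw [this]

theorem bd_mp (f : X → Y) (c : Ch X A (n + 1)) : bd (mp f c) = mp f (bd c) := by
  refine lext (f := bd ∘ₗ mp f) (g := mp f ∘ₗ bd) (fun σ a => ?_) c
  simp

theorem mp_cn (f : X → Y) (v : X) (c : Ch X A n) : mp f (cn v c) = cn (f v) (mp f c) := by
  refine lext (f := mp f ∘ₗ cn v) (g := cn (f v) ∘ₗ mp f) (fun σ a => ?_) c
  simp only [LinearMap.comp_apply, cn_single, mp_single]
  congr 1
  funext i
  refine Fin.cases ?_ (fun j => ?_) i <;> simp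

theorem mp_mp (f : X → Y) (g : Y → Z) (c : Ch X A n) :
    mp g (mp f c) = mp (fun x => g (f x)) c := by
  refine lext (f := mp g ∘ₗ mp f) (g := mp (fun x => g (f x))) (fun σ a => ?_) c
  simp

theorem bd_cn (v : X) (c : Ch X A (n + 1)) : bd (cn v c) = c - cn v (bd c) := by
  refine lext (f := bd ∘ₗ cn v) (g := LinearMap.id - cn v ∘ₗ bd) (fun σ a => ?_) c
  simp only [LinearMap.comp_apply, LinearMap.sub_apply, LinearMap.id_apply, cn_single, bd_single,
    map_sum, map_smul]
  rw [Fin.sum_univ_succ]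
  have h0 : (fun j => (Fin.cons v σ : Fin (n + 2) → X) ((0 : Fin (n + 2)).succAbove j)) = σ := by
    funext j
    simp
  rw [h0]
  simp only [Fin.val_zero, pow_zero, one_smul, Fin.val_succ, pow_succ, mul_neg, mul_one, neg_smul,
    Finset.sum_neg_distrib, sub_eq_add_neg]
  congr 2
  refine Finset.sum_congr rfl fun i _ => ?_
  congr 2
  funext j
  refine Fin.cases ?_ (fun k => ?_) j
  · simp
  · simp

theorem bd_cn0 (v : X) (c : Ch X A 0) : bd (cn v c) = c := by
  refine lext (f := bd ∘ₗ cn v) (g := LinearMap.id) (fun σ a => ?_) c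
  simp only [LinearMap.comp_apply, LinearMap.id_apply, cn_single, bd_single]
  rw [Fin.sum_univ_one]
  simp only [Fin.val_zero, pow_zero, one_smul]
  congr 1

theorem bd_bd (c : Ch X A (n + 2)) : bd (bd c) = 0 := by
  induction n with
  | zero =>
    refine lext (f := bd ∘ₗ bd) (g := 0) (fun σ a => ?_) c
    have : (single σ a : Ch X A 2) = cn (σ 0) (single (Fin.tail σ) a) := by
      rw [cn_single, Fin.cons_self_tail]
    simp only [LinearMap.comp_apply, LinearMap.zero_apply]
    rw [this, bd_cn, map_sub, bd_cn0, sub_self]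
  | succ n ih =>
    refine lext (f := bd ∘ₗ bd) (g := 0) (fun σ a => ?_) c
    have : (single σ a : Ch X A (n + 3)) = cn (σ 0) (single (Fin.tail σ) a) := by
      rw [cn_single, Fin.cons_self_tail]
    simp only [LinearMap.comp_apply, LinearMap.zero_apply]
    rw [this, bd_cn, map_sub, bd_cn, ih, map_zero, sub_zero, sub_self]

end basic

section action
variable {Γ X A : Type*} [Group Γ] [MulAction Γ X] [AddCommGroup A] [Module ℝ A]
  (ρ : Representation ℝ Γ A) {n : ℕ}

theorem bd_rep (g : Γ) (c : Ch X A (n + 1)) :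
    bd (chRep ρ X (n + 1) g c) = chRep ρ X n g (bd c) := by
  refine lext (f := bd ∘ₗ chRep ρ X (n + 1) g) (g := chRep ρ X n g ∘ₗ bd) (fun σ a => ?_) c
  simp

theorem aug_bd {H : Subgroup Γ} {c : Ch X A (n + 1)} (hc : c ∈ aug (chRep ρ X (n + 1)) H) :
    bd c ∈ aug (chRep ρ X n) H := by
  unfold aug at hc ⊢
  induction hc using Submodule.span_induction with
  | mem x hx =>
    obtain ⟨h, hh, d, rfl⟩ := hx
    rw [map_sub, bd_rep]
    exact Submodule.subset_span ⟨h, hh, bd d, rfl⟩
  | zero => simp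
  | add x y _ _ hx hy => rw [map_add]; exact add_mem hx hy
  | smul a x _ hx => rw [map_smul]; exact Submodule.smul_mem _ _ hx

end action

/-- a linear map commuting with the actions maps `aug` to `aug` -/
theorem aug_map {Γ M N : Type*} [Group Γ] [AddCommGroup M] [Module ℝ M] [AddCommGroup N]
    [Module ℝ N] {ρ : Representation ℝ Γ M} {ρ' : Representation ℝ Γ N} {H : Subgroup Γ}
    (f : M →ₗ[ℝ] N) (hf : ∀ h ∈ H, ∀ m, f (ρ h m) = ρ' h (f m)) {c : M} (hc : c ∈ aug ρ H) :
    f c ∈ aug ρ' H := by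
  unfold aug at hc ⊢
  induction hc using Submodule.span_induction with
  | mem x hx =>
    obtain ⟨h, hh, d, rfl⟩ := hx
    rw [map_sub, hf h hh]
    exact Submodule.subset_span ⟨h, hh, f d, rfl⟩
  | zero => simp
  | add x y _ _ hx hy => rw [map_add]; exact add_mem hx hy
  | smul a x _ hx => rw [map_smul]; exact Submodule.smul_mem _ _ hx

theorem aug_mono {Γ M : Type*} [Group Γ] [AddCommGroup M] [Module ℝ M]
    {ρ : Representation ℝ Γ M} {H H' : Subgroup Γ} (h : H ≤ H') : aug ρ H ≤ aug ρ H' := by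
  refine Submodule.span_mono ?_
  rintro c ⟨g, hg, d, rfl⟩
  exact ⟨g, h hg, d, rfl⟩

section alt
variable {X Y : Type*} {n : ℕ}

/-- Alternation. -/
noncomputable def alt : Ch X ℝ n →ₗ[ℝ] Ch X ℝ n :=
  Finsupp.lsum ℝ fun σ => ((n.factorial : ℝ)⁻¹) • ∑ π : Equiv.Perm (Fin n),
    ((Equiv.Perm.sign π : ℤ) : ℝ) • (Finsupp.lsingle (fun i => σ (π i)) : ℝ →ₗ[ℝ] Ch X ℝ n)

theorem alt_single (σ : Fin n → X) (a : ℝ) :
    alt (single σ a : Ch X ℝ n) = ((n.factorial : ℝ)⁻¹) • ∑ π : Equiv.Perm (Fin n),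
      ((Equiv.Perm.sign π : ℤ) : ℝ) • (single (fun i => σ (π i)) a : Ch X ℝ n) := by
  simp [alt]

theorem alt_mp (f : X → Y) (c : Ch X ℝ n) : alt (mp f c) = mp f (alt c) := by
  refine lext (f := alt ∘ₗ mp f) (g := mp f ∘ₗ alt) (fun σ a => ?_) c
  simp only [LinearMap.comp_apply, mp_single, alt_single, map_smul, map_sum]

open Classical in
theorem alt_apply (σ τ : Fin n → X) :
    (alt (single σ 1 : Ch X ℝ n)) τ = ((n.factorial : ℝ)⁻¹) *
      (Matrix.of fun p q => if σ p = τ q then (1 : ℝ) else 0).det := by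
  rw [alt_single, Finsupp.smul_apply, smul_eq_mul, Matrix.det_apply', Finsupp.finsetSum_apply]
  congr 1
  refine Finset.sum_congr rfl fun π _ => ?_
  rw [Finsupp.smul_apply, smul_eq_mul]
  congr 1
  rw [Finsupp.single_apply]
  by_cases h : (fun i => σ (π i)) = τ
  · rw [if_pos h]
    symm
    apply Finset.prod_eq_one
    intro i _
    rw [Matrix.of_apply, if_pos (congrFun h i)]
  · rw [if_neg h]
    symm
    obtain ⟨i, hi⟩ := Function.ne_iff.1 h
    apply Finset.prod_eq_zero (Finset.mem_univ i)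
    rw [Matrix.of_apply, if_neg hi]

theorem alt_zero (σ : Fin n → X) (a : ℝ) (h : ¬ Function.Injective σ) :
    alt (single σ a : Ch X ℝ n) = 0 := by
  classical
  have h1 : alt (single σ 1 : Ch X ℝ n) = 0 := by
    ext τ
    rw [alt_apply, Finsupp.zero_apply]
    unfold Function.Injective at h
    push Not at h
    obtain ⟨p, p', h1, h2⟩ := h
    rw [Matrix.det_zero_of_row_eq h2 (by ext q; simp [h1]), mul_zero]
  have h2 : (single σ a : Ch X ℝ n) = a • single σ 1 := by simp
  rw [h2, map_smul, h1, smul_zero]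

theorem bd_alt (c : Ch X ℝ (n + 1)) : bd (alt c) = alt (bd c) := by
  classical
  refine lext (f := bd ∘ₗ alt) (g := alt ∘ₗ bd) (fun σ a => ?_) c
  simp only [LinearMap.comp_apply]
  have ha : (single σ a : Ch X ℝ (n + 1)) = a • single σ 1 := by simp
  rw [ha, map_smul, map_smul, map_smul, map_smul]
  congr 1
  ext τ
  let B : Fin (n + 1) → Matrix (Fin (n + 1)) (Fin (n + 1)) ℝ := fun i =>
    Matrix.of fun p q => Fin.insertNth (α := fun _ => ℝ) i (1 : ℝ)
      (fun j => if σ p = τ j then (1 : ℝ) else 0) q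
  let D : Fin (n + 1) → ℝ := fun p =>
    (Matrix.of fun p' q => if σ (p.succAbove p') = τ q then (1 : ℝ) else 0).det
  have hB1 : ∀ i p, B i p i = 1 := fun i p => by
    simp only [B, Matrix.of_apply, Fin.insertNth_apply_same]
  have hB2 : ∀ i p j, B i p (i.succAbove j) = if σ p = τ j then (1 : ℝ) else 0 := fun i p j => by
    simp only [B, Matrix.of_apply, Fin.insertNth_apply_succAbove]
  have hdet : ∀ i, (B i).det = ∑ p : Fin (n + 1), (-1 : ℝ) ^ ((p : ℕ) + (i : ℕ)) * D p := by
    intro i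
    rw [Matrix.det_succ_column (B i) i]
    refine Finset.sum_congr rfl fun p _ => ?_
    rw [hB1, mul_one]
    congr 2
    ext p' q
    rw [Matrix.submatrix_apply, hB2, Matrix.of_apply]
  have hdet2 : ∀ i, (B i).det = ∑ π : Equiv.Perm (Fin (n + 1)),
      ((Equiv.Perm.sign π : ℤ) : ℝ) *
        (single (fun j => σ (π (i.succAbove j))) (1 : ℝ) : Ch X ℝ n) τ := by
    intro i
    rw [Matrix.det_apply']
    refine Finset.sum_congr rfl fun π _ => ?_
    congr 1
    rw [Fin.prod_univ_succAbove _ i, hB1, one_mul]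
    simp only [hB2]
    rw [Finsupp.single_apply]
    by_cases h : (fun j => σ (π (i.succAbove j))) = τ
    · rw [if_pos h]
      apply Finset.prod_eq_one
      intro j _
      rw [if_pos (congrFun h j)]
    · rw [if_neg h]
      obtain ⟨j, hj⟩ := Function.ne_iff.1 h
      apply Finset.prod_eq_zero (Finset.mem_univ j)
      rw [if_neg hj]
  have hL : (bd (alt (single σ 1 : Ch X ℝ (n + 1)))) τ = (((n + 1).factorial : ℝ)⁻¹) *
      ∑ i : Fin (n + 1), (-1 : ℝ) ^ (i : ℕ) * (B i).det := by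
    rw [alt_single, map_smul, map_sum, Finsupp.smul_apply, smul_eq_mul]
    congr 1
    simp only [map_smul, bd_single, Finsupp.finsetSum_apply, Finsupp.smul_apply, smul_eq_mul,
      hdet2, Finset.mul_sum]
    rw [Finset.sum_comm]
    refine Finset.sum_congr rfl fun i _ => Finset.sum_congr rfl fun π _ => ?_
    ring
  have hR : (alt (bd (single σ 1 : Ch X ℝ (n + 1)))) τ =
      ∑ p : Fin (n + 1), (-1 : ℝ) ^ (p : ℕ) * (((n.factorial : ℝ)⁻¹) * D p) := by
    rw [bd_single, map_sum, Finsupp.finsetSum_apply]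
    refine Finset.sum_congr rfl fun p _ => ?_
    rw [map_smul, Finsupp.smul_apply, smul_eq_mul, alt_apply]
  rw [hL, hR]
  have h1 : ∑ i : Fin (n + 1), (-1 : ℝ) ^ (i : ℕ) * (B i).det =
      (n + 1 : ℝ) * ∑ p : Fin (n + 1), (-1 : ℝ) ^ (p : ℕ) * D p := by
    have h2 : ∀ i : Fin (n + 1), (-1 : ℝ) ^ (i : ℕ) * (B i).det =
        ∑ p : Fin (n + 1), (-1 : ℝ) ^ (p : ℕ) * D p := by
      intro i
      rw [hdet, Finset.mul_sum]
      refine Finset.sum_congr rfl fun p _ => ?_
      have h3 : (-1 : ℝ) ^ (i : ℕ) * (-1 : ℝ) ^ (i : ℕ) = 1 := by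
        rw [← mul_pow]
        simp
      rw [pow_add]
      linear_combination ((-1 : ℝ) ^ (p : ℕ) * D p) * h3
    simp only [h2, Finset.sum_const, Finset.card_univ, Fintype.card_fin, nsmul_eq_mul]
    push_cast
    ring
  rw [h1, Nat.factorial_succ]
  push_cast
  rw [mul_inv, Finset.mul_sum, Finset.mul_sum]
  refine Finset.sum_congr rfl fun p _ => ?_
  have h4 : ((n : ℝ) + 1) ≠ 0 := by positivity
  field_simp

end alt

end Pool.Agent.Asd3
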