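import Mathlib
import Pool.Agent.Asd3.Targets
import Pool.Agent.ASD.Growth

/-!
# In a group of subexponential growth conjugation acts virtually unipotently on `Hom(K, ℝ)`
-/

set_option autoImplicit false

namespace Pool.Agent.Asd3

open Polynomial
open Pool.Agent.ASD (Bl SubexpGrowth pr pr_bl bl_finite exists_bl)

/-- additive functions -/
def addF (K : Type) [Group K] : Submodule ℝ (K → ℝ) where
  carrier := {f | ∀ k k', f (k * k') = f k + f k'}
  add_mem' := by
    intro f g hf hg k k'
    simp only [Pi.add_apply, hf k k', hg k k']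
    ring
  zero_mem' := by
    intro k k'
    simp
  smul_mem' := by
    intro c f hf k k'
    simp only [Pi.smul_apply, smul_eq_mul, hf k k']
    ring

theorem addF_mul {K : Type} [Group K] (f : addF K) (a b : K) : f.1 (a * b) = f.1 a + f.1 b :=
  f.2 a b

theorem addF_one {K : Type} [Group K] (f : addF K) : f.1 1 = 0 := by
  have := f.2 1 1
  rw [mul_one] at this
  linarith

theorem addF_inv {K : Type} [Group K] (f : addF K) (k : K) : f.1 k⁻¹ = - f.1 k := by
  have := f.2 k⁻¹ k
  rw [inv_mul_cancel, addF_one] at this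
  linarith

theorem addF_eq_zero {K : Type} [Group K] (f : addF K) {T : Set K}
    (hT : Subgroup.closure T = ⊤) (h : ∀ g ∈ T, f.1 g = 0) : f = 0 := by
  apply Subtype.ext
  funext g
  have hg : g ∈ Subgroup.closure T := by rw [hT]; trivial
  change f.1 g = 0
  induction hg using Subgroup.closure_induction with
  | mem x hx => exact h x hx
  | one => exact addF_one f
  | mul x y _ _ hx hy => rw [f.2, hx, hy, add_zero]
  | inv x _ hx => rw [addF_inv, hx, neg_zero]

/-- composition with `α` -/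
def opB {K : Type} [Group K] (α : K ≃* K) : Module.End ℝ (addF K) :=
  (LinearMap.funLeft ℝ ℝ α).restrict (by
    intro f hf k k'
    simp only [LinearMap.funLeft_apply, map_mul]
    exact hf _ _)

theorem opB_apply {K : Type} [Group K] (α : K ≃* K) (f : addF K) (g : K) :
    (opB α f).1 g = f.1 (α g) := rfl

theorem opB_pow_apply {K : Type} [Group K] (α : K ≃* K) (n : ℕ) (f : addF K) (g : K) :
    ((opB α ^ n) f).1 g = f.1 (α^[n] g) := by
  induction n generalizing f g with
  | zero => rfl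
  | succ n ih =>
    rw [pow_succ, Module.End.mul_apply, ih, opB_apply, ← Function.iterate_succ_apply' (⇑α) n g]

/-- the polynomial of a word -/
noncomputable def qp : List Bool → ℤ[X]
  | [] => 0
  | e :: l => qp l + (if e then X ^ l.length else 0)

theorem qp_coeff_ge (l : List Bool) : ∀ i, l.length ≤ i → (qp l).coeff i = 0 := by
  induction l with
  | nil => intro i _; simp [qp]
  | cons e l ih =>
    intro i hi
    simp only [List.length_cons] at hi
    simp only [qp, coeff_add]
    rw [ih i (by omega)]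
    split_ifs
    · rw [coeff_X_pow, if_neg (by omega)]; simp
    · simp

theorem qp_coeff (l : List Bool) : ∀ i, 0 ≤ (qp l).coeff i ∧ (qp l).coeff i ≤ 1 := by
  induction l with
  | nil => intro i; simp [qp]
  | cons e l ih =>
    intro i
    simp only [qp, coeff_add]
    by_cases hi : i = l.length
    · rw [qp_coeff_ge l i hi.ge]
      split_ifs
      · rw [coeff_X_pow, if_pos hi]; simp
      · simp
    · have h0 : (if e = true then (X : ℤ[X]) ^ l.length else 0).coeff i = 0 := by
        split_ifs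
        · rw [coeff_X_pow, if_neg hi]
        · simp
      rw [h0, add_zero]
      exact ih i

theorem qp_inj : ∀ l l' : List Bool, l.length = l'.length → qp l = qp l' → l = l' := by
  intro l
  induction l with
  | nil =>
    intro l' h1 _
    exact (List.length_eq_zero_iff.1 h1.symm).symm
  | cons e l ih =>
    intro l' h1 h2
    cases l' with
    | nil => simp at h1
    | cons e' l' =>
      have h1' : l.length = l'.length := by simpa using h1
      simp only [qp] at h2
      have h3 := congrArg (fun p => coeff p l.length) h2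
      simp only [coeff_add] at h3
      rw [qp_coeff_ge l _ le_rfl, qp_coeff_ge l' _ h1'.ge, h1'] at h3
      have h4 : e = e' := by
        cases e <;> cases e' <;> simp at h3 ⊢
      subst h4
      rw [h1'] at h2
      rw [ih l' h1' (add_right_cancel h2)]

/-- the products of the Milnor argument, in `K` -/
def kp {K : Type} [Group K] (α : K ≃* K) (k : ℕ) (g : K) : List Bool → K
  | [] => 1
  | e :: l => kp α k g l * (if e then α^[k * l.length] g else 1)

section
variable {G : Type} [Group G] {K : Subgroup G} {x : G} {α : K ≃* K}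

theorem iter_coe (hα : ∀ k : K, (α k : G) = x * k * x⁻¹) (n : ℕ) (g : K) :
    ((α^[n] g : K) : G) = x ^ n * g * (x ^ n)⁻¹ := by
  induction n with
  | zero => simp
  | succ n ih =>
    rw [Function.iterate_succ_apply', hα, ih, pow_succ']
    group

theorem kp_coe (hα : ∀ k : K, (α k : G) = x * k * x⁻¹) (k : ℕ) (g : K) (l : List Bool) :
    ((kp α k g l : K) : G) = pr (x ^ k) (g : G) l * ((x ^ k) ^ l.length)⁻¹ := by
  induction l with
  | nil => simp [kp, pr]
  | cons e l ih =>
    simp only [kp, pr, Subgroup.coe_mul, ih, List.length_cons]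
    cases e
    · simp only [Bool.false_eq_true, if_false, Subgroup.coe_one, mul_one, pow_succ]
      group
    · simp only [if_true, iter_coe hα, pow_mul, pow_succ]
      group

theorem f_kp (k : ℕ) (g : K) (l : List Bool) (f : addF K) :
    f.1 (kp α k g l) = (aeval (opB α ^ k) (qp l) f).1 g := by
  induction l with
  | nil => simp [kp, qp, addF_one]
  | cons e l ih =>
    have h1 : f.1 (if e then α^[k * l.length] g else 1) =
        (aeval (opB α ^ k) (if e then (X : ℤ[X]) ^ l.length else 0) f).1 g := by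
      cases e
      · simp [addF_one]
      · simp only [if_true, map_pow, aeval_X]
        rw [← pow_mul, opB_pow_apply]
    simp only [kp, qp, map_add, LinearMap.add_apply, Submodule.coe_add, Pi.add_apply]
    rw [addF_mul, ih, h1]

theorem not_inj {S : Finset G} (hS : Subgroup.closure (S : Set G) = ⊤) (hg : SubexpGrowth S)
    (t k : G) : ∃ n, ¬ Function.Injective (fun v : Fin n → Bool => pr t k (List.ofFn v)) := by
  by_contra hcon
  push Not at hcon
  have hall : ∀ g : G, g ∈ Subgroup.closure (S : Set G) := by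
    intro g; rw [hS]; trivial
  obtain ⟨c₁, hc₁⟩ := exists_bl (hall t)
  obtain ⟨c₂, hc₂⟩ := exists_bl (hall k)
  set c := c₁ + c₂ + 1 with hc
  have ht : Bl S c t := hc₁.mono (by omega)
  have hk' : Bl S c k := hc₂.mono (by omega)
  have hcount : ∀ n : ℕ, 2 ^ n ≤ Set.ncard {g : G | Bl S (n * (2 * c)) g} := by
    intro n
    have h1 := hcon n
    have h2 : Set.range (fun v : Fin n → Bool => pr t k (List.ofFn v)) ⊆
        {g : G | Bl S (n * (2 * c)) g} := by
      rintro g ⟨v, rfl⟩
      have := pr_bl ht hk' (List.ofFn v)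
      simpa using this
    have h3 := Set.ncard_le_ncard h2 (bl_finite S _)
    rw [← Set.image_univ, Set.ncard_image_of_injective _ h1, Set.ncard_univ] at h3
    simpa using h3
  have hc0 : 2 * c ≠ 0 := by omega
  obtain ⟨N, hN⟩ := hg ((3 / 2 : ℝ) ^ (((2 * c : ℕ) : ℝ)⁻¹))
    (Real.one_lt_rpow (by norm_num) (by positivity))
  have h4 := hN ((N + 1) * (2 * c)) (by nlinarith)
  have h5 : ((2 : ℝ) ^ (N + 1)) ≤ (3 / 2 : ℝ) ^ (N + 1) := by
    have h6 : ((2 ^ (N + 1) : ℕ) : ℝ) ≤
        ((Set.ncard {g : G | Bl S ((N + 1) * (2 * c)) g} : ℕ) : ℝ) := by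
      exact_mod_cast hcount (N + 1)
    have h7 : ((3 / 2 : ℝ) ^ (((2 * c : ℕ) : ℝ)⁻¹)) ^ ((N + 1) * (2 * c)) =
        (3 / 2 : ℝ) ^ (N + 1) := by
      rw [mul_comm (N + 1), pow_mul, Real.rpow_inv_natCast_pow (by norm_num) hc0]
    rw [h7] at h4
    have h8 := h6.trans h4
    push_cast at h8
    exact h8
  have h6 : (3 / 2 : ℝ) ^ (N + 1) < 2 ^ (N + 1) :=
    pow_lt_pow_left₀ (by norm_num) (by norm_num) (by omega)
  linarith

/-- polynomials with coefficients in `{-1, 0, 1}` -/
def Sm (p : ℤ[X]) : Prop := p ≠ 0 ∧ ∀ i, |p.coeff i| ≤ 1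

theorem exists_sm {S : Finset G} (hS : Subgroup.closure (S : Set G) = ⊤) (hg : SubexpGrowth S)
    (hα : ∀ k : K, (α k : G) = x * k * x⁻¹) (k : ℕ) (g : K) :
    ∃ p : ℤ[X], Sm p ∧ ∀ f : addF K, (aeval (opB α ^ k) p f).1 g = 0 := by
  obtain ⟨n, hn⟩ := not_inj hS hg (x ^ k) (g : G)
  simp only [Function.Injective, not_forall] at hn
  obtain ⟨v, v', h1, h2⟩ := hn
  set l := List.ofFn v with hl
  set l' := List.ofFn v' with hl'
  have hlen : l.length = l'.length := by simp [hl, hl']
  have hne : l ≠ l' := fun h => h2 (List.ofFn_injective h)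
  have h3 : kp α k g l = kp α k g l' := by
    apply Subtype.ext
    rw [kp_coe hα, kp_coe hα, hlen, h1]
  refine ⟨qp l - qp l', ⟨fun h => hne (qp_inj l l' hlen (sub_eq_zero.1 h)), fun i => ?_⟩,
    fun f => ?_⟩
  · rw [coeff_sub, abs_le]
    have ha := qp_coeff l i
    have hb := qp_coeff l' i
    constructor <;> omega
  · rw [map_sub, LinearMap.sub_apply, Submodule.coe_sub, Pi.sub_apply, ← f_kp, ← f_kp, h3, sub_self]

end

theorem Sm.unit {p : ℤ[X]} (h : Sm p) : IsUnit p.leadingCoeff := by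
  have h1 := h.2 p.natDegree
  have h2 : p.coeff p.natDegree ≠ 0 := leadingCoeff_ne_zero.2 h.1
  rw [Int.isUnit_iff]
  change p.coeff p.natDegree = 1 ∨ p.coeff p.natDegree = -1
  rw [abs_le] at h1
  omega

theorem Sm.root {p : ℤ[X]} (h : Sm p) (μ : ℂ) (hμ : aeval μ p = 0) : ‖μ‖ < 2 := by
  by_contra hcon
  push Not at hcon
  set n := p.natDegree with hn
  have h1 : aeval μ p = ∑ i ∈ Finset.range (n + 1), (p.coeff i : ℂ) * μ ^ i := by
    rw [aeval_eq_sum_range]
    apply Finset.sum_congr rfl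
    intro i _
    simp
  rw [hμ, Finset.sum_range_succ] at h1
  have h2 : ‖(p.coeff n : ℂ) * μ ^ n‖ = ‖μ‖ ^ n := by
    rw [norm_mul, norm_pow]
    have h3 := h.unit
    rw [Int.isUnit_iff] at h3
    change p.coeff n = 1 ∨ p.coeff n = -1 at h3
    rcases h3 with h3 | h3 <;> simp [h3]
  have h3 : ‖∑ i ∈ Finset.range n, (p.coeff i : ℂ) * μ ^ i‖ ≤
      ∑ i ∈ Finset.range n, ‖μ‖ ^ i := by
    refine (norm_sum_le _ _).trans (Finset.sum_le_sum fun i _ => ?_)
    rw [norm_mul, norm_pow]
    have h4 : ‖(p.coeff i : ℂ)‖ ≤ 1 := by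
      rw [Complex.norm_intCast]
      exact_mod_cast h.2 i
    calc ‖(p.coeff i : ℂ)‖ * ‖μ‖ ^ i ≤ 1 * ‖μ‖ ^ i := by gcongr
      _ = ‖μ‖ ^ i := one_mul _
  have h4 : (p.coeff n : ℂ) * μ ^ n = -∑ i ∈ Finset.range n, (p.coeff i : ℂ) * μ ^ i := by
    linear_combination -h1
  have h5 : ‖μ‖ ^ n ≤ ∑ i ∈ Finset.range n, ‖μ‖ ^ i := by
    rw [← h2, h4, norm_neg]
    exact h3
  have h6 : (∑ i ∈ Finset.range n, ‖μ‖ ^ i) * (‖μ‖ - 1) = ‖μ‖ ^ n - 1 := geom_sum_mul _ _
  have h7 : 0 ≤ ∑ i ∈ Finset.range n, ‖μ‖ ^ i := Finset.sum_nonneg fun i _ => by positivity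
  nlinarith

/-- integer polynomials with leading coefficient `±1` and small roots -/
def Gd (P : ℤ[X]) : Prop := IsUnit P.leadingCoeff ∧ ∀ μ : ℂ, aeval μ P = 0 → ‖μ‖ < 2

section
variable {G : Type} [Group G] {K : Subgroup G} {x : G} {α : K ≃* K}

theorem exists_gd {S : Finset G} (hS : Subgroup.closure (S : Set G) = ⊤) (hg : SubexpGrowth S)
    (hα : ∀ k : K, (α k : G) = x * k * x⁻¹) (hK : K.FG) (k : ℕ) :
    ∃ P : ℤ[X], Gd P ∧ ∀ f : addF K, aeval (opB α ^ k) P f = 0 := by
  classical
  obtain ⟨T, hT⟩ : ∃ T : Finset K, Subgroup.closure (T : Set K) = ⊤ :=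
    Group.FG.out (self := (Group.fg_iff_subgroup_fg K).2 hK)
  choose p hp1 hp2 using fun g : K => exists_sm hS hg hα k g
  refine ⟨∏ g ∈ T, p g, ⟨?_, fun μ hμ => ?_⟩, fun f => ?_⟩
  · rw [leadingCoeff_prod]
    refine Finset.prod_induction _ IsUnit (fun a b ha hb => ha.mul hb) isUnit_one ?_
    intro g _
    exact (hp1 g).unit
  · rw [map_prod, Finset.prod_eq_zero_iff] at hμ
    obtain ⟨g, _, h⟩ := hμ
    exact (hp1 g).root μ h
  · apply addF_eq_zero _ hT
    intro g hgT
    rw [← Finset.mul_prod_erase T p hgT, map_mul, Module.End.mul_apply]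
    exact hp2 g _

end

/-- evaluation of rational polynomials at an endomorphism of a real vector space -/
noncomputable def ev {V : Type} [AddCommGroup V] [Module ℝ V] (B : Module.End ℝ V) :
    ℚ[X] →+* Module.End ℝ V :=
  ((aeval B : ℝ[X] →ₐ[ℝ] Module.End ℝ V) : ℝ[X] →+* Module.End ℝ V).comp
    (mapRingHom (algebraMap ℚ ℝ))

theorem ev_X {V : Type} [AddCommGroup V] [Module ℝ V] (B : Module.End ℝ V) : ev B X = B := by
  simp [ev]

theorem ev_map {V : Type} [AddCommGroup V] [Module ℝ V] (B : Module.End ℝ V) (P : ℤ[X])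
    (k : ℕ) : ev B ((P.map (Int.castRingHom ℚ)).comp (X ^ k)) = aeval (B ^ k) P := by
  induction P using Polynomial.induction_on' with
  | add p q hp hq => rw [Polynomial.map_add, add_comp, map_add, hp, hq, map_add]
  | monomial n a =>
    rw [← C_mul_X_pow_eq_monomial]
    simp only [Polynomial.map_mul, map_C, Polynomial.map_pow, map_X, mul_comp, C_comp, pow_comp,
      X_comp, map_mul, map_pow, ev_X, aeval_C, aeval_X]
    congr 1
    simp [ev]

theorem dich {K : Type} [Group K] (α : K ≃* K)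
    (hP : ∀ k : ℕ, ∃ P : ℤ[X], Gd P ∧ ∀ f : addF K, aeval (opB α ^ k) P f = 0)
    (q : ℚ[X]) (hq : Irreducible q) :
    (∃ m : ℕ, 0 < m ∧ q ∣ X ^ m - 1) ∨ ∀ f : addF K, ev (opB α) q f = 0 → f = 0 := by
  by_cases h0 : ∀ f : addF K, ev (opB α) q f = 0 → f = 0
  · exact Or.inr h0
  left
  push Not at h0
  obtain ⟨f, hf, hf0⟩ := h0
  have : Fact (Irreducible q) := ⟨hq⟩
  choose P hP1 hP2 using hP
  have h1 : ∀ k : ℕ, q ∣ ((P k).map (Int.castRingHom ℚ)).comp (X ^ k) := by
    intro k
    by_contra hcon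
    have hco : IsCoprime q (((P k).map (Int.castRingHom ℚ)).comp (X ^ k)) :=
      (hq.coprime_iff_not_dvd).2 hcon
    obtain ⟨a, b, hab⟩ := hco
    apply hf0
    have h2 := congrArg (fun r => ev (opB α) r f) hab
    simp only [map_add, map_mul, map_one, LinearMap.add_apply, Module.End.mul_apply,
      Module.End.one_apply, hf, map_zero, zero_add, ev_map, hP2] at h2
    exact h2.symm
  set a : AdjoinRoot q := AdjoinRoot.root q with ha
  have h2 : ∀ k : ℕ, aeval (a ^ k) (P k) = 0 := by
    intro k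
    have h3 : AdjoinRoot.mk q (((P k).map (Int.castRingHom ℚ)).comp (X ^ k)) = 0 :=
      AdjoinRoot.mk_eq_zero.2 (h1 k)
    rw [← AdjoinRoot.aeval_eq, aeval_comp, map_pow, aeval_X, ← ha] at h3
    rw [← h3]
    exact (aeval_map_algebraMap ℚ (a ^ k) (P k)).symm
  have hint : IsIntegral ℤ a := by
    have h3 := h2 1
    rw [pow_one] at h3
    rcases Int.isUnit_iff.1 (hP1 1).1 with h4 | h4
    · exact ⟨P 1, h4, h3⟩
    · refine ⟨-(P 1), ?_, ?_⟩
      · rw [Monic, leadingCoeff_neg, h4, neg_neg]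
      · change aeval a (-(P 1)) = 0
        rw [map_neg, h3, neg_zero]
  have hnorm : ∀ φ : AdjoinRoot q →+* ℂ, ‖φ a‖ ≤ 1 := by
    intro φ
    by_contra hcon
    push Not at hcon
    obtain ⟨k, hk⟩ := pow_unbounded_of_one_lt 2 hcon
    have h3 : aeval ((φ a) ^ k) (P k) = 0 := by
      have h4 := congrArg φ (h2 k)
      rw [map_zero] at h4
      rw [← h4, ← map_pow]
      exact (Polynomial.hom_eval₂ (P k) (algebraMap ℤ (AdjoinRoot q)) φ (a ^ k)).symm ▸ by
        simp [aeval_def, eval₂_eq_sum_range]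
    have h4 := (hP1 k).2 _ h3
    rw [norm_pow] at h4
    linarith
  have ha0 : a ≠ 0 := by
    intro h3
    have h4 : q ∣ X := by
      rw [← AdjoinRoot.mk_eq_zero, AdjoinRoot.mk_X]
      exact h3
    obtain ⟨r, hr⟩ := h4
    have h5 : opB α f = 0 := by
      rw [← ev_X (opB α), hr, mul_comm, map_mul, Module.End.mul_apply, hf, map_zero]
    apply hf0
    apply Subtype.ext
    funext g
    have h6 := congrArg (fun f' : addF K => f'.1 (α.symm g)) h5
    simp only [opB_apply] at h6
    rw [α.apply_symm_apply] at h6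
    exact h6
  obtain ⟨m, hm, hm1⟩ := NumberField.Embeddings.pow_eq_one_of_norm_le_one _ ℂ ha0 hint hnorm
  refine ⟨m, hm, ?_⟩
  rw [← AdjoinRoot.mk_eq_zero, map_sub, map_pow, AdjoinRoot.mk_X, map_one, ← ha, hm1, sub_self]

theorem fin_step {K : Type} [Group K] (α : K ≃* K) (y : ℚ[X]) (s : Multiset ℚ[X])
    (hs : ∀ q ∈ s, q ∣ y ∨ ∀ f : addF K, ev (opB α) q f = 0 → f = 0) :
    ∀ f : addF K, ev (opB α) s.prod f = 0 → ev (opB α) (y ^ s.card) f = 0 := by
  induction s using Multiset.induction_on with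
  | empty => intro f hf; simpa using hf
  | cons q s ih =>
    intro f hf
    have ih' := ih fun q' hq' => hs q' (Multiset.mem_cons_of_mem hq')
    rw [Multiset.prod_cons] at hf
    rw [Multiset.card_cons, pow_succ]
    rcases hs q (Multiset.mem_cons_self q s) with h | h
    · obtain ⟨r, hr⟩ := h
      rw [map_mul, Module.End.mul_apply]
      apply ih'
      rw [← Module.End.mul_apply, ← map_mul, hr,
        show s.prod * (q * r) = r * (q * s.prod) by ring, map_mul, Module.End.mul_apply, hf,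
        map_zero]
    · rw [map_mul, Module.End.mul_apply] at hf
      rw [mul_comm, map_mul, Module.End.mul_apply, ih' f (h _ hf), map_zero]

theorem opB_val {K : Type} [Group K] (α : K ≃* K) (m d : ℕ) (f : addF K) :
    (((opB α) ^ m - 1) ^ d) f = (((LinearMap.funLeft ℝ ℝ α) ^ m - 1) ^ d) f.1 := by
  have h1 : ∀ (m : ℕ) (f : addF K), ((opB α ^ m) f).1 = ((LinearMap.funLeft ℝ ℝ α) ^ m) f.1 := by
    intro m
    induction m with
    | zero => intro f; rfl
    | succ m ih =>
      intro f
      rw [pow_succ, pow_succ, Module.End.mul_apply, Module.End.mul_apply, ih]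
      rfl
  induction d generalizing f with
  | zero => rfl
  | succ d ih =>
    rw [pow_succ, pow_succ, Module.End.mul_apply, Module.End.mul_apply, ih]
    congr 1
    simp only [LinearMap.sub_apply, Submodule.coe_sub, h1, Module.End.one_apply]

theorem p_UNI : T_UNI := by
  classical
  intro G _ S hS hg K x α hK hα
  have hP := exists_gd (α := α) hS hg hα hK
  obtain ⟨P, hP1, hP2⟩ := hP 1
  set p : ℚ[X] := P.map (Int.castRingHom ℚ) with hp
  have hP0 : P ≠ 0 := by
    intro h
    have := hP1.1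
    rw [h, leadingCoeff_zero] at this
    exact not_isUnit_zero this
  have hp0 : p ≠ 0 := by
    rw [hp, Ne, Polynomial.map_eq_zero_iff (RingHom.injective_int (Int.castRingHom ℚ))]
    exact hP0
  set s := UniqueFactorizationMonoid.normalizedFactors p with hs
  have hirr : ∀ q ∈ s, Irreducible q := fun q hq =>
    UniqueFactorizationMonoid.irreducible_of_normalized_factor q hq
  have hd : ∀ q : ℚ[X], ∃ m : ℕ, 0 < m ∧ (Irreducible q →
      (q ∣ X ^ m - 1 ∨ ∀ f : addF K, ev (opB α) q f = 0 → f = 0)) := by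
    intro q
    by_cases hq : Irreducible q
    · rcases dich α hP q hq with ⟨m, hm, h⟩ | h
      · exact ⟨m, hm, fun _ => Or.inl h⟩
      · exact ⟨1, one_pos, fun _ => Or.inr h⟩
    · exact ⟨1, one_pos, fun h => absurd h hq⟩
  choose μ hμ1 hμ2 using hd
  set m := ∏ q ∈ s.toFinset, μ q with hm
  have hm0 : 0 < m := Finset.prod_pos fun q _ => hμ1 q
  refine ⟨m, s.card, hm0, fun f hf => ?_⟩
  have h1 : ∀ q ∈ s, q ∣ X ^ m - 1 ∨ ∀ f : addF K, ev (opB α) q f = 0 → f = 0 := by
    intro q hq
    rcases hμ2 q (hirr q hq) with h | h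
    · left
      refine h.trans ?_
      obtain ⟨c, hc⟩ : μ q ∣ m := Finset.dvd_prod_of_mem μ (Multiset.mem_toFinset.2 hq)
      rw [hc, pow_mul]
      exact sub_one_dvd_pow_sub_one (X ^ μ q) c
    · exact Or.inr h
  have h2 : ev (opB α) s.prod ⟨f, hf⟩ = 0 := by
    obtain ⟨u, hu⟩ := UniqueFactorizationMonoid.prod_normalizedFactors hp0
    have h3 : ev (opB α) p ⟨f, hf⟩ = 0 := by
      have h4 := ev_map (opB α) P 1
      rw [pow_one, comp_X, pow_one] at h4
      rw [hp, h4]
      have h5 := hP2 ⟨f, hf⟩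
      rwa [pow_one] at h5
    have h4 : s.prod = ((u⁻¹ : ℚ[X]ˣ) : ℚ[X]) * p := by
      rw [← hu, mul_comm, mul_assoc, Units.mul_inv, mul_one]
    rw [h4, map_mul, Module.End.mul_apply, h3, map_zero]
  have h3 := fin_step α (X ^ m - 1) s h1 ⟨f, hf⟩ h2
  rw [map_pow, map_sub, map_pow, ev_X, map_one] at h3
  have h4 := opB_val α m s.card ⟨f, hf⟩
  rw [h3] at h4
  exact h4.symm

end Pool.Agent.Asd3
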