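import Mathlib
import Pool.Agent.Asd3.Targets
import Pool.Agent.Asd3.UNI

/-!
# Tools for the existence of the data of LAM
-/

set_option autoImplicit false

namespace Pool.Agent.Asd3

open Multiplicative (toAdd ofAdd)
open Pool.Agent.ASD (Bl SubexpGrowth kr mem_kr kr_conj kr_fg exists_bl)

section div
variable {X : Type*} [Group X]

theorem divide (h : X →* Multiplicative ℤ) (d : ℤ) (hd : d ≠ 0) (hdiv : ∀ x, d ∣ toAdd (h x)) :
    ∃ h' : X →* Multiplicative ℤ, ∀ x, toAdd (h x) = d * toAdd (h' x) := by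
  choose k hk using hdiv
  refine ⟨{ toFun := fun x => ofAdd (k x), map_one' := ?_, map_mul' := fun x y => ?_ }, fun x => ?_⟩
  · have h1 := hk 1
    rw [map_one, toAdd_one] at h1
    have h2 : k 1 = 0 := by
      rcases mul_eq_zero.1 h1.symm with h | h
      · exact absurd h hd
      · exact h
    rw [h2, ofAdd_zero]
  · have h1 := hk (x * y)
    rw [map_mul, toAdd_mul, hk x, hk y, ← mul_add] at h1
    have h2 := mul_left_cancel₀ hd h1
    rw [← h2, ofAdd_add]
  · exact hk x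

theorem surj (h : X →* Multiplicative ℤ) (hne : h ≠ 1) :
    ∃ (h' : X →* Multiplicative ℤ) (d : ℤ), d ≠ 0 ∧ (∀ x, toAdd (h x) = d * toAdd (h' x)) ∧
      ∃ t, h' t = ofAdd 1 := by
  let A : AddSubgroup ℤ :=
    { carrier := {z | ∃ x, toAdd (h x) = z}
      zero_mem' := ⟨1, by simp⟩
      add_mem' := by
        rintro _ _ ⟨x, rfl⟩ ⟨y, rfl⟩
        exact ⟨x * y, by simp⟩
      neg_mem' := by
        rintro _ ⟨x, rfl⟩
        exact ⟨x⁻¹, by simp⟩ }
  obtain ⟨d, hd⟩ := Int.subgroup_cyclic A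
  have h1 : ∀ x, d ∣ toAdd (h x) := by
    intro x
    have h2 : toAdd (h x) ∈ A := ⟨x, rfl⟩
    rw [hd, AddSubgroup.mem_closure_singleton] at h2
    obtain ⟨n, hn⟩ := h2
    exact ⟨n, by rw [← hn, smul_eq_mul, mul_comm]⟩
  have hd0 : d ≠ 0 := by
    rintro rfl
    refine hne ?_
    ext x
    have := h1 x
    rw [zero_dvd_iff] at this
    exact this
  obtain ⟨h', hh'⟩ := divide h d hd0 h1
  have h3 : d ∈ A := by rw [hd]; exact AddSubgroup.subset_closure rfl
  obtain ⟨t, ht⟩ := h3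
  refine ⟨h', d, hd0, hh', t, ?_⟩
  rw [hh'] at ht
  have h4 : toAdd (h' t) = 1 := by
    have : d * toAdd (h' t) = d * 1 := by rw [ht, mul_one]
    exact mul_left_cancel₀ hd0 this
  rw [← h4, ofAdd_toAdd]

end div

section conj
variable {G : Type*} [Group G]

/-- conjugation by a normalizing element -/
def cnj (K : Subgroup G) (x : G) (h1 : ∀ k ∈ K, x * k * x⁻¹ ∈ K)
    (h2 : ∀ k ∈ K, x⁻¹ * k * x ∈ K) : K ≃* K where
  toFun k := ⟨x * k * x⁻¹, h1 k k.2⟩
  invFun k := ⟨x⁻¹ * k * x, h2 k k.2⟩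
  left_inv k := by ext; simp [mul_assoc]
  right_inv k := by ext; simp [mul_assoc]
  map_mul' k k' := by ext; simp [mul_assoc]

theorem cnj_coe (K : Subgroup G) (x : G) (h1 : ∀ k ∈ K, x * k * x⁻¹ ∈ K)
    (h2 : ∀ k ∈ K, x⁻¹ * k * x ∈ K) (k : K) : ((cnj K x h1 h2 k : K) : G) = x * k * x⁻¹ := rfl

theorem fl_pow {K : Type*} (α : K → K) (n : ℕ) (f : K → ℝ) (k : K) :
    ((LinearMap.funLeft ℝ ℝ α) ^ n) f k = f (α^[n] k) := by
  induction n generalizing f k with
  | zero => rfl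
  | succ n ih =>
    rw [pow_succ, Module.End.mul_apply, ih, LinearMap.funLeft_apply,
      ← Function.iterate_succ_apply' α n k]

theorem homs_of (P : G → ℤ → ℤ → Prop) (h1 : P 1 0 0)
    (hm : ∀ g g' i i' j j', P g i j → P g' i' j' → P (g * g') (i + i') (j + j'))
    (hi : ∀ g i j, P g i j → P g⁻¹ (-i) (-j))
    (hu : ∀ g i i' j j', P g i j → P g i' j' → i = i' ∧ j = j') :
    ∃ (Γ : Subgroup G) (a b : Γ →* Multiplicative ℤ), (∀ g, g ∈ Γ ↔ ∃ i j, P g i j) ∧
      ∀ g : Γ, P g (toAdd (a g)) (toAdd (b g)) := by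
  let Γ : Subgroup G :=
    { carrier := {g | ∃ i j, P g i j}
      one_mem' := ⟨0, 0, h1⟩
      mul_mem' := by
        rintro g g' ⟨i, j, h⟩ ⟨i', j', h'⟩
        exact ⟨_, _, hm _ _ _ _ _ _ h h'⟩
      inv_mem' := by
        rintro g ⟨i, j, h⟩
        exact ⟨_, _, hi _ _ _ h⟩ }
  have hΓ : ∀ g : Γ, ∃ i j, P g i j := fun g => g.2
  choose i j hij using hΓ
  refine ⟨Γ, ⟨⟨fun g => ofAdd (i g), ?_⟩, fun g g' => ?_⟩, ⟨⟨fun g => ofAdd (j g), ?_⟩,
    fun g g' => ?_⟩, fun g => Iff.rfl, fun g => hij g⟩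
  · have := (hu _ _ _ _ _ (hij 1) h1).1
    rw [this, ofAdd_zero]
  · have := (hu _ _ _ _ _ (hij (g * g')) (hm _ _ _ _ _ _ (hij g) (hij g'))).1
    simp only [this, ofAdd_add]
  · have := (hu _ _ _ _ _ (hij 1) h1).2
    rw [this, ofAdd_zero]
  · have := (hu _ _ _ _ _ (hij (g * g')) (hm _ _ _ _ _ _ (hij g) (hij g'))).2
    simp only [this, ofAdd_add]

end conj

section lin
variable {K : Type} [Group K]

theorem addF_fin (hK : Group.FG K) : Module.Finite ℝ (addF K) := by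
  obtain ⟨T, hT⟩ := Group.fg_def.1 hK
  let L : addF K →ₗ[ℝ] (T → ℝ) :=
    { toFun := fun f t => f.1 t
      map_add' := fun f g => rfl
      map_smul' := fun c f => rfl }
  have hL : Function.Injective L := by
    rw [← LinearMap.ker_eq_bot, LinearMap.ker_eq_bot']
    intro f hf
    refine addF_eq_zero f (T := (T : Set K)) hT fun g hg => ?_
    exact congrFun hf ⟨g, hg⟩
  exact Module.Finite.of_injective L hL

/-- the additive function of a homomorphism to the integers -/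
def rl (h : K →* Multiplicative ℤ) : K → ℝ := fun k => ((toAdd (h k) : ℤ) : ℝ)

theorem rl_mem (h : K →* Multiplicative ℤ) : rl h ∈ addF K := by
  intro k k'
  simp [rl]

theorem rl_ne {h : K →* Multiplicative ℤ} (hh : h ≠ 1) : rl h ≠ 0 := by
  intro hcon
  refine hh ?_
  ext k
  have := congrFun hcon k
  simp only [rl, Pi.zero_apply, Int.cast_eq_zero] at this
  exact this

end lin

/-- the growth bound -/
theorem grow_bd {G : Type*} [Group G] (S : Finset G) (F : G → ℤ × ℤ) (hF : Function.Injective F)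
    (h1 : F 1 = 0) (q1 q2 : G → ℕ) (hq1 : ∀ g, (F g).1.natAbs = q1 g)
    (hq2 : ∀ g, (F g).2.natAbs = q2 g)
    (m1 : ∀ g g', q1 (g * g') ≤ q1 g + q1 g') (m2 : ∀ g g', q2 (g * g') ≤ q2 g + q2 g')
    (i1 : ∀ g, q1 g⁻¹ = q1 g) (i2 : ∀ g, q2 g⁻¹ = q2 g) :
    ∃ C : ℕ, ∀ r : ℕ, Set.ncard {g : G | Bl S r g} ≤ C * (r + 1) ^ 2 := by
  classical
  set c : ℕ := S.sup q1 ⊔ S.sup q2 with hc
  have h2 : ∀ l : List G, (∀ x ∈ l, x ∈ S ∨ x⁻¹ ∈ S) → q1 l.prod ≤ l.length * c ∧
      q2 l.prod ≤ l.length * c := by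
    intro l
    induction l with
    | nil =>
      intro _
      have h3 : q1 1 = 0 := by rw [← hq1, h1]; rfl
      have h4 : q2 1 = 0 := by rw [← hq2, h1]; rfl
      simp [h3, h4]
    | cons x l ih =>
      intro hl
      obtain ⟨h3, h4⟩ := ih fun y hy => hl y (List.mem_cons_of_mem _ hy)
      have h5 : q1 x ≤ c ∧ q2 x ≤ c := by
        rcases hl x List.mem_cons_self with h | h
        · exact ⟨(Finset.le_sup h).trans le_sup_left, (Finset.le_sup h).trans le_sup_right⟩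
        · rw [← i1, ← i2]
          exact ⟨(Finset.le_sup (f := q1) h).trans le_sup_left,
            (Finset.le_sup (f := q2) h).trans le_sup_right⟩
      rw [List.prod_cons, List.length_cons, add_mul, one_mul, add_comm]
      exact ⟨(m1 _ _).trans (add_le_add h5.1 h3), (m2 _ _).trans (add_le_add h5.2 h4)⟩
  refine ⟨(2 * c + 1) ^ 2, fun r => ?_⟩
  have h3 : Set.MapsTo F {g : G | Bl S r g}
      ((Finset.Icc (-((r * c : ℕ) : ℤ)) (r * c : ℕ) ×ˢ Finset.Icc (-((r * c : ℕ) : ℤ)) (r * c : ℕ) :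
        Finset (ℤ × ℤ)) : Set (ℤ × ℤ)) := by
    rintro g ⟨l, hl, hlS, rfl⟩
    obtain ⟨h4, h5⟩ := h2 l hlS
    have h6 : l.length * c ≤ r * c := Nat.mul_le_mul hl le_rfl
    have h7 := hq1 l.prod
    have h8 := hq2 l.prod
    simp only [Finset.coe_product, Finset.coe_Icc, Set.mem_prod, Set.mem_Icc]
    omega
  have h4 := Set.ncard_le_ncard_of_injOn F h3 hF.injOn (Finset.finite_toSet _)
  refine h4.trans ?_
  rw [Set.ncard_coe_finset, Finset.card_product, Int.card_Icc]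
  have h5 : ((r * c : ℕ) + 1 - -((r * c : ℕ) : ℤ)).toNat = 2 * (r * c) + 1 := by omega
  rw [h5, ← mul_pow, ← sq]
  apply Nat.pow_le_pow_left
  nlinarith

end Pool.Agent.Asd3
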