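import Mathlib
import Pool.Agent.Asd3.EX1

/-!
# The steps of the construction of the data of LAM
-/

set_option autoImplicit false

namespace Pool.Agent.Asd3

open Multiplicative (toAdd ofAdd)
open Pool.Agent.ASD (Bl SubexpGrowth kr mem_kr kr_conj kr_fg exists_bl)

section steps
variable {G : Type} [Group G] {S : Finset G}

theorem step1 (hS : Subgroup.closure (S : Set G) = ⊤) (hg : SubexpGrowth S) (hLI : LocInd G)
    (hgr : ∀ C : ℕ, ∃ r : ℕ, C * (r + 1) ^ 2 < Set.ncard {g : G | Bl S r g}) :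
    ∃ (f0 : G →* Multiplicative ℤ) (t0 : G), f0 t0 = ofAdd 1 ∧ f0.ker.FG := by
  have hne : (⊤ : Subgroup G) ≠ ⊥ := by
    intro hcon
    have hsub : ∀ g : G, g = 1 := by
      intro g
      have : g ∈ (⊥ : Subgroup G) := by rw [← hcon]; trivial
      exact this
    obtain ⟨C, hC⟩ := grow_bd S (fun _ => (0 : ℤ × ℤ)) (fun g g' _ => by rw [hsub g, hsub g']) rfl
      (fun _ => 0) (fun _ => 0) (fun _ => rfl) (fun _ => rfl) (fun _ _ => le_rfl)
      (fun _ _ => le_rfl) (fun _ => rfl) (fun _ => rfl)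
    obtain ⟨r, hr⟩ := hgr C
    exact absurd (hC r) (by omega)
  obtain ⟨f, hf⟩ := hLI ⊤ ⟨S, hS⟩ hne
  have hf' : f.comp (Subgroup.topEquiv (G := G)).symm.toMonoidHom ≠ 1 := by
    intro hcon
    refine hf ?_
    ext x
    have := DFunLike.congr_fun hcon (x : G)
    exact congrArg toAdd this
  obtain ⟨f0, d, -, -, t0, ht0⟩ := surj _ hf'
  refine ⟨f0, t0, ht0, ?_⟩
  have h1 : f0.comp (⊤ : Subgroup G).subtype ≠ 1 := by
    intro hcon
    have := DFunLike.congr_fun hcon (⟨t0, trivial⟩ : (⊤ : Subgroup G))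
    simp only [MonoidHom.comp_apply, Subgroup.coe_subtype, MonoidHom.one_apply] at this
    rw [ht0] at this
    have h2 := congrArg toAdd this
    simp at h2
  have h2 := kr_fg hS hg ⊤ ⟨S, hS⟩ _ h1
  have h3 : kr ⊤ (f0.comp (⊤ : Subgroup G).subtype) = f0.ker := by
    ext x
    rw [mem_kr]
    constructor
    · rintro ⟨hx, h⟩
      exact h
    · intro h
      exact ⟨trivial, h⟩
  rwa [h3] at h2

variable {f0 : G →* Multiplicative ℤ} {t0 : G}

theorem norm_mem (f0 : G →* Multiplicative ℤ) (x : G) {n : G} (hn : n ∈ f0.ker) :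
    x * n * x⁻¹ ∈ f0.ker := (MonoidHom.normal_ker f0).conj_mem n hn x

theorem norm_mem' (f0 : G →* Multiplicative ℤ) (x : G) {n : G} (hn : n ∈ f0.ker) :
    x⁻¹ * n * x ∈ f0.ker := by
  have := norm_mem f0 x⁻¹ hn
  rwa [inv_inv] at this

theorem step2 (h1 : T_UNI) (hS : Subgroup.closure (S : Set G) = ⊤) (hg : SubexpGrowth S)
    (hLI : LocInd G)
    (hgr : ∀ C : ℕ, ∃ r : ℕ, C * (r + 1) ^ 2 < Set.ncard {g : G | Bl S r g})
    (hfg : f0.ker.FG) :
    ∃ (m : ℕ) (f3 : f0.ker →* Multiplicative ℤ) (s0 : f0.ker), 0 < m ∧ f3 s0 = ofAdd 1 ∧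
      ∀ n n' : f0.ker, (n' : G) = t0 ^ m * n * (t0 ^ m)⁻¹ → f3 n' = f3 n := by
  have hne : f0.ker ≠ ⊥ := by
    intro hcon
    have hinj : Function.Injective f0 := (MonoidHom.ker_eq_bot_iff f0).1 hcon
    obtain ⟨C, hC⟩ := grow_bd S (fun g => ((toAdd (f0 g), 0) : ℤ × ℤ))
      (fun g g' h => hinj (toAdd.injective (congrArg Prod.fst h))) (by simp)
      (fun g => (toAdd (f0 g)).natAbs) (fun _ => 0) (fun _ => rfl) (fun _ => rfl)
      (fun g g' => by simp only [map_mul, toAdd_mul]; exact Int.natAbs_add_le _ _)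
      (fun _ _ => le_rfl) (fun g => by simp) (fun _ => rfl)
    obtain ⟨r, hr⟩ := hgr C
    exact absurd (hC r) (by omega)
  obtain ⟨f1, hf1⟩ := hLI f0.ker hfg hne
  let α := cnj f0.ker t0 (fun n hn => norm_mem f0 t0 hn) (fun n hn => norm_mem' f0 t0 hn)
  have hα : ∀ k : f0.ker, (α k : G) = t0 * k * t0⁻¹ := fun k => rfl
  obtain ⟨m, d, hm, hd⟩ := h1 G S hS hg f0.ker t0 α hfg hα
  let β : f0.ker →* f0.ker := (cnj f0.ker (t0 ^ m) (fun n hn => norm_mem f0 _ hn)
    (fun n hn => norm_mem' f0 _ hn)).toMonoidHom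
  have hβ : ∀ k : f0.ker, (β k : G) = t0 ^ m * k * (t0 ^ m)⁻¹ := fun k => rfl
  have hαβ : ∀ k, α^[m] k = β k := fun k => Subtype.ext (by rw [iter_coe hα, hβ])
  let h : ℕ → (f0.ker →* Multiplicative ℤ) := fun i =>
    Nat.rec f1 (fun _ g => g.comp β / g) i
  have h0 : h 0 = f1 := rfl
  have hs : ∀ i, h (i + 1) = (h i).comp β / h i := fun i => rfl
  have hrl : ∀ i, (((LinearMap.funLeft ℝ ℝ α) ^ m - 1) ^ i) (rl f1) = rl (h i) := by
    intro i
    induction i with
    | zero => rfl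
    | succ i ih =>
      rw [pow_succ', Module.End.mul_apply, ih]
      funext k
      rw [LinearMap.sub_apply, Pi.sub_apply, fl_pow, hαβ]
      simp [rl, hs]
  have hd1 : h d = 1 := by
    classical
    by_contra hcon
    exact rl_ne hcon (by rw [← hrl]; exact hd _ (rl_mem f1))
  have hex : ∃ i, h i ≠ 1 ∧ h (i + 1) = 1 := by
    by_contra hcon
    push Not at hcon
    have hall : ∀ i, h i ≠ 1 := by
      intro i
      induction i with
      | zero => exact hf1
      | succ i ih => exact hcon i ih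
    exact hall d hd1
  obtain ⟨i, hi1, hi2⟩ := hex
  have hinv : ∀ n, h i (β n) = h i n := by
    intro n
    have := DFunLike.congr_fun hi2 n
    rw [hs, MonoidHom.div_apply, MonoidHom.comp_apply, MonoidHom.one_apply, div_eq_one] at this
    exact this
  obtain ⟨f3, e, he, hf3, s0, hs0⟩ := surj (h i) hi1
  refine ⟨m, f3, s0, hm, hs0, fun n n' hn => ?_⟩
  have h2 : n' = β n := Subtype.ext (by rw [hn, hβ])
  have h3 := hf3 (β n)
  rw [hinv, hf3 n] at h3
  rw [h2]
  exact (toAdd.injective (mul_left_cancel₀ he h3)).symm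

theorem step3 (hgr : ∀ C : ℕ, ∃ r : ℕ, C * (r + 1) ^ 2 < Set.ncard {g : G | Bl S r g})
    (ht0 : f0 t0 = ofAdd 1) (f3 : f0.ker →* Multiplicative ℤ) (s0 : f0.ker)
    (hs0 : f3 s0 = ofAdd 1) : kr f0.ker f3 ≠ ⊥ := by
  intro hcon
  have hinj : ∀ n n' : f0.ker, f3 n = f3 n' → n = n' := by
    intro n n' h
    have h1 : ((n * n'⁻¹ : f0.ker) : G) ∈ kr f0.ker f3 := by
      rw [mem_kr]
      refine ⟨(n * n'⁻¹).2, ?_⟩
      change f3 (n * n'⁻¹) = 1
      rw [map_mul, map_inv, h, mul_inv_cancel]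
    rw [hcon, Subgroup.mem_bot] at h1
    have h2 : n * n'⁻¹ = 1 := Subtype.ext h1
    exact mul_inv_eq_one.1 h2
  let α := cnj f0.ker t0 (fun n hn => norm_mem f0 t0 hn) (fun n hn => norm_mem' f0 t0 hn)
  have hα : ∀ k : f0.ker, (α k : G) = t0 * k * t0⁻¹ := fun k => rfl
  have h1 : ∀ n : f0.ker, n = s0 ^ (toAdd (f3 n)) := by
    intro n
    apply hinj
    rw [map_zpow, hs0]
    apply toAdd.injective
    simp
  set ε : ℤ := toAdd (f3 (α s0)) with hε
  have h2 : ∀ n : f0.ker, toAdd (f3 (α n)) = toAdd (f3 n) * ε := by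
    intro n
    conv_lhs => rw [h1 n]
    rw [map_zpow, map_zpow, toAdd_zpow, smul_eq_mul]
  have h3 : ε.natAbs = 1 := by
    obtain ⟨n, hn⟩ := α.surjective s0
    have h4 := h2 n
    rw [hn, hs0, toAdd_ofAdd] at h4
    have h5 : IsUnit ε := IsUnit.of_mul_eq_one (toAdd (f3 n)) (by rw [mul_comm]; exact h4.symm)
    exact Int.isUnit_iff_natAbs_eq.1 h5
  have h4 : ∀ n : f0.ker, (toAdd (f3 (α n))).natAbs = (toAdd (f3 n)).natAbs := by
    intro n
    rw [h2, Int.natAbs_mul, h3, mul_one]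
  have h5 : ∀ (j : ℤ) (n n' : f0.ker), (n' : G) = t0 ^ j * n * (t0 ^ j)⁻¹ →
      (toAdd (f3 n')).natAbs = (toAdd (f3 n)).natAbs := by
    intro j
    induction j using Int.induction_on with
    | zero =>
      intro n n' h
      have : n' = n := Subtype.ext (by rw [h]; simp)
      rw [this]
    | succ j ih =>
      intro n n' h
      have h6 : n' = α ⟨t0 ^ (j : ℤ) * n * (t0 ^ (j : ℤ))⁻¹, norm_mem f0 _ n.2⟩ :=
        Subtype.ext (by
          rw [hα, h, add_comm, zpow_add, zpow_one]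
          group)
      rw [h6, h4]
      exact ih n _ rfl
    | pred j ih =>
      intro n n' h
      have h6 : α n' = ⟨t0 ^ (-(j : ℤ)) * n * (t0 ^ (-(j : ℤ)))⁻¹, norm_mem f0 _ n.2⟩ :=
        Subtype.ext (by
          rw [hα, h, sub_eq_add_neg, add_comm, zpow_add, zpow_neg_one]
          group)
      rw [← h4 n', h6]
      exact ih n _ rfl
  have hN : ∀ g : G, g * t0 ^ (-toAdd (f0 g)) ∈ f0.ker := by
    intro g
    rw [MonoidHom.mem_ker, map_mul, map_zpow, ht0]
    apply toAdd.injective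
    simp
  let nn : G → f0.ker := fun g => ⟨g * t0 ^ (-toAdd (f0 g)), hN g⟩
  have hnn : ∀ g, (nn g : G) = g * t0 ^ (-toAdd (f0 g)) := fun g => rfl
  obtain ⟨C, hC⟩ := grow_bd S (fun g => ((toAdd (f3 (nn g)), toAdd (f0 g)) : ℤ × ℤ))
    (by
      intro g g' h
      have e1 : toAdd (f3 (nn g)) = toAdd (f3 (nn g')) := congrArg Prod.fst h
      have e2 : toAdd (f0 g) = toAdd (f0 g') := congrArg Prod.snd h
      have e3 := hinj _ _ (toAdd.injective e1)
      have e4 := congrArg Subtype.val e3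
      rw [hnn, hnn, e2] at e4
      exact mul_right_cancel e4)
    (by
      have e1 : nn 1 = 1 := Subtype.ext (by rw [hnn]; simp)
      have e2 : toAdd (f3 (nn 1)) = 0 := by rw [e1, map_one]; rfl
      have e3 : toAdd (f0 1) = 0 := by rw [map_one]; rfl
      exact Prod.ext e2 e3)
    (fun g => (toAdd (f3 (nn g))).natAbs) (fun g => (toAdd (f0 g)).natAbs) (fun _ => rfl)
    (fun _ => rfl)
    (by
      intro g g'
      let n2 : f0.ker := ⟨t0 ^ (toAdd (f0 g)) * nn g' * (t0 ^ (toAdd (f0 g)))⁻¹,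
        norm_mem f0 _ (nn g').2⟩
      have e1 : nn (g * g') = nn g * n2 := Subtype.ext (by
        rw [Subgroup.coe_mul, hnn, hnn]
        change _ = _ * (t0 ^ (toAdd (f0 g)) * (g' * t0 ^ (-toAdd (f0 g'))) *
          (t0 ^ (toAdd (f0 g)))⁻¹)
        rw [map_mul, toAdd_mul, neg_add_rev, zpow_add]
        group)
      have e2 := h5 (toAdd (f0 g)) (nn g') n2 rfl
      rw [e1, map_mul, toAdd_mul, ← e2]
      exact Int.natAbs_add_le _ _)
    (fun g g' => by simp only [map_mul, toAdd_mul]; exact Int.natAbs_add_le _ _)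
    (by
      intro g
      have e1 : (((nn g⁻¹ : f0.ker)) : G) = t0 ^ (-toAdd (f0 g)) * ((nn g)⁻¹ : f0.ker) *
          (t0 ^ (-toAdd (f0 g)))⁻¹ := by
        rw [Subgroup.coe_inv, hnn, hnn, map_inv, toAdd_inv]
        group
      have e2 := h5 _ _ _ e1
      rw [e2, map_inv, toAdd_inv, Int.natAbs_neg])
    (fun g => by simp)
  obtain ⟨r, hr⟩ := hgr C
  exact absurd (hC r) (by omega)

end steps

end Pool.Agent.Asd3
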