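import Mathlib
import Pool.Agent.Asd3.EX2

/-!
# Existence of the data of LAM in locally indicable groups
-/

set_option autoImplicit false

namespace Pool.Agent.Asd3

open Multiplicative (toAdd ofAdd)
open Pool.Agent.ASD (Bl SubexpGrowth kr mem_kr kr_conj kr_fg exists_bl)

theorem p_EX (h1 : T_UNI) (h2 : T_LIN) : T_EX := by
  classical
  intro G _ S hS hg hLI hgr
  obtain ⟨f0, t0, ht0, hfg0⟩ := step1 hS hg hLI hgr
  obtain ⟨m, f3, s0, hm, hs0, hf3⟩ := step2 (t0 := t0) h1 hS hg hLI hgr hfg0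
  have hKne := step3 hgr ht0 f3 s0 hs0
  have hf3ne : f3 ≠ 1 := by
    intro hcon
    rw [hcon, MonoidHom.one_apply] at hs0
    have := congrArg toAdd hs0
    simp at this
  have hKfg : (kr f0.ker f3).FG := kr_fg hS hg f0.ker hfg0 f3 hf3ne
  set K := kr f0.ker f3 with hK
  -- invariance of `f3`
  have hinvN : ∀ (i : ℕ) (n n' : f0.ker), (n' : G) = (t0 ^ m) ^ i * n * ((t0 ^ m) ^ i)⁻¹ →
      f3 n' = f3 n := by
    intro i
    induction i with
    | zero =>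
      intro n n' h
      have : n' = n := Subtype.ext (by rw [h]; simp)
      rw [this]
    | succ i ih =>
      intro n n' h
      have h3 := hf3 ⟨(t0 ^ m) ^ i * n * ((t0 ^ m) ^ i)⁻¹, norm_mem f0 _ n.2⟩ n' (by
        rw [h, pow_succ']
        group)
      rw [h3]
      exact ih n _ rfl
  have hinvZ : ∀ (j : ℤ) (n n' : f0.ker), (n' : G) = (t0 ^ m) ^ j * n * ((t0 ^ m) ^ j)⁻¹ →
      f3 n' = f3 n := by
    intro j n n' h
    rcases Int.eq_nat_or_neg j with ⟨i, rfl | rfl⟩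
    · exact hinvN i n n' (by rw [h, zpow_natCast])
    · refine (hinvN i n' n ?_).symm
      rw [h, zpow_neg, zpow_natCast]
      group
  -- normalization of `K`
  have hsK1 : ∀ k ∈ K, (s0 : G) * k * (s0 : G)⁻¹ ∈ K := fun k hk => kr_conj s0.2 hk
  have hsK2 : ∀ k ∈ K, (s0 : G)⁻¹ * k * (s0 : G) ∈ K := fun k hk => by
    have := kr_conj (inv_mem s0.2) hk
    rwa [inv_inv] at this
  have htK1 : ∀ k ∈ K, t0 ^ m * k * (t0 ^ m)⁻¹ ∈ K := by
    intro k hk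
    obtain ⟨hk1, hk2⟩ := mem_kr.1 hk
    refine mem_kr.2 ⟨norm_mem f0 _ hk1, ?_⟩
    rw [← hk2]
    exact hf3 ⟨k, hk1⟩ _ rfl
  have htK2 : ∀ k ∈ K, (t0 ^ m)⁻¹ * k * (t0 ^ m) ∈ K := by
    intro k hk
    obtain ⟨hk1, hk2⟩ := mem_kr.1 hk
    refine mem_kr.2 ⟨norm_mem' f0 _ hk1, ?_⟩
    rw [← hk2]
    exact (hf3 _ ⟨k, hk1⟩ (by simp [mul_assoc])).symm
  let αs : K ≃* K := cnj K s0 hsK1 hsK2
  let αt : K ≃* K := cnj K (t0 ^ m) htK1 htK2
  have hαs : ∀ k : K, (αs k : G) = s0 * k * (s0 : G)⁻¹ := fun k => rfl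
  have hαt : ∀ k : K, (αt k : G) = t0 ^ m * k * (t0 ^ m)⁻¹ := fun k => rfl
  obtain ⟨m1, d1, hm1, hd1⟩ := h1 G S hS hg K s0 αs hKfg hαs
  obtain ⟨m2, d2, hm2, hd2⟩ := h1 G S hS hg K (t0 ^ m) αt hKfg hαt
  set s : G := (s0 : G) ^ m1 with hs
  set t : G := (t0 ^ m) ^ m2 with ht
  have hσ : ∀ k : K, ((αs^[m1] k : K) : G) = s * k * s⁻¹ := fun k => iter_coe hαs m1 k
  have hτ : ∀ k : K, ((αt^[m2] k : K) : G) = t * k * t⁻¹ := fun k => iter_coe hαt m2 k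
  set A : (K → ℝ) →ₗ[ℝ] (K → ℝ) := (LinearMap.funLeft ℝ ℝ αs) ^ m1 with hA
  set B : (K → ℝ) →ₗ[ℝ] (K → ℝ) := (LinearMap.funLeft ℝ ℝ αt) ^ m2 with hB
  have hAa : ∀ f k, A f k = f (αs^[m1] k) := fun f k => fl_pow αs m1 f k
  have hBa : ∀ f k, B f k = f (αt^[m2] k) := fun f k => fl_pow αt m2 f k
  have hst : t * s * t⁻¹ * s⁻¹ ∈ K := by
    have hsN : s ∈ f0.ker := pow_mem s0.2 m1
    have h3 := hinvN m2 ⟨s, hsN⟩ ⟨t * s * t⁻¹, norm_mem f0 _ hsN⟩ rfl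
    refine mem_kr.2 ⟨mul_mem (norm_mem f0 _ hsN) (inv_mem hsN), ?_⟩
    have h4 : (⟨t * s * t⁻¹ * s⁻¹, mul_mem (norm_mem f0 _ hsN) (inv_mem hsN)⟩ : f0.ker) =
        ⟨t * s * t⁻¹, norm_mem f0 _ hsN⟩ * (⟨s, hsN⟩ : f0.ker)⁻¹ := rfl
    rw [h4, map_mul, map_inv, h3, mul_inv_cancel]
  have hfinV : Module.Finite ℝ (addF K) := addF_fin ((Group.fg_iff_subgroup_fg K).2 hKfg)
  have hVne : addF K ≠ ⊥ := by
    obtain ⟨h, hh⟩ := hLI K hKfg hKne
    intro hcon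
    have h3 : rl h ∈ (⊥ : Submodule ℝ (K → ℝ)) := by rw [← hcon]; exact rl_mem h
    exact rl_ne hh h3
  have hAV : ∀ f ∈ addF K, A f ∈ addF K := by
    intro f hf k k'
    rw [hAa, hAa, hAa, iterate_map_mul]
    exact hf _ _
  have hBV : ∀ f ∈ addF K, B f ∈ addF K := by
    intro f hf k k'
    rw [hBa, hBa, hBa, iterate_map_mul]
    exact hf _ _
  have hcomm : ∀ f ∈ addF K, A (B f) = B (A f) := by
    intro f hf
    funext k
    rw [hAa, hBa, hBa, hAa]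
    set y : K := αs^[m1] (αt^[m2] k) with hy
    have h3 : αt^[m2] (αs^[m1] k) = ⟨t * s * t⁻¹ * s⁻¹, hst⟩ * y * (⟨t * s * t⁻¹ * s⁻¹, hst⟩ : K)⁻¹ := by
      apply Subtype.ext
      rw [hτ, hσ, Subgroup.coe_mul, Subgroup.coe_mul, Subgroup.coe_inv, hy, hσ, hτ]
      group
    rw [h3]
    have h4 := addF_mul (⟨f, hf⟩ : addF K)
    have h5 := addF_inv (⟨f, hf⟩ : addF K)
    simp only at h4 h5
    rw [h4, h4, h5]
    ring
  obtain ⟨φ0, hφ0, ψ0, hψ0, c0, hBφ, hcχ, hcφ⟩ := h2 K (addF K) hfinV hVne A B hAV hBV hcomm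
    ⟨d1, fun f hf => hd1 f hf⟩ ⟨d2, fun f hf => hd2 f hf⟩
  -- the group `Γ`
  let P : G → ℤ → ℤ → Prop := fun g i j => ∃ n : f0.ker, toAdd (f3 n) = m1 * i ∧ g = n * t ^ j
  have htj : ∀ j : ℤ, t ^ j = (t0 ^ m) ^ ((m2 : ℤ) * j) := fun j => by
    rw [ht, ← zpow_natCast, ← zpow_mul]
  have hP1 : P 1 0 0 := ⟨1, by simp, by simp⟩
  have hPm : ∀ g g' i i' j j', P g i j → P g' i' j' → P (g * g') (i + i') (j + j') := by
    rintro g g' i i' j j' ⟨n, hn, rfl⟩ ⟨n', hn', rfl⟩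
    let n2 : f0.ker := ⟨t ^ j * n' * (t ^ j)⁻¹, norm_mem f0 _ n'.2⟩
    have h3 : f3 n2 = f3 n' := hinvZ ((m2 : ℤ) * j) n' n2 (by
      rw [← htj])
    refine ⟨n * n2, ?_, ?_⟩
    · rw [map_mul, toAdd_mul, hn, h3, hn']
      ring
    · rw [Subgroup.coe_mul, zpow_add]
      change _ = _ * (t ^ j * n' * (t ^ j)⁻¹) * _
      group
  have hPi : ∀ g i j, P g i j → P g⁻¹ (-i) (-j) := by
    rintro g i j ⟨n, hn, rfl⟩
    let n2 : f0.ker := ⟨t ^ (-j) * (n⁻¹ : f0.ker) * (t ^ (-j))⁻¹, norm_mem f0 _ (n⁻¹).2⟩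
    have h3 : f3 n2 = f3 n⁻¹ := hinvZ ((m2 : ℤ) * (-j)) n⁻¹ n2 (by
      rw [← htj])
    refine ⟨n2, ?_, ?_⟩
    · rw [h3, map_inv, toAdd_inv, hn]
      ring
    · change _ = (t ^ (-j) * ((n⁻¹ : f0.ker) : G) * (t ^ (-j))⁻¹) * _
      rw [Subgroup.coe_inv]
      group
  have hf0t : toAdd (f0 t) = m * m2 := by
    rw [ht, ← pow_mul, map_pow, ht0, toAdd_pow, toAdd_ofAdd]
    simp
  have hPu : ∀ g i i' j j', P g i j → P g i' j' → i = i' ∧ j = j' := by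
    rintro g i i' j j' ⟨n, hn, rfl⟩ ⟨n', hn', he⟩
    have h3 : j = j' := by
      have h4 := congrArg (fun x => toAdd (f0 x)) he
      simp only [map_mul, map_zpow, toAdd_mul, toAdd_zpow, hf0t, smul_eq_mul] at h4
      have h5 : f0 n = 1 := n.2
      have h6 : f0 n' = 1 := n'.2
      rw [h5, h6, toAdd_one, zero_add, zero_add] at h4
      exact mul_right_cancel₀ (by positivity) h4
    rw [← h3] at he
    have h4 : n = n' := Subtype.ext (mul_right_cancel he)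
    rw [← h4, hn] at hn'
    exact ⟨mul_left_cancel₀ (by positivity) hn', h3⟩
  obtain ⟨Γ, a, b, hΓ, hab⟩ := homs_of P hP1 hPm hPi hPu
  have hPK : ∀ g : G, P g 0 0 ↔ g ∈ K := by
    intro g
    constructor
    · rintro ⟨n, hn, rfl⟩
      refine mem_kr.2 ⟨by simp, ?_⟩
      apply toAdd.injective
      have h3 : (⟨(n : G) * t ^ (0 : ℤ), by simp⟩ : f0.ker) = n := Subtype.ext (by simp)
      rw [h3, hn]
      simp
    · intro hk
      obtain ⟨h3, h4⟩ := mem_kr.1 hk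
      exact ⟨⟨g, h3⟩, by rw [h4]; simp, by simp⟩
  have hPs : P s 1 0 := ⟨s0 ^ m1, by rw [map_pow, hs0, toAdd_pow, toAdd_ofAdd]; simp, by simp [hs]⟩
  have hPt : P t 0 1 := ⟨1, by simp, by simp⟩
  let s' : Γ := ⟨s, (hΓ s).2 ⟨1, 0, hPs⟩⟩
  let t' : Γ := ⟨t, (hΓ t).2 ⟨0, 1, hPt⟩⟩
  have hs1 := hPu _ _ _ _ _ (hab s') hPs
  have ht1 := hPu _ _ _ _ _ (hab t') hPt
  have hker : ∀ k : Γ, k ∈ a.ker ⊓ b.ker ↔ (k : G) ∈ K := by
    intro k
    rw [← hPK, Subgroup.mem_inf, MonoidHom.mem_ker, MonoidHom.mem_ker]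
    constructor
    · rintro ⟨h3, h4⟩
      have := hab k
      rw [h3, h4] at this
      exact this
    · intro h3
      obtain ⟨h4, h5⟩ := hPu _ _ _ _ _ (hab k) h3
      exact ⟨toAdd.injective h4, toAdd.injective h5⟩
  have hKΓ : ∀ k : K, (k : G) ∈ Γ := fun k => (hΓ k).2 ⟨0, 0, (hPK k).2 k.2⟩
  let ι : K → Γ := fun k => ⟨k, hKΓ k⟩
  have hιk : ∀ k : K, ι k ∈ a.ker ⊓ b.ker := fun k => (hker _).2 k.2
  -- extension by zero
  let ex : (K → ℝ) → Γ → ℝ := fun f x => if h : (x : G) ∈ K then f ⟨x, h⟩ else 0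
  have hex : ∀ (f : K → ℝ) (x : Γ) (h : (x : G) ∈ K), ex f x = f ⟨x, h⟩ := fun f x h => by
    simp only [ex]
    rw [dif_pos h]
  have hexadd : ∀ f ∈ addF K, ∀ k ∈ a.ker ⊓ b.ker, ∀ k' ∈ a.ker ⊓ b.ker,
      ex f (k * k') = ex f k + ex f k' := by
    intro f hf k hk k' hk'
    have h3 := (hker k).1 hk
    have h4 := (hker k').1 hk'
    rw [hex f k h3, hex f k' h4, hex f (k * k') (mul_mem h3 h4)]
    exact hf ⟨k, h3⟩ ⟨k', h4⟩
  have hsk : ∀ (k : Γ) (h : (k : G) ∈ K), ∃ h' : ((s' * k * s'⁻¹ : Γ) : G) ∈ K,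
      (⟨((s' * k * s'⁻¹ : Γ) : G), h'⟩ : K) = αs^[m1] ⟨k, h⟩ := by
    intro k h
    have h3 : ((αs^[m1] ⟨k, h⟩ : K) : G) = ((s' * k * s'⁻¹ : Γ) : G) := by
      rw [hσ]
      rfl
    exact ⟨h3 ▸ (αs^[m1] ⟨k, h⟩ : K).2, Subtype.ext h3.symm⟩
  have htk : ∀ (k : Γ) (h : (k : G) ∈ K), ∃ h' : ((t' * k * t'⁻¹ : Γ) : G) ∈ K,
      (⟨((t' * k * t'⁻¹ : Γ) : G), h'⟩ : K) = αt^[m2] ⟨k, h⟩ := by
    intro k h
    have h3 : ((αt^[m2] ⟨k, h⟩ : K) : G) = ((t' * k * t'⁻¹ : Γ) : G) := by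
      rw [hτ]
      rfl
    exact ⟨h3 ▸ (αt^[m2] ⟨k, h⟩ : K).2, Subtype.ext h3.symm⟩
  have hsum : ∀ F : Γ → ℝ, ((c0.mapDomain ι).sum fun k x => x * F k) =
      c0.sum fun k x => x * F (ι k) := by
    intro F
    exact Finsupp.sum_mapDomain_index (fun _ => by simp) (fun _ _ _ => by ring)
  refine ⟨Γ, a, b, s', t', ex φ0, ex ψ0, c0.mapDomain ι, toAdd.injective hs1.1,
    toAdd.injective hs1.2, toAdd.injective ht1.1, toAdd.injective ht1.2, ?_, hexadd φ0 hφ0,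
    hexadd ψ0 hψ0, ?_, ?_, ?_, ?_⟩
  · -- finite generation
    obtain ⟨A0, hA0⟩ := hKfg
    have hA0K : ∀ x ∈ A0, x ∈ K := fun x hx => by
      rw [← hA0]
      exact Subgroup.subset_closure hx
    let E : Finset Γ := A0.attach.image
      (fun x : {x // x ∈ A0} => ι ⟨(x : G), hA0K x x.2⟩) ∪ {s'}
    refine ⟨E, le_antisymm ?_ ?_⟩
    · rw [Subgroup.closure_le]
      intro x hx
      rw [Finset.mem_coe, Finset.mem_union, Finset.mem_image, Finset.mem_singleton] at hx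
      rcases hx with ⟨y, -, rfl⟩ | rfl
      · exact (Subgroup.mem_inf.1 (hιk _)).2
      · exact toAdd.injective hs1.2
    · intro g hgb
      have h3 : g * s' ^ (-toAdd (a g)) ∈ a.ker ⊓ b.ker := by
        rw [Subgroup.mem_inf, MonoidHom.mem_ker, MonoidHom.mem_ker, map_mul, map_mul, map_zpow,
          map_zpow]
        have h4 : a s' = ofAdd 1 := toAdd.injective hs1.1
        have h5 : b s' = 1 := toAdd.injective hs1.2
        have h6 : b g = 1 := hgb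
        rw [h4, h5, h6]
        refine ⟨?_, by simp⟩
        apply toAdd.injective
        simp
      have h4 := (hker _).1 h3
      have h5 : K ≤ (Subgroup.closure (E : Set Γ)).map Γ.subtype := by
        rw [← hA0, Subgroup.closure_le]
        intro x hx
        refine ⟨ι ⟨x, hA0K x hx⟩, Subgroup.subset_closure ?_, rfl⟩
        rw [Finset.mem_coe, Finset.mem_union]
        exact Or.inl (Finset.mem_image.2 ⟨⟨x, hx⟩, Finset.mem_attach _ _, rfl⟩)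
      obtain ⟨y, hy, hyx⟩ := h5 h4
      have h6 : y = g * s' ^ (-toAdd (a g)) := Subtype.ext hyx
      have h7 : s' ∈ Subgroup.closure (E : Set Γ) := Subgroup.subset_closure (by
        rw [Finset.mem_coe, Finset.mem_union]
        exact Or.inr (Finset.mem_singleton_self _))
      have h8 : g = y * s' ^ (toAdd (a g)) := by
        rw [h6, zpow_neg]
        group
      rw [h8]
      exact mul_mem hy (zpow_mem h7 _)
  · intro k hk
    have h3 := (hker k).1 hk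
    obtain ⟨h4, h5⟩ := hsk k h3
    obtain ⟨h6, h7⟩ := htk k h3
    rw [hex φ0 _ h6, hex ψ0 _ h4, hex φ0 _ h3, hex ψ0 _ h3, h5, h7, ← hAa ψ0, ← hBa φ0,
      hBφ]
    rfl
  · intro k hk
    have h3 := Finsupp.mapDomain_support hk
    obtain ⟨x, -, rfl⟩ := Finset.mem_image.1 h3
    exact hιk x
  · intro χ hχ
    rw [hsum]
    have h3 : (fun k => χ (ι k)) ∈ addF K := by
      intro k k'
      have := hχ (ι k) (hιk k) (ι k') (hιk k')
      have h4 : ι (k * k') = ι k * ι k' := rfl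
      change χ (ι (k * k')) = _
      rw [h4]
      exact this
    rw [← hcχ _ h3]
    refine Finsupp.sum_congr fun k _ => ?_
    rw [hAa]
    congr 3
    apply Subtype.ext
    exact (hσ k).symm
  · rw [hsum]
    convert hcφ using 1
    refine Finsupp.sum_congr fun k _ => ?_
    rw [hex φ0 (ι k) k.2]

end Pool.Agent.Asd3
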