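import Pool.Agent.Asd3.Targets

/-!
# LAM: the explicit cocycle
-/

set_option autoImplicit false

namespace Pool.Agent.Asd3

open Finsupp

namespace Lam

/-- A primitive of a function on the integers. -/
noncomputable def prim (F : ℤ → ℝ) : ℤ → ℝ
  | Int.ofNat n => ∑ k ∈ Finset.range n, F k
  | Int.negSucc n => - ∑ k ∈ Finset.range (n + 1), F (Int.negSucc k)

theorem prim_zero (F : ℤ → ℝ) : prim F 0 = 0 := by
  change prim F (Int.ofNat 0) = 0
  simp [prim]

theorem prim_succ (F : ℤ → ℝ) (n : ℤ) : prim F (n + 1) = prim F n + F n := by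
  cases n with
  | ofNat n =>
    change prim F (Int.ofNat (n + 1)) = _
    simp [prim, Finset.sum_range_succ]
  | negSucc n =>
    cases n with
    | zero =>
      change prim F (Int.ofNat 0) = _
      simp [prim]
    | succ n =>
      have : Int.negSucc (n + 1) + 1 = Int.negSucc n := by omega
      rw [this]
      simp only [prim]
      rw [Finset.sum_range_succ _ (n + 1)]
      ring

/-- Signed sums. -/
noncomputable def SS (i j : ℤ) (F : ℤ → ℝ) : ℝ := prim F j - prim F i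

theorem SS_tel {F G : ℤ → ℝ} (h : ∀ n, G (n + 1) = G n + F n) (i j : ℤ) :
    SS i j F = G j - G i := by
  have key : ∀ n : ℤ, prim F n = G n - G 0 := by
    intro n
    induction n using Int.induction_on with
    | zero => rw [prim_zero, sub_self]
    | succ n ih => rw [prim_succ, ih, h]; ring
    | pred n ih =>
      have h1 := prim_succ F (-(n : ℤ) - 1)
      have h2 := h (-(n : ℤ) - 1)
      rw [sub_add_cancel] at h1 h2
      rw [ih] at h1
      linarith
  rw [SS, key, key]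
  ring

theorem SS_add (F G : ℤ → ℝ) (i j : ℤ) :
    SS i j (fun n => F n + G n) = SS i j F + SS i j G := by
  rw [SS_tel (G := fun n => prim F n + prim G n) (fun n => by rw [prim_succ, prim_succ]; ring)]
  simp only [SS]
  ring

theorem SS_sub (F G : ℤ → ℝ) (i j : ℤ) :
    SS i j (fun n => F n - G n) = SS i j F - SS i j G := by
  rw [SS_tel (G := fun n => prim F n - prim G n) (fun n => by rw [prim_succ, prim_succ]; ring)]
  simp only [SS]
  ring

theorem SS_shift (F : ℤ → ℝ) (i j d : ℤ) :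
    SS (i - d) (j - d) (fun n => F (n + d)) = SS i j F := by
  rw [SS_tel (G := fun n => prim F (n + d)) (fun n => by
    rw [show n + 1 + d = n + d + 1 by ring, prim_succ])]
  simp only [SS, sub_add_cancel]

section
variable {Γ : Type} [Group Γ] (a b : Γ →* Multiplicative ℤ) (s t : Γ)

/-- the exponent of `s` -/
def al (g : Γ) : ℤ := Multiplicative.toAdd (a g)

/-- the component in the kernel -/
def ka (g : Γ) : Γ := g * t ^ (-(al b g)) * s ^ (-(al a g))

theorem al_mul (g h : Γ) : al a (g * h) = al a g + al a h := by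
  simp [al, toAdd_mul]

theorem al_one : al a 1 = 0 := by simp [al]

theorem al_inv (g : Γ) : al a g⁻¹ = -al a g := by
  simp [al, toAdd_inv]

theorem al_zpow (g : Γ) (n : ℤ) : al a (g ^ n) = n * al a g := by
  simp [al, toAdd_zpow]

theorem mem_ker_iff (g : Γ) : g ∈ a.ker ↔ al a g = 0 := by
  rw [MonoidHom.mem_ker, al, ← toAdd_one (α := ℤ)]
  exact ⟨fun h => congrArg _ h, fun h => Multiplicative.toAdd.injective h⟩

theorem mem_K_iff (g : Γ) : g ∈ a.ker ⊓ b.ker ↔ al a g = 0 ∧ al b g = 0 := by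
  rw [Subgroup.mem_inf, mem_ker_iff, mem_ker_iff]

/-- the hypotheses on `s` and `t` -/
structure Dat : Prop where
  has : al a s = 1
  hbs : al b s = 0
  hat : al a t = 0
  hbt : al b t = 1

variable {a b s t}

theorem ka_mem (D : Dat a b s t) (g : Γ) : ka a b s t g ∈ a.ker ⊓ b.ker := by
  rw [mem_K_iff]
  simp only [ka, al_mul, al_zpow, D.has, D.hbs, D.hat, D.hbt]
  constructor <;> ring

theorem ka_K {k : Γ} (hk : k ∈ a.ker ⊓ b.ker) (g : Γ) : ka a b s t (k * g) = k * ka a b s t g := by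
  rw [mem_K_iff] at hk
  simp only [ka, al_mul, hk.1, hk.2, zero_add, mul_assoc]

theorem ka_of_mem {k : Γ} (hk : k ∈ a.ker ⊓ b.ker) : ka a b s t k = k := by
  rw [mem_K_iff] at hk
  simp [ka, hk.1, hk.2]

theorem ka_s (D : Dat a b s t) (g : Γ) : ka a b s t (s * g) = s * ka a b s t g * s⁻¹ := by
  simp only [ka, al_mul, D.has, D.hbs, zero_add, mul_assoc]
  congr 3
  rw [neg_add, zpow_add, zpow_neg_one]
  have := (Commute.refl s).inv_left.zpow_right (-(al a g))
  rw [this.eq]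

/-- the commutator of `t` and `s ^ i` -/
def dd (s t : Γ) (i : ℤ) : Γ := t * s ^ i * t⁻¹ * (s ^ i)⁻¹

theorem dd_mem (D : Dat a b s t) (i : ℤ) : dd s t i ∈ a.ker ⊓ b.ker := by
  rw [mem_K_iff]
  simp only [dd, al_mul, al_inv, al_zpow, D.hat, D.has, D.hbs]
  constructor <;> ring

theorem ka_t (D : Dat a b s t) (g : Γ) :
    ka a b s t (t * g) = t * ka a b s t g * t⁻¹ * dd s t (al a g) := by
  simp only [ka, dd, al_mul, D.hat, D.hbt, zero_add, neg_add, zpow_add, zpow_neg, zpow_one]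
  have h1 : Commute t⁻¹ (t ^ al b g)⁻¹ := ((Commute.refl t).zpow_right _).inv_inv
  have h2 : t⁻¹ * (t ^ al b g)⁻¹ = (t ^ al b g)⁻¹ * t⁻¹ := h1.eq
  rw [h2]
  simp [mul_assoc]

/-- additive on `K` -/
def AddK (a b : Γ →* Multiplicative ℤ) (f : Γ → ℝ) : Prop :=
  ∀ k ∈ a.ker ⊓ b.ker, ∀ k' ∈ a.ker ⊓ b.ker, f (k * k') = f k + f k'

theorem AddK.inv {f : Γ → ℝ} (hf : AddK a b f) {k : Γ} (hk : k ∈ a.ker ⊓ b.ker) :
    f k⁻¹ = - f k := by
  have h1 := hf 1 (one_mem _) 1 (one_mem _)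
  have h2 := hf k hk k⁻¹ (inv_mem hk)
  rw [mul_one] at h1
  rw [mul_inv_cancel] at h2
  linarith

/-- the difference of the values of `f` -/
def FF (a b : Γ →* Multiplicative ℤ) (s t : Γ) (f : Γ → ℝ) (x y : Γ) : ℝ :=
  f ((ka a b s t x)⁻¹ * ka a b s t y)

theorem FF_K {f : Γ → ℝ} {k : Γ} (hk : k ∈ a.ker ⊓ b.ker) (x y : Γ) :
    FF a b s t f (k * x) (k * y) = FF a b s t f x y := by
  simp only [FF, ka_K hk, mul_inv_rev, mul_assoc, inv_mul_cancel_left]

theorem FF_K' {f : Γ → ℝ} {k x x' y y' : Γ} (hk : k ∈ a.ker ⊓ b.ker) (hx : x' = k * x)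
    (hy : y' = k * y) : FF a b s t f x' y' = FF a b s t f x y := by
  rw [hx, hy, FF_K hk]

theorem FF_add {f : Γ → ℝ} (D : Dat a b s t) (hf : AddK a b f) (x y z : Γ) :
    FF a b s t f x y + FF a b s t f y z = FF a b s t f x z := by
  simp only [FF]
  rw [← hf _ (mul_mem (inv_mem (ka_mem D x)) (ka_mem D y)) _
    (mul_mem (inv_mem (ka_mem D y)) (ka_mem D z))]
  congr 1
  group

theorem FF_s {f : Γ → ℝ} (D : Dat a b s t) (x y : Γ) :
    FF a b s t f (s * x) (s * y) = FF a b s t (fun k => f (s * k * s⁻¹)) x y := by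
  simp only [FF, ka_s D]
  congr 1
  group

theorem conj_mem {k : Γ} (hk : k ∈ a.ker ⊓ b.ker) (g : Γ) : g * k * g⁻¹ ∈ a.ker ⊓ b.ker := by
  rw [mem_K_iff] at hk ⊢
  simp only [al_mul, al_inv, hk.1, hk.2]
  constructor <;> ring

theorem FF_t {f : Γ → ℝ} (D : Dat a b s t) (hf : AddK a b f) (x y : Γ) :
    FF a b s t f (t * x) (t * y) = FF a b s t (fun k => f (t * k * t⁻¹)) x y +
      f (dd s t (al a y)) - f (dd s t (al a x)) := by
  simp only [FF, ka_t D]
  have h1 : (t * ka a b s t x * t⁻¹ * dd s t (al a x))⁻¹ *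
      (t * ka a b s t y * t⁻¹ * dd s t (al a y)) =
      (dd s t (al a x))⁻¹ * ((t * ((ka a b s t x)⁻¹ * ka a b s t y) * t⁻¹) *
        dd s t (al a y)) := by
    simp [mul_assoc]
  have hm := conj_mem (mul_mem (inv_mem (ka_mem D x)) (ka_mem D y)) t
  rw [h1, hf _ (inv_mem (dd_mem D _)) _ (mul_mem hm (dd_mem D _)), hf _ hm _ (dd_mem D _),
    hf.inv (dd_mem D _)]
  ring

theorem FF_zero {f : Γ → ℝ} (D : Dat a b s t) (hf : AddK a b f) (x : Γ) :
    FF a b s t f x x = 0 := by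
  have := FF_add D hf x x x
  linarith

/-- the key formula for the action of `t` -/
theorem FF_key {φ ψ : Γ → ℝ} (D : Dat a b s t) (hφ : AddK a b φ)
    (hrel : ∀ k ∈ a.ker ⊓ b.ker, φ (t * k * t⁻¹) = φ k + ψ (s * k * s⁻¹) - ψ k) (n : ℤ)
    (x y : Γ) :
    FF a b s t φ (s ^ n * (t * x)) (s ^ n * (t * y)) =
      FF a b s t φ (s ^ n * x) (s ^ n * y) +
      (FF a b s t ψ (s ^ (n + 1) * x) (s ^ (n + 1) * y) -
        FF a b s t ψ (s ^ n * x) (s ^ n * y)) +
      (φ (dd s t (n + al a y)) - φ (dd s t (n + al a x))) := by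
  have hk : s ^ n * t * (s ^ n)⁻¹ * t⁻¹ ∈ a.ker ⊓ b.ker := by
    rw [mem_K_iff]
    simp only [al_mul, al_inv, al_zpow, D.has, D.hbs, D.hat, D.hbt]
    constructor <;> ring
  have h1 : ∀ z : Γ, s ^ n * (t * z) = (s ^ n * t * (s ^ n)⁻¹ * t⁻¹) * (t * (s ^ n * z)) := by
    intro z; simp [mul_assoc]
  rw [FF_K' hk (h1 x) (h1 y), FF_t D hφ]
  have h2 : FF a b s t (fun k => φ (t * k * t⁻¹)) (s ^ n * x) (s ^ n * y) =
      FF a b s t φ (s ^ n * x) (s ^ n * y) +
      (FF a b s t (fun k => ψ (s * k * s⁻¹)) (s ^ n * x) (s ^ n * y) -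
        FF a b s t ψ (s ^ n * x) (s ^ n * y)) := by
    simp only [FF]
    rw [hrel _ (mul_mem (inv_mem (ka_mem D _)) (ka_mem D _))]
    ring
  have h3 : FF a b s t ψ (s ^ (n + 1) * x) (s ^ (n + 1) * y) =
      FF a b s t (fun k => ψ (s * k * s⁻¹)) (s ^ n * x) (s ^ n * y) := by
    rw [← FF_s D, ← mul_assoc, ← mul_assoc, ← zpow_one_add, add_comm]
  rw [h2, h3]
  simp only [al_mul, al_zpow, D.has, mul_one]
  ring

/-- functionals on chains of dimension two -/
noncomputable def L3 (F : Γ → Γ → Γ → ℝ) : Ch Γ ℝ 3 →ₗ[ℝ] ℝ :=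
  Finsupp.linearCombination ℝ fun σ => F (σ 0) (σ 1) (σ 2)

/-- functionals on chains of dimension one -/
noncomputable def L2 (F : Γ → Γ → ℝ) : Ch Γ ℝ 2 →ₗ[ℝ] ℝ :=
  Finsupp.linearCombination ℝ fun σ => F (σ 0) (σ 1)

theorem L3_single (F : Γ → Γ → Γ → ℝ) (σ : Fin 3 → Γ) (x : ℝ) :
    L3 F (single σ x) = x * F (σ 0) (σ 1) (σ 2) := by
  simp [L3]

theorem L2_single (F : Γ → Γ → ℝ) (σ : Fin 2 → Γ) (x : ℝ) :
    L2 F (single σ x) = x * F (σ 0) (σ 1) := by
  simp [L2]

theorem bd_single3 (σ : Fin 4 → Γ) (x : ℝ) :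
    (bd (single σ x) : Ch Γ ℝ 3) = single ![σ 1, σ 2, σ 3] x - single ![σ 0, σ 2, σ 3] x +
      single ![σ 0, σ 1, σ 3] x - single ![σ 0, σ 1, σ 2] x := by
  have e0 : (fun j : Fin 3 => σ ((0 : Fin 4).succAbove j)) = ![σ 1, σ 2, σ 3] := by
    funext j; fin_cases j <;> rfl
  have e1 : (fun j : Fin 3 => σ ((1 : Fin 4).succAbove j)) = ![σ 0, σ 2, σ 3] := by
    funext j; fin_cases j <;> rfl
  have e2 : (fun j : Fin 3 => σ ((2 : Fin 4).succAbove j)) = ![σ 0, σ 1, σ 3] := by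
    funext j; fin_cases j <;> rfl
  have e3 : (fun j : Fin 3 => σ ((3 : Fin 4).succAbove j)) = ![σ 0, σ 1, σ 2] := by
    funext j; fin_cases j <;> rfl
  simp only [bd, Finsupp.lsum_single, LinearMap.sum_apply, LinearMap.smul_apply,
    Finsupp.lsingle_apply]
  rw [Fin.sum_univ_four, e0, e1, e2, e3]
  simp only [Fin.val_zero, pow_zero, one_smul, Fin.val_one, pow_one, Fin.val_two, neg_smul]
  norm_num
  abel

theorem bd_single2 (σ : Fin 3 → Γ) (x : ℝ) :
    (bd (single σ x) : Ch Γ ℝ 2) = single ![σ 1, σ 2] x - single ![σ 0, σ 2] x +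
      single ![σ 0, σ 1] x := by
  have e0 : (fun j : Fin 2 => σ ((0 : Fin 3).succAbove j)) = ![σ 1, σ 2] := by
    funext j; fin_cases j <;> rfl
  have e1 : (fun j : Fin 2 => σ ((1 : Fin 3).succAbove j)) = ![σ 0, σ 2] := by
    funext j; fin_cases j <;> rfl
  have e2 : (fun j : Fin 2 => σ ((2 : Fin 3).succAbove j)) = ![σ 0, σ 1] := by
    funext j; fin_cases j <;> rfl
  simp only [bd, Finsupp.lsum_single, LinearMap.sum_apply, LinearMap.smul_apply,
    Finsupp.lsingle_apply]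
  rw [Fin.sum_univ_three, e0, e1, e2]
  simp only [Fin.val_zero, pow_zero, one_smul, Fin.val_one, pow_one, Fin.val_two, neg_smul]
  norm_num
  abel

theorem L3_bd (F : Γ → Γ → Γ → ℝ) (σ : Fin 4 → Γ) (x : ℝ) :
    L3 F (bd (single σ x)) = x * (F (σ 1) (σ 2) (σ 3) - F (σ 0) (σ 2) (σ 3) +
      F (σ 0) (σ 1) (σ 3) - F (σ 0) (σ 1) (σ 2)) := by
  rw [bd_single3, map_sub, map_add, map_sub, L3_single, L3_single, L3_single, L3_single]
  simp
  ring

theorem L2_bd (F : Γ → Γ → ℝ) (σ : Fin 3 → Γ) (x : ℝ) :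
    L2 F (bd (single σ x)) = x * (F (σ 1) (σ 2) - F (σ 0) (σ 2) + F (σ 0) (σ 1)) := by
  rw [bd_single2, map_add, map_sub, L2_single, L2_single, L2_single]
  simp
  ring

theorem L_aug {n : ℕ} (L : Ch Γ ℝ n →ₗ[ℝ] ℝ) (H : Subgroup Γ)
    (h : ∀ g ∈ H, ∀ σ x, L (cR Γ n g (single σ x)) = L (single σ x)) :
    ∀ z ∈ aug (cR Γ n) H, L z = 0 := by
  intro z hz
  have h2 : ∀ g ∈ H, ∀ d, L (cR Γ n g d) = L d := by
    intro g hg d
    have : L ∘ₗ (cR Γ n g) = L := by
      ext σ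
      simpa using h g hg σ 1
    exact congrArg (fun M : Ch Γ ℝ n →ₗ[ℝ] ℝ => M d) this
  have h3 : aug (cR Γ n) H ≤ LinearMap.ker L := by
    refine Submodule.span_le.mpr ?_
    rintro _ ⟨g, hg, d, rfl⟩
    simp [h2 g hg d]
  exact h3 hz

/-- elements of the kernel of `b` -/
theorem ker_b (D : Dat a b s t) {g : Γ} (hg : g ∈ b.ker) :
    ∃ k ∈ a.ker ⊓ b.ker, ∃ i : ℤ, g = k * s ^ i := by
  refine ⟨ka a b s t g, ka_mem D g, al a g, ?_⟩
  rw [mem_ker_iff] at hg
  simp [ka, hg]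

/-- invariance under the kernel of `b` of a functional on `Ch 2` -/
theorem inv2 (D : Dat a b s t) (F : Γ → Γ → ℝ) (hK : ∀ k ∈ a.ker ⊓ b.ker, ∀ x y,
    F (k * x) (k * y) = F x y) (hs : ∀ i : ℤ, ∀ x y, F (s ^ i * x) (s ^ i * y) = F x y) :
    ∀ z ∈ aug (cR Γ 2) b.ker, L2 F z = 0 := by
  refine L_aug _ _ ?_
  intro g hg σ x
  obtain ⟨k, hk, i, rfl⟩ := ker_b D hg
  rw [cR_single, L2_single, L2_single, mul_assoc, mul_assoc, hK k hk, hs]

theorem inv3 (D : Dat a b s t) (F : Γ → Γ → Γ → ℝ) (hK : ∀ k ∈ a.ker ⊓ b.ker, ∀ x y z,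
    F (k * x) (k * y) (k * z) = F x y z)
    (hs : ∀ i : ℤ, ∀ x y z, F (s ^ i * x) (s ^ i * y) (s ^ i * z) = F x y z) :
    ∀ z ∈ aug (cR Γ 3) b.ker, L3 F z = 0 := by
  refine L_aug _ _ ?_
  intro g hg σ x
  obtain ⟨k, hk, i, rfl⟩ := ker_b D hg
  rw [cR_single, L3_single, L3_single, mul_assoc, mul_assoc, mul_assoc, hK k hk, hs]

theorem FF_sK {f : Γ → ℝ} {k : Γ} (hk : k ∈ a.ker ⊓ b.ker) (n : ℤ) (x y : Γ) :
    FF a b s t f (s ^ n * (k * x)) (s ^ n * (k * y)) = FF a b s t f (s ^ n * x) (s ^ n * y) := by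
  refine FF_K' (conj_mem hk (s ^ n)) ?_ ?_ <;> simp [mul_assoc]

theorem al_K {k : Γ} (hk : k ∈ a.ker ⊓ b.ker) (x : Γ) : al a (k * x) = al a x := by
  rw [mem_K_iff] at hk
  rw [al_mul, hk.1, zero_add]

theorem al_s (D : Dat a b s t) (i : ℤ) (x : Γ) : al a (s ^ i * x) = i + al a x := by
  rw [al_mul, al_zpow, D.has, mul_one]

/-- the cocycle -/
noncomputable def lam (a b : Γ →* Multiplicative ℤ) (s t : Γ) (φ : Γ → ℝ) (x y z : Γ) : ℝ :=
  SS (-al a x) (-al a y) fun n => FF a b s t φ (s ^ n * y) (s ^ n * z)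

theorem lam_K {φ : Γ → ℝ} {k : Γ} (hk : k ∈ a.ker ⊓ b.ker) (x y z : Γ) :
    lam a b s t φ (k * x) (k * y) (k * z) = lam a b s t φ x y z := by
  simp only [lam, al_K hk, FF_sK hk]

theorem lam_s {φ : Γ → ℝ} (D : Dat a b s t) (i : ℤ) (x y z : Γ) :
    lam a b s t φ (s ^ i * x) (s ^ i * y) (s ^ i * z) = lam a b s t φ x y z := by
  simp only [lam, al_s D]
  rw [← SS_shift _ (-al a x) (-al a y) i]
  congr 1
  · ring
  · ring
  · funext n
    rw [zpow_add, mul_assoc, mul_assoc]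

theorem lam_bd {φ : Γ → ℝ} (D : Dat a b s t) (hφ : AddK a b φ) (w : Ch Γ ℝ 4) :
    L3 (lam a b s t φ) (bd w) = 0 := by
  have : (L3 (lam a b s t φ)) ∘ₗ (bd : Ch Γ ℝ 4 →ₗ[ℝ] Ch Γ ℝ 3) = 0 := by
    ext σ
    simp only [LinearMap.comp_apply, Finsupp.lsingle_apply, LinearMap.zero_apply, L3_bd]
    simp only [lam, one_mul]
    have h1 : SS (-al a (σ 0)) (-al a (σ 1)) (fun n => FF a b s t φ (s ^ n * σ 1) (s ^ n * σ 3)) =
        SS (-al a (σ 0)) (-al a (σ 1)) (fun n => FF a b s t φ (s ^ n * σ 1) (s ^ n * σ 2)) +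
        SS (-al a (σ 0)) (-al a (σ 1)) (fun n => FF a b s t φ (s ^ n * σ 2) (s ^ n * σ 3)) := by
      rw [← SS_add]
      congr 1
      funext n
      rw [FF_add D hφ]
    rw [h1]
    simp only [SS]
    ring
  exact congrArg (fun M : Ch Γ ℝ 4 →ₗ[ℝ] ℝ => M w) this

/-- the first correction -/
noncomputable def be2 (a b : Γ →* Multiplicative ℤ) (s t : Γ) (ψ : Γ → ℝ) (x y : Γ) : ℝ :=
  FF a b s t ψ (s ^ (-al a x) * x) (s ^ (-al a x) * y)

/-- the second correction -/
noncomputable def be3 (a : Γ →* Multiplicative ℤ) (s t : Γ) (φ : Γ → ℝ) (x y : Γ) : ℝ :=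
  SS (-al a x) (-al a y) fun n => φ (dd s t (n + al a y))

theorem lam_t {φ ψ : Γ → ℝ} (D : Dat a b s t) (hφ : AddK a b φ) (hψ : AddK a b ψ)
    (hrel : ∀ k ∈ a.ker ⊓ b.ker, φ (t * k * t⁻¹) = φ k + ψ (s * k * s⁻¹) - ψ k) (x y z : Γ) :
    lam a b s t φ (t * x) (t * y) (t * z) = lam a b s t φ x y z +
      (be2 a b s t ψ y z - be2 a b s t ψ x z + be2 a b s t ψ x y) -
      (be3 a s t φ y z - be3 a s t φ x z + be3 a s t φ x y) := by
  have hal : ∀ g, al a (t * g) = al a g := fun g => by rw [al_mul, D.hat, zero_add]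
  simp only [lam, hal]
  have e1 : (fun n : ℤ => FF a b s t φ (s ^ n * (t * y)) (s ^ n * (t * z))) = fun n =>
      (FF a b s t φ (s ^ n * y) (s ^ n * z) +
      (FF a b s t ψ (s ^ (n + 1) * y) (s ^ (n + 1) * z) -
        FF a b s t ψ (s ^ n * y) (s ^ n * z))) +
      (φ (dd s t (n + al a z)) - φ (dd s t (n + al a y))) := by
    funext n
    exact FF_key D hφ hrel n y z
  rw [e1, SS_add, SS_add, SS_sub (fun n => φ (dd s t (n + al a z)))]
  have e2 : SS (-al a x) (-al a y) (fun n => FF a b s t ψ (s ^ (n + 1) * y) (s ^ (n + 1) * z) -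
        FF a b s t ψ (s ^ n * y) (s ^ n * z)) =
      FF a b s t ψ (s ^ (-al a y) * y) (s ^ (-al a y) * z) -
      FF a b s t ψ (s ^ (-al a x) * y) (s ^ (-al a x) * z) := by
    rw [SS_tel (G := fun n => FF a b s t ψ (s ^ n * y) (s ^ n * z)) (fun n => by ring)]
  have e3 := FF_add D hψ (s ^ (-al a x) * x) (s ^ (-al a x) * y) (s ^ (-al a x) * z)
  rw [e2]
  simp only [be2, be3, SS] at *
  linarith

theorem be2_inv {ψ : Γ → ℝ} (D : Dat a b s t) :
    ∀ z ∈ aug (cR Γ 2) b.ker, L2 (be2 a b s t ψ) z = 0 := by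
  refine inv2 D _ ?_ ?_
  · intro k hk x y
    simp only [be2, al_K hk, FF_sK hk]
  · intro i x y
    simp only [be2, al_s D]
    congr 1 <;>
    · rw [← mul_assoc, ← zpow_add]
      congr 2
      ring

theorem be3_inv {φ : Γ → ℝ} (D : Dat a b s t) :
    ∀ z ∈ aug (cR Γ 2) b.ker, L2 (be3 a s t φ) z = 0 := by
  refine inv2 D _ ?_ ?_
  · intro k hk x y
    simp only [be3, al_K hk]
  · intro i x y
    simp only [be3, al_s D]
    rw [← SS_shift _ (-al a x) (-al a y) i]
    congr 1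
    · ring
    · ring
    · funext n
      congr 2
      ring

/-- the primitive over the kernel of `a` -/
noncomputable def th (a b : Γ →* Multiplicative ℤ) (s t : Γ) (φ : Γ → ℝ) (x y : Γ) : ℝ :=
  SS (-al a x) 0 fun n => FF a b s t φ (s ^ n * x) (s ^ n * y)

theorem lam_eq_th {φ : Γ → ℝ} (D : Dat a b s t) (hφ : AddK a b φ) (u : Ch Γ ℝ 3) :
    L3 (lam a b s t φ) u = - L2 (th a b s t φ) (bd u) := by
  have : L3 (lam a b s t φ) = -((L2 (th a b s t φ)) ∘ₗ (bd : Ch Γ ℝ 3 →ₗ[ℝ] Ch Γ ℝ 2)) := by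
    ext σ
    simp only [LinearMap.comp_apply, Finsupp.lsingle_apply, LinearMap.neg_apply, L2_bd, L3_single]
    simp only [lam, th, one_mul]
    have h1 : SS (-al a (σ 0)) 0 (fun n => FF a b s t φ (s ^ n * σ 0) (s ^ n * σ 2)) =
        SS (-al a (σ 0)) 0 (fun n => FF a b s t φ (s ^ n * σ 0) (s ^ n * σ 1)) +
        SS (-al a (σ 0)) 0 (fun n => FF a b s t φ (s ^ n * σ 1) (s ^ n * σ 2)) := by
      rw [← SS_add]
      congr 1
      funext n
      rw [FF_add D hφ]
    rw [h1]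
    simp only [SS]
    ring
  exact congrArg (fun M : Ch Γ ℝ 3 →ₗ[ℝ] ℝ => M u) this

theorem th_K {φ : Γ → ℝ} {k : Γ} (hk : k ∈ a.ker ⊓ b.ker) (x y : Γ) :
    th a b s t φ (k * x) (k * y) = th a b s t φ x y := by
  simp only [th, al_K hk, FF_sK hk]

theorem th_s {φ : Γ → ℝ} (D : Dat a b s t) (x y : Γ) :
    th a b s t φ (s * x) (s * y) = th a b s t φ x y + FF a b s t φ x y := by
  have h0 : al a (s * x) = 1 + al a x := by rw [al_mul, D.has]
  have h1 : SS (-(1 + al a x)) 0 (fun n => FF a b s t φ (s ^ n * (s * x)) (s ^ n * (s * y))) =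
      SS (-al a x) 1 (fun n => FF a b s t φ (s ^ n * x) (s ^ n * y)) := by
    rw [← SS_shift _ (-al a x) 1 1]
    congr 1
    · ring
    · funext n
      rw [zpow_add, zpow_one, mul_assoc, mul_assoc]
  have h2 := prim_succ (fun n => FF a b s t φ (s ^ n * x) (s ^ n * y)) 0
  simp only [zero_add, zpow_zero, one_mul] at h2
  simp only [th, h0, h1]
  simp only [SS]
  rw [h2]
  ring

end

end Lam

open Lam

theorem p_LAM : T_LAM := by
  intro Γ _ a b s t φ ψ c has hbs hat hbt hφ hψ hrel hc hχ hne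
  have D : Dat a b s t := ⟨by rw [al, has]; rfl, by rw [al, hbs]; rfl, by rw [al, hat]; rfl,
    by rw [al, hbt]; rfl⟩
  have hsb : s ∈ b.ker := by rw [MonoidHom.mem_ker, hbs]
  refine ⟨L3 (lam a b s t φ), lam_bd D hφ, inv3 D _ (fun k hk x y z => lam_K hk x y z)
    (fun i x y z => lam_s D i x y z), ?_, ?_⟩
  · -- invariance under `t`
    intro u hu
    have h1 : (L3 (lam a b s t φ)) ∘ₗ (cR Γ 3 t) = L3 (lam a b s t φ) +
        (L2 (be2 a b s t ψ)) ∘ₗ (bd : Ch Γ ℝ 3 →ₗ[ℝ] Ch Γ ℝ 2) -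
        (L2 (be3 a s t φ)) ∘ₗ (bd : Ch Γ ℝ 3 →ₗ[ℝ] Ch Γ ℝ 2) := by
      ext σ
      simp only [LinearMap.comp_apply, Finsupp.lsingle_apply, LinearMap.add_apply,
        LinearMap.sub_apply, L2_bd, L3_single, cR_single, lam_t D hφ hψ hrel]
      ring
    have h2 := congrArg (fun M : Ch Γ ℝ 3 →ₗ[ℝ] ℝ => M u) h1
    simp only [LinearMap.comp_apply, LinearMap.add_apply, LinearMap.sub_apply, be2_inv D _ hu,
      be3_inv D _ hu, add_zero, sub_zero] at h2
    exact h2
  · -- nontriviality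
    set e : Ch Γ ℝ 2 := c.sum fun k x => single ![1, k] x with he
    have key : cR Γ 2 s e - e ∈
        LinearMap.range (bd : Ch Γ ℝ 3 →ₗ[ℝ] Ch Γ ℝ 2) ⊔ aug (cR Γ 2) (a.ker ⊓ b.ker) := by
      by_contra hcon
      obtain ⟨B, hB1, hB2⟩ := Submodule.exists_le_ker_of_notMem hcon
      have hbd : ∀ u : Ch Γ ℝ 3, B (bd u) = 0 := fun u =>
        hB2 (Submodule.mem_sup_left ⟨u, rfl⟩)
      have hau : ∀ k ∈ a.ker ⊓ b.ker, ∀ d : Ch Γ ℝ 2, B (cR Γ 2 k d) = B d := by
        intro k hk d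
        have : B (cR Γ 2 k d - d) = 0 :=
          hB2 (Submodule.mem_sup_right (Submodule.subset_span ⟨k, hk, d, rfl⟩))
        rwa [map_sub, sub_eq_zero] at this
      -- values on edges
      set β : Γ → Γ → ℝ := fun x y => B (single ![x, y] 1) with hβ
      have hcoc : ∀ x y z, β x z = β x y + β y z := by
        intro x y z
        have h1 := hbd (single ![x, y, z] 1)
        rw [bd_single2, map_add, map_sub] at h1
        simp only [Matrix.cons_val_zero, Matrix.cons_val_one, Matrix.cons_val_two,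
          Matrix.head_cons, Matrix.tail_cons, Matrix.cons_val] at h1
        simp only [hβ]
        linarith
      have hinv : ∀ k ∈ a.ker ⊓ b.ker, ∀ x y, β (k * x) (k * y) = β x y := by
        intro k hk x y
        have h1 := hau k hk (single ![x, y] 1)
        rw [cR_single] at h1
        have h2 : (fun i => k * (![x, y] : Fin 2 → Γ) i) = ![k * x, k * y] := by
          funext i; fin_cases i <;> rfl
        rw [h2] at h1
        exact h1
      have hχadd : ∀ k ∈ a.ker ⊓ b.ker, ∀ k' ∈ a.ker ⊓ b.ker,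
          β 1 (k * k') = β 1 k + β 1 k' := by
        intro k hk k' _
        rw [hcoc 1 k (k * k')]
        have := hinv k hk 1 k'
        rw [mul_one] at this
        rw [this]
      have h0 := hχ (fun k => β 1 k) hχadd
      refine hB1 ?_
      have h1 : B (cR Γ 2 s e - e) = c.sum fun k x => x * (β 1 (s * k * s⁻¹) - β 1 k) := by
        rw [map_sub, he, map_finsuppSum, map_finsuppSum, map_finsuppSum, Finsupp.sum, Finsupp.sum,
          Finsupp.sum, ← Finset.sum_sub_distrib]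
        refine Finset.sum_congr rfl fun k hk => ?_
        have hkK := hc k hk
        have hx := conj_mem hkK s
        have e1 : single ![(1 : Γ), k] (c k) = (c k) • single ![(1 : Γ), k] (1 : ℝ) := by
          rw [Finsupp.smul_single, smul_eq_mul, mul_one]
        have e2 : B (cR Γ 2 s (single ![(1 : Γ), k] 1)) = β s (s * k) := by
          rw [cR_single]
          have h2 : (fun i => s * (![1, k] : Fin 2 → Γ) i) = ![s, s * k] := by
            funext i; fin_cases i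
            · simp
            · rfl
          rw [h2]
        have e3 : β s (s * k) = β 1 (s * k * s⁻¹) := by
          have g1 := hinv _ hx 1 s
          rw [mul_one, inv_mul_cancel_right] at g1
          have g2 := hcoc s 1 (s * k)
          have g3 := hcoc 1 (s * k * s⁻¹) (s * k)
          have g4 := hcoc s 1 s
          have g5 := hcoc s s s
          linarith
        rw [e1, map_smul, map_smul, map_smul, e2, e3]
        simp only [smul_eq_mul, hβ]
        ring
      rw [h1]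
      exact h0
    obtain ⟨w, ⟨u, rfl⟩, z, hz, hwz⟩ := Submodule.mem_sup.mp key
    have hKb : aug (cR Γ 2) (a.ker ⊓ b.ker) ≤ aug (cR Γ 2) b.ker := by
      refine Submodule.span_mono ?_
      rintro _ ⟨g, hg, d, rfl⟩
      exact ⟨g, hg.2, d, rfl⟩
    have hub : bd u = (cR Γ 2 s e - e) - z := by rw [← hwz, add_sub_cancel_right]
    refine ⟨u, ?_, ?_⟩
    · rw [hub]
      refine Submodule.sub_mem _ (Submodule.subset_span ⟨s, hsb, e, rfl⟩) (hKb hz)
    · rw [lam_eq_th D hφ, hub, map_sub, map_sub]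
      have h1 : L2 (th a b s t φ) z = 0 := by
        refine L_aug _ _ ?_ z hz
        intro g hg σ x
        rw [cR_single, L2_single, L2_single, th_K hg]
      have h2 : L2 (th a b s t φ) (cR Γ 2 s e) - L2 (th a b s t φ) e = c.sum fun k x => x * φ k := by
        rw [he, map_finsuppSum, map_finsuppSum, map_finsuppSum, Finsupp.sum, Finsupp.sum,
          ← Finset.sum_sub_distrib]
        refine Finset.sum_congr rfl fun k hk => ?_
        have hkK := hc k hk
        rw [cR_single, L2_single, L2_single]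
        simp only [Matrix.cons_val_zero, Matrix.cons_val_one]
        rw [th_s D]
        have h3 : FF a b s t φ 1 k = φ k := by
          rw [FF, ka_of_mem (one_mem _), ka_of_mem hkK, inv_one, one_mul]
        rw [h3]
        ring
      rw [h1, h2]
      simpa using hne

end Pool.Agent.Asd3
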