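import Pool.Agent.Asd3.Targets

/-!
# The rank of the kernel of `ℝ[Γ]^m → ℝ[Γ]` in groups of subexponential growth
-/

set_option autoImplicit false

namespace Pool.Agent.Asd3

open scoped BigOperators Pointwise

section
variable {Γ : Type} [Group Γ]

/-- `1 - s` is not a zero divisor if `s` has infinite order. -/
theorem mul_of_sub_one {s : Γ} (hs : ¬ IsOfFinOrder s) (v : MonoidAlgebra ℝ Γ)
    (h : v * (MonoidAlgebra.of ℝ Γ s - 1) = 0) : v = 0 := by
  have h1 : v * MonoidAlgebra.single s 1 = v := by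
    have := h
    rw [mul_sub, mul_one, sub_eq_zero] at this
    simpa [MonoidAlgebra.of_apply] using this
  have h2 : ∀ g, v.coeff (g * s⁻¹) = v.coeff g := by
    intro g
    have := congrArg (fun w : MonoidAlgebra ℝ Γ => w.coeff g) h1
    simpa [MonoidAlgebra.coeff_mul_single_apply] using this
  have h3 : ∀ (n : ℕ) g, v.coeff (g * s⁻¹ ^ n) = v.coeff g := by
    intro n
    induction n with
    | zero => intro g; simp
    | succ n ih =>
      intro g
      rw [pow_succ, ← mul_assoc, h2, ih]
  by_contra hv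
  obtain ⟨g, hg⟩ : ∃ g, v.coeff g ≠ 0 := by
    by_contra hcon
    push Not at hcon
    apply hv
    ext g
    simpa using hcon g
  have hinj : Function.Injective fun n : ℕ => g * s⁻¹ ^ n := by
    intro a b hab
    have h4 : s⁻¹ ^ a = s⁻¹ ^ b := mul_left_cancel hab
    have h5 : ¬ IsOfFinOrder s⁻¹ := by rwa [isOfFinOrder_inv_iff]
    exact injective_pow_iff_not_isOfFinOrder.2 h5 h4
  have hfin : (Set.range fun n : ℕ => g * s⁻¹ ^ n) ⊆ (v.coeff.support : Set Γ) := by
    rintro _ ⟨n, rfl⟩
    simp only [Finset.mem_coe, Finsupp.mem_support_iff]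
    rw [h3]
    exact hg
  exact Set.infinite_range_of_injective hinj ((Finset.finite_toSet _).subset hfin)

/-- The dimension count. -/
theorem card_le (B B' : Finset Γ) {p m : ℕ} (R : Fin p → Fin m → MonoidAlgebra ℝ Γ)
    (hR : ∀ v : Fin p → MonoidAlgebra ℝ Γ, (∀ j, ∑ i, v i * R i j = 0) → v = 0)
    (hB : ∀ g ∈ B, ∀ i j, ∀ h ∈ (R i j).coeff.support, g * h ∈ B') :
    p * B.card ≤ m * B'.card := by
  classical
  let V : (Fin p × B → ℝ) →ₗ[ℝ] (Fin p → MonoidAlgebra ℝ Γ) :=
    { toFun := fun a i => ∑ g : B, MonoidAlgebra.single (g : Γ) (a (i, g))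
      map_add' := by
        intro a b
        funext i
        simp [MonoidAlgebra.single_add, Finset.sum_add_distrib]
      map_smul' := by
        intro c a
        funext i
        simp [Finset.smul_sum, MonoidAlgebra.smul_single] }
  have hVc : ∀ a i (g : B), (V a i).coeff (g : Γ) = a (i, g) := by
    intro a i g
    simp only [V, LinearMap.coe_mk, AddHom.coe_mk, MonoidAlgebra.coeff_sum, Finsupp.finsetSum_apply]
    rw [Finset.sum_eq_single g]
    · simp
    · intro b _ hb
      rw [MonoidAlgebra.coeff_single_apply, if_neg]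
      intro h
      exact hb (Subtype.ext h)
    · simp
  have hVs : ∀ a i, ∀ x ∈ (V a i).coeff.support, x ∈ B := by
    intro a i x hx
    by_contra hxB
    rw [Finsupp.mem_support_iff] at hx
    apply hx
    simp only [V, LinearMap.coe_mk, AddHom.coe_mk, MonoidAlgebra.coeff_sum, Finsupp.finsetSum_apply]
    apply Finset.sum_eq_zero
    intro g _
    rw [MonoidAlgebra.coeff_single_apply, if_neg]
    rintro rfl
    exact hxB g.2
  let L : (Fin p × B → ℝ) →ₗ[ℝ] (Fin m × B' → ℝ) :=
    { toFun := fun a x => (∑ i, V a i * R i x.1).coeff (x.2 : Γ)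
      map_add' := by
        intro a b
        funext x
        simp [add_mul, Finset.sum_add_distrib]
      map_smul' := by
        intro c a
        funext x
        simp [Finset.mul_sum] }
  have hL : Function.Injective L := by
    rw [← LinearMap.ker_eq_bot, LinearMap.ker_eq_bot']
    intro a ha
    have h0 : ∀ j, ∑ i, V a i * R i j = 0 := by
      intro j
      ext x
      by_cases hx : x ∈ B'
      · have := congrFun ha (j, ⟨x, hx⟩)
        simpa [L] using this
      · simp only [MonoidAlgebra.coeff_zero, Finsupp.coe_zero, Pi.zero_apply,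
          MonoidAlgebra.coeff_sum, Finsupp.finsetSum_apply]
        apply Finset.sum_eq_zero
        intro i _
        by_contra hne
        have h1 : x ∈ (V a i * R i j).coeff.support := Finsupp.mem_support_iff.2 hne
        have h2 := MonoidAlgebra.support_coeff_mul_subset _ _ h1
        obtain ⟨g, hg, h, hh, rfl⟩ := Finset.mem_mul.1 h2
        exact hx (hB g (hVs a i g hg) i j h hh)
    have h1 := hR _ h0
    funext x
    have := hVc a x.1 x.2
    rw [h1] at this
    simpa using this.symm
  have := LinearMap.finrank_le_finrank_of_injective hL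
  simpa using this

end

/-- RANK. -/
theorem p_RANK : T_RANK := by
  intro Γ _ ℓ n hT htf m q s hs r hr hind
  obtain ⟨j0, hj0⟩ := hs
  by_contra hlt
  have hmq : m ≤ q := by omega
  have hm0 : 0 < m := j0.pos
  have hord : ¬ IsOfFinOrder (s j0) := htf _ hj0
  -- the augmented family
  let R : Fin (q + 1) → Fin m → MonoidAlgebra ℝ Γ := Fin.cons (Pi.single j0 1) r
  have hR : ∀ v : Fin (q + 1) → MonoidAlgebra ℝ Γ, (∀ j, ∑ i, v i * R i j = 0) → v = 0 := by
    intro v hv
    have h1 : ∀ j, v 0 * (Pi.single j0 1 : Fin m → MonoidAlgebra ℝ Γ) j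
        + ∑ i : Fin q, v i.succ * r i j = 0 := by
      intro j
      have := hv j
      rw [Fin.sum_univ_succ] at this
      simpa [R] using this
    have h2 : v 0 * (MonoidAlgebra.of ℝ Γ (s j0) - 1) = 0 := by
      have h3 : ∑ j, (v 0 * (Pi.single j0 1 : Fin m → MonoidAlgebra ℝ Γ) j
          + ∑ i : Fin q, v i.succ * r i j) * (MonoidAlgebra.of ℝ Γ (s j) - 1) = 0 := by
        apply Finset.sum_eq_zero
        intro j _
        rw [h1]; simp
      simp only [add_mul, Finset.sum_add_distrib, Finset.sum_mul] at h3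
      rw [Finset.sum_comm (s := Finset.univ) (t := Finset.univ)] at h3
      have h4 : ∑ i : Fin q, ∑ j : Fin m,
          v i.succ * r i j * (MonoidAlgebra.of ℝ Γ (s j) - 1) = 0 := by
        apply Finset.sum_eq_zero
        intro i _
        have := hr i
        simp_rw [mul_assoc]
        rw [← Finset.mul_sum, this, mul_zero]
      rw [h4, add_zero] at h3
      rw [Finset.sum_eq_single j0] at h3
      · simpa using h3
      · intro j _ hj
        simp [Pi.single_eq_of_ne hj]
      · simp
    have h5 : v 0 = 0 := mul_of_sub_one hord _ h2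
    have h6 : (fun i : Fin q => v i.succ) = 0 := by
      apply hind
      intro j
      have := h1 j
      rw [h5] at this
      simpa using this
    funext i
    refine Fin.cases ?_ (fun i => ?_) i
    · exact h5
    · exact congrFun h6 i
  -- the bound for the lengths
  obtain ⟨C, hC⟩ : ∃ C : ℕ, ∀ i j, ∀ h ∈ (R i j).coeff.support, ℓ h ≤ C := by
    classical
    refine ⟨∑ i, ∑ j, ∑ h ∈ (R i j).coeff.support, ℓ h, ?_⟩
    intro i j h hh
    calc ℓ h ≤ ∑ h ∈ (R i j).coeff.support, ℓ h :=
          Finset.single_le_sum (f := fun h => ℓ h) (fun _ _ => Nat.zero_le _) hh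
      _ ≤ ∑ j, ∑ h ∈ (R i j).coeff.support, ℓ h :=
          Finset.single_le_sum (f := fun j => ∑ h ∈ (R i j).coeff.support, ℓ h)
            (fun _ _ => Nat.zero_le _) (Finset.mem_univ j)
      _ ≤ _ := Finset.single_le_sum (f := fun i => ∑ j, ∑ h ∈ (R i j).coeff.support, ℓ h)
            (fun _ _ => Nat.zero_le _) (Finset.mem_univ i)
  let β : ℕ → ℕ := fun k => Set.ncard {g | ℓ g ≤ k}
  have hβ : ∀ k, β k = (hT.fin k).toFinset.card := by
    intro k
    exact Set.ncard_eq_toFinset_card _ (hT.fin k)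
  have hstep : ∀ k, (m + 1) * β k ≤ m * β (k + (C + 1)) := by
    intro k
    rw [hβ, hβ]
    refine le_trans (Nat.mul_le_mul_right _ (show m + 1 ≤ q + 1 by omega)) ?_
    refine card_le _ _ R hR ?_
    intro g hg i j h hh
    simp only [Set.Finite.mem_toFinset, Set.mem_setOf_eq] at hg ⊢
    have h1 := hT.mul g h
    have h2 := hC i j h hh
    omega
  have hpos : 1 ≤ β 0 := by
    rw [hβ, Nat.one_le_iff_ne_zero, Finset.card_ne_zero]
    exact ⟨1, by simp [hT.one]⟩
  have hmR : (0 : ℝ) < m := by exact_mod_cast hm0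
  have hgrow : ∀ k : ℕ, (1 + 1 / (m : ℝ)) ^ k ≤ β ((C + 1) * k) := by
    intro k
    induction k with
    | zero => simpa using (by exact_mod_cast hpos : (1 : ℝ) ≤ β 0)
    | succ k ih =>
      have h1 : ((m : ℝ) + 1) * β ((C + 1) * k) ≤ m * β ((C + 1) * k + (C + 1)) := by
        exact_mod_cast hstep ((C + 1) * k)
      have h2 : (C + 1) * (k + 1) = (C + 1) * k + (C + 1) := by ring
      rw [h2]
      calc (1 + 1 / (m : ℝ)) ^ (k + 1) = (1 + 1 / (m : ℝ)) ^ k * (1 + 1 / m) := pow_succ _ _
        _ ≤ β ((C + 1) * k) * (1 + 1 / m) := by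
            apply mul_le_mul_of_nonneg_right ih; positivity
        _ = (((m : ℝ) + 1) * β ((C + 1) * k)) / m := by field_simp
        _ ≤ (m * β ((C + 1) * k + (C + 1))) / m := by gcongr
        _ = β ((C + 1) * k + (C + 1)) := by field_simp
  -- choice of the rate
  obtain ⟨b, hb1, hb2⟩ : ∃ b : ℝ, 1 < b ∧ b ^ (C + 1) < 1 + 1 / (m : ℝ) := by
    have h1 : ∀ᶠ b in nhds (1 : ℝ), b ^ (C + 1) < 1 + 1 / (m : ℝ) := by
      apply (continuous_pow (C + 1)).continuousAt.eventually_lt continuousAt_const
      simp [hm0]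
    obtain ⟨ε, hε, h2⟩ := Metric.eventually_nhds_iff.1 h1
    refine ⟨1 + ε / 2, by linarith, h2 ?_⟩
    rw [Real.dist_eq]
    rw [show 1 + ε / 2 - 1 = ε / 2 by ring, abs_of_pos (by linarith)]
    linarith
  obtain ⟨N, hN⟩ := hT.grow b hb1
  have h1 := hgrow (N + 1)
  have h2 := hN ((C + 1) * (N + 1)) (by nlinarith)
  have h3 : (b ^ (C + 1)) ^ (N + 1) < (1 + 1 / (m : ℝ)) ^ (N + 1) :=
    pow_lt_pow_left₀ hb2 (by positivity) (by omega)
  rw [← pow_mul] at h3
  have h4 : (β ((C + 1) * (N + 1)) : ℝ) ≤ b ^ ((C + 1) * (N + 1)) := h2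
  linarith

end Pool.Agent.Asd3
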