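import Pool.Agent.Asd3.Targets

set_option autoImplicit false

/-!
Comparison of the cycles of the complete graph on `Γ` with the Cayley graph of `N`.
-/

namespace Pool.Agent.Asd3

open Finsupp
open scoped BigOperators

namespace TR

section
variable {Γ : Type} [Group Γ]

/-- A map to the subgroup which is equivariant for left multiplication. -/
theorem exists_rho (N : Subgroup Γ) : ∃ ρ : Γ → N, ∀ (n : N) (g : Γ), ρ (n * g) = n * ρ g := by
  classical
  let S : Setoid Γ := QuotientGroup.rightRel N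
  let rep : Γ → Γ := fun g => Quotient.out (Quotient.mk S g)
  have h1 : ∀ g, g * (rep g)⁻¹ ∈ N := by
    intro g
    have h : S.r (rep g) g := Quotient.mk_out (s := S) g
    exact QuotientGroup.rightRel_apply.1 h
  refine ⟨fun g => ⟨g * (rep g)⁻¹, h1 g⟩, ?_⟩
  intro n g
  have h2 : Quotient.mk S ((n : Γ) * g) = Quotient.mk S g := by
    refine Quotient.sound (s := S) ?_
    refine QuotientGroup.rightRel_apply.2 ?_
    simp
  have h3 : rep ((n : Γ) * g) = rep g := by
    show Quotient.out (Quotient.mk S ((n : Γ) * g)) = Quotient.out (Quotient.mk S g)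
    rw [h2]
  apply Subtype.ext
  show (n : Γ) * g * (rep ((n : Γ) * g))⁻¹ = n * (g * (rep g)⁻¹)
  rw [h3, mul_assoc]

theorem exists_P {N : Type} [Group N] {m : ℕ} (s : Fin m → N)
    (hs : Subgroup.closure (Set.range s) = ⊤) (n : N) :
    ∃ P : Fin m → MonoidAlgebra ℝ N,
      ∑ j, P j * (MonoidAlgebra.of ℝ N (s j) - 1) = MonoidAlgebra.of ℝ N n - 1 := by
  have hn : n ∈ Subgroup.closure (Set.range s) := by rw [hs]; trivial
  induction hn using Subgroup.closure_induction with
  | mem x hx =>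
    obtain ⟨j, rfl⟩ := hx
    refine ⟨Pi.single j 1, ?_⟩
    rw [Finset.sum_eq_single j]
    · simp
    · intro b _ hb
      simp [Pi.single_eq_of_ne hb]
    · intro h
      exact absurd (Finset.mem_univ j) h
  | one => exact ⟨0, by rw [map_one]; simp⟩
  | mul x y _ _ hx hy =>
    obtain ⟨P, hP⟩ := hx
    obtain ⟨Q, hQ⟩ := hy
    refine ⟨fun j => P j + MonoidAlgebra.of ℝ N x * Q j, ?_⟩
    simp only [add_mul, mul_assoc, Finset.sum_add_distrib]
    rw [← Finset.mul_sum, hP, hQ, map_mul]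
    noncomm_ring
  | inv x _ hx =>
    obtain ⟨P, hP⟩ := hx
    refine ⟨fun j => - (MonoidAlgebra.of ℝ N x⁻¹ * P j), ?_⟩
    simp only [neg_mul, mul_assoc, Finset.sum_neg_distrib]
    rw [← Finset.mul_sum, hP]
    have h1 : MonoidAlgebra.of ℝ N x⁻¹ * MonoidAlgebra.of ℝ N x = 1 := by
      rw [← map_mul, inv_mul_cancel, map_one]
    rw [mul_sub, h1, mul_one]
    noncomm_ring

/-! ### Boundary and cones -/

theorem bd_single {n : ℕ} (σ : Fin (n + 1) → Γ) (a : ℝ) :
    bd (single σ a) = ∑ i : Fin (n + 1), ((-1 : ℝ) ^ (i : ℕ)) •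
      (single (fun j => σ (i.succAbove j)) a : Ch Γ ℝ n) := by
  simp [bd]

theorem bd_equiv {n : ℕ} (g : Γ) (c : Ch Γ ℝ (n + 1)) :
    bd (cR Γ (n + 1) g c) = cR Γ n g (bd c) := by
  induction c using Finsupp.induction_linear with
  | zero => simp
  | add f h hf hh => simp only [map_add, hf, hh]
  | single σ a =>
    rw [cR_single, bd_single, bd_single, map_sum]
    refine Finset.sum_congr rfl (fun i _ => ?_)
    rw [map_smul, cR_single]

theorem cn_single {n : ℕ} (v : Γ) (σ : Fin n → Γ) (a : ℝ) :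
    cn v (single σ a) = (single (Fin.cons v σ) a : Ch Γ ℝ (n + 1)) := by
  simp [cn]

theorem cn_equiv {n : ℕ} (g v : Γ) (c : Ch Γ ℝ n) :
    cn (g * v) (cR Γ n g c) = cR Γ (n + 1) g (cn v c) := by
  induction c using Finsupp.induction_linear with
  | zero => simp
  | add f h hf hh => simp only [map_add, hf, hh]
  | single σ a =>
    rw [cR_single, cn_single, cn_single, cR_single]
    congr 1
    funext i
    refine Fin.cases ?_ (fun j => ?_) i
    · simp
    · simp

theorem bd_cn {n : ℕ} (v : Γ) (c : Ch Γ ℝ (n + 1)) :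
    bd (cn v c) = c - cn v (bd c) := by
  induction c using Finsupp.induction_linear with
  | zero => simp
  | add f h hf hh => simp only [map_add, hf, hh]; abel
  | single σ a =>
    rw [cn_single, bd_single, bd_single, Fin.sum_univ_succ, map_sum, sub_eq_add_neg,
      ← Finset.sum_neg_distrib]
    congr 1
    · simp
    · refine Finset.sum_congr rfl (fun i _ => ?_)
      rw [map_smul, cn_single, Fin.val_succ, pow_succ, mul_neg_one, neg_smul]
      congr 2
      congr 1
      funext j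
      refine Fin.cases ?_ (fun k => ?_) j
      · simp
      · simp

theorem bd_pair (σ : Fin 2 → Γ) (a : ℝ) :
    bd (single σ a) = (single (fun _ => σ 1) a - single (fun _ => σ 0) a : Ch Γ ℝ 1) := by
  rw [bd_single, Fin.sum_univ_two]
  have h : ∀ f : Fin 1 → Γ, f = fun _ => f 0 := fun f => funext fun j => by
    rw [Subsingleton.elim j 0]
  rw [h (fun j' => σ ((0 : Fin 2).succAbove j')), h (fun j' => σ ((1 : Fin 2).succAbove j'))]
  simp [sub_eq_add_neg]

theorem bd_bd (c : Ch Γ ℝ 3) : bd (bd c) = (0 : Ch Γ ℝ 1) := by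
  induction c using Finsupp.induction_linear with
  | zero => simp
  | add f h hf hh => simp only [map_add, hf, hh, add_zero]
  | single σ a =>
    rw [bd_single, map_sum, Fin.sum_univ_three]
    simp only [map_smul, bd_pair]
    have e1 : (0 : Fin 3).succAbove 1 = 2 := by decide
    have e2 : (0 : Fin 3).succAbove 0 = 1 := by decide
    have e3 : (1 : Fin 3).succAbove 1 = 2 := by decide
    have e4 : (1 : Fin 3).succAbove 0 = 0 := by decide
    have e5 : (2 : Fin 3).succAbove 1 = 1 := by decide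
    have e6 : (2 : Fin 3).succAbove 0 = 0 := by decide
    rw [e1, e2, e3, e4, e5, e6]
    simp

/-! ### The subgroup -/

/-- The action of the group algebra of the subgroup. -/
noncomputable def al (N : Subgroup Γ) (n : ℕ) : MonoidAlgebra ℝ N →ₐ[ℝ]
    Module.End ℝ (Ch Γ ℝ n) :=
  Representation.asAlgebraHom
    (MonoidHom.comp (cR Γ n) N.subtype : Representation ℝ N (Ch Γ ℝ n))

theorem al_of (N : Subgroup Γ) (n : ℕ) (g : N) (c : Ch Γ ℝ n) :
    al N n (MonoidAlgebra.of ℝ N g) c = cR Γ n g c := by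
  rw [al, Representation.asAlgebraHom_of]
  rfl

theorem al_bd (N : Subgroup Γ) (n : ℕ) (v : MonoidAlgebra ℝ N) (c : Ch Γ ℝ (n + 1)) :
    bd (al N (n + 1) v c) = al N n v (bd c) := by
  induction v using MonoidAlgebra.induction_linear with
  | zero => simp
  | add f h hf hh => simp only [map_add, LinearMap.add_apply, hf, hh]
  | single g a =>
    rw [al, al, Representation.asAlgebraHom_single, Representation.asAlgebraHom_single,
      LinearMap.smul_apply, LinearMap.smul_apply, map_smul]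
    congr 1
    exact bd_equiv (g : Γ) c

/-- The Cayley graph map. -/
noncomputable def io (N : Subgroup Γ) {m : ℕ} (s : Fin m → N) (x : Fin m → MonoidAlgebra ℝ N) :
    Ch Γ ℝ 2 :=
  ∑ j, al N 2 (x j) (single ![1, (s j : Γ)] 1)

theorem io_mul (N : Subgroup Γ) {m : ℕ} (s : Fin m → N) (v : MonoidAlgebra ℝ N)
    (x : Fin m → MonoidAlgebra ℝ N) :
    io N s (fun j => v * x j) = al N 2 v (io N s x) := by
  simp only [io, map_mul, Module.End.mul_apply, map_sum]

theorem io_add (N : Subgroup Γ) {m : ℕ} (s : Fin m → N) (x y : Fin m → MonoidAlgebra ℝ N) :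
    io N s (x + y) = io N s x + io N s y := by
  simp only [io, Pi.add_apply, map_add, LinearMap.add_apply, Finset.sum_add_distrib]

theorem io_smul (N : Subgroup Γ) {m : ℕ} (s : Fin m → N) (a : ℝ)
    (x : Fin m → MonoidAlgebra ℝ N) : io N s (a • x) = a • io N s x := by
  simp only [io, Pi.smul_apply, map_smul, LinearMap.smul_apply, Finset.smul_sum]

theorem io_zero (N : Subgroup Γ) {m : ℕ} (s : Fin m → N) :
    io N s (fun _ => 0) = 0 := by
  simp [io]

theorem io_sum (N : Subgroup Γ) {m q : ℕ} (s : Fin m → N)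
    (x : Fin q → Fin m → MonoidAlgebra ℝ N) :
    io N s (fun j => ∑ i, x i j) = ∑ i, io N s (x i) := by
  simp only [io, map_sum, LinearMap.sum_apply]
  rw [Finset.sum_comm]

theorem bd_io (N : Subgroup Γ) {m : ℕ} (s : Fin m → N) (x : Fin m → MonoidAlgebra ℝ N) :
    bd (io N s x) = al N 1 (∑ j, x j * (MonoidAlgebra.of ℝ N (s j) - 1))
      (single (fun _ => 1) 1) := by
  rw [io, map_sum, map_sum, LinearMap.sum_apply]
  refine Finset.sum_congr rfl (fun j _ => ?_)
  rw [al_bd, map_mul, Module.End.mul_apply]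
  congr 1
  rw [map_sub, LinearMap.sub_apply, al_of, map_one, Module.End.one_apply, cR_single, bd_pair]
  simp

end

section main
variable {Γ : Type} [Group Γ] {N : Subgroup Γ} {m : ℕ} (s : Fin m → N) (ρ : Γ → N)
  (P : N → Fin m → MonoidAlgebra ℝ N)

/-- The comparison map to the Cayley graph of the subgroup. -/
noncomputable def ps : Ch Γ ℝ 2 →ₗ[ℝ] (Fin m → MonoidAlgebra ℝ N) :=
  Finsupp.linearCombination ℝ (fun σ : Fin 2 → Γ => fun j =>
    MonoidAlgebra.of ℝ N (ρ (σ 0)) * P ((ρ (σ 0))⁻¹ * ρ (σ 1)) j)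

/-- The map of the points to the group algebra. -/
noncomputable def R0 : Ch Γ ℝ 1 →ₗ[ℝ] MonoidAlgebra ℝ N :=
  Finsupp.linearCombination ℝ (fun σ : Fin 1 → Γ => MonoidAlgebra.of ℝ N (ρ (σ 0)))

/-- The map of the points. -/
noncomputable def th0 : Ch Γ ℝ 1 →ₗ[ℝ] Ch Γ ℝ 1 :=
  Finsupp.linearCombination ℝ (fun σ : Fin 1 → Γ => single (fun _ => (ρ (σ 0) : Γ)) 1)

/-- The homotopy on points. -/
noncomputable def D0 : Ch Γ ℝ 1 →ₗ[ℝ] Ch Γ ℝ 2 :=
  Finsupp.linearCombination ℝ (fun σ : Fin 1 → Γ => single ![(ρ (σ 0) : Γ), σ 0] 1)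

/-- The value of the second homotopy before coning. -/
noncomputable def Y1 (c : Ch Γ ℝ 2) : Ch Γ ℝ 2 :=
  c - io N s (ps ρ P c) - D0 ρ (bd c)

/-- The homotopy on pairs. -/
noncomputable def D1 : Ch Γ ℝ 2 →ₗ[ℝ] Ch Γ ℝ 3 :=
  Finsupp.linearCombination ℝ (fun σ : Fin 2 → Γ => cn (σ 0) (Y1 s ρ P (single σ 1)))

theorem single_eq (n : ℕ) (σ : Fin n → Γ) (a : ℝ) :
    (single σ a : Ch Γ ℝ n) = a • single σ 1 := by
  simp

theorem ps_equiv (hρ : ∀ (n : N) (g : Γ), ρ (n * g) = n * ρ g) (n : N) (c : Ch Γ ℝ 2) :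
    ps ρ P (cR Γ 2 n c) = fun j => MonoidAlgebra.of ℝ N n * ps ρ P c j := by
  induction c using Finsupp.induction_linear with
  | zero => funext j; simp
  | add f h hf hh => rw [map_add, map_add, hf, hh, map_add]; funext j; simp [mul_add]
  | single σ a =>
    rw [cR_single, ps, Finsupp.linearCombination_single, Finsupp.linearCombination_single]
    funext j
    simp only [Pi.smul_apply, hρ, map_mul, mul_inv_rev, mul_assoc, inv_mul_cancel_left,
      mul_smul_comm]

theorem ps_sum (hP : ∀ n, ∑ j, P n j * (MonoidAlgebra.of ℝ N (s j) - 1) =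
    MonoidAlgebra.of ℝ N n - 1) (c : Ch Γ ℝ 2) :
    ∑ j, ps ρ P c j * (MonoidAlgebra.of ℝ N (s j) - 1) = R0 ρ (bd c) := by
  induction c using Finsupp.induction_linear with
  | zero => simp
  | add f h hf hh =>
    rw [map_add, map_add, map_add, ← hf, ← hh, ← Finset.sum_add_distrib]
    refine Finset.sum_congr rfl (fun j _ => ?_)
    rw [Pi.add_apply, add_mul]
  | single σ a =>
    rw [ps, Finsupp.linearCombination_single, bd_pair, map_sub, R0,
      Finsupp.linearCombination_single, Finsupp.linearCombination_single, ← smul_sub]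
    have h1 : MonoidAlgebra.of ℝ N (ρ (σ 1)) - MonoidAlgebra.of ℝ N (ρ (σ 0)) =
        MonoidAlgebra.of ℝ N (ρ (σ 0)) *
          (MonoidAlgebra.of ℝ N ((ρ (σ 0))⁻¹ * ρ (σ 1)) - 1) := by
      rw [mul_sub, ← map_mul, mul_inv_cancel_left, mul_one]
    rw [h1, ← hP, Finset.mul_sum, Finset.smul_sum]
    refine Finset.sum_congr rfl (fun j _ => ?_)
    rw [Pi.smul_apply, smul_mul_assoc, mul_assoc]

theorem R0_th0 (c : Ch Γ ℝ 1) :
    al N 1 (R0 ρ c) (single (fun _ => 1) 1) = th0 ρ c := by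
  induction c using Finsupp.induction_linear with
  | zero => simp
  | add f h hf hh => rw [map_add, map_add, LinearMap.add_apply, hf, hh, map_add]
  | single σ a =>
    rw [R0, th0, Finsupp.linearCombination_single, Finsupp.linearCombination_single, map_smul,
      LinearMap.smul_apply, al_of, cR_single]
    simp

theorem bd_D0 (c : Ch Γ ℝ 1) : bd (D0 ρ c) = c - th0 ρ c := by
  induction c using Finsupp.induction_linear with
  | zero => simp
  | add f h hf hh => rw [map_add, map_add, hf, hh, map_add]; abel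
  | single σ a =>
    rw [D0, th0, Finsupp.linearCombination_single, Finsupp.linearCombination_single, map_smul,
      bd_pair, smul_sub]
    congr 1
    rw [← single_eq]
    congr 1
    funext j
    rw [Subsingleton.elim j 0]
    simp

theorem bd_th1 (hP : ∀ n, ∑ j, P n j * (MonoidAlgebra.of ℝ N (s j) - 1) =
    MonoidAlgebra.of ℝ N n - 1) (c : Ch Γ ℝ 2) :
    bd (io N s (ps ρ P c)) = th0 ρ (bd c) := by
  rw [bd_io, ps_sum s ρ P hP, R0_th0]

theorem bd_Y1 (hP : ∀ n, ∑ j, P n j * (MonoidAlgebra.of ℝ N (s j) - 1) =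
    MonoidAlgebra.of ℝ N n - 1) (c : Ch Γ ℝ 2) : bd (Y1 s ρ P c) = 0 := by
  rw [Y1, map_sub, map_sub, bd_th1 s ρ P hP, bd_D0]
  abel

theorem Y1_smul (a : ℝ) (c : Ch Γ ℝ 2) : Y1 s ρ P (a • c) = a • Y1 s ρ P c := by
  rw [Y1, Y1, map_smul, io_smul, map_smul, map_smul, smul_sub, smul_sub]

theorem Y1_add (c d : Ch Γ ℝ 2) : Y1 s ρ P (c + d) = Y1 s ρ P c + Y1 s ρ P d := by
  rw [Y1, Y1, Y1, map_add, io_add, map_add, map_add]
  abel

theorem bd_D1 (hP : ∀ n, ∑ j, P n j * (MonoidAlgebra.of ℝ N (s j) - 1) =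
    MonoidAlgebra.of ℝ N n - 1) (c : Ch Γ ℝ 2) : bd (D1 s ρ P c) = Y1 s ρ P c := by
  induction c using Finsupp.induction_linear with
  | zero =>
    rw [map_zero, map_zero]
    have := Y1_smul s ρ P 0 0
    rw [zero_smul, zero_smul] at this
    exact this.symm
  | add f h hf hh => rw [map_add, map_add, hf, hh, Y1_add]
  | single σ a =>
    rw [D1, Finsupp.linearCombination_single, map_smul, bd_cn, bd_Y1 s ρ P hP, map_zero,
      sub_zero, ← Y1_smul, ← single_eq]

theorem D0_equiv (hρ : ∀ (n : N) (g : Γ), ρ (n * g) = n * ρ g) (n : N) (c : Ch Γ ℝ 1) :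
    D0 ρ (cR Γ 1 n c) = cR Γ 2 n (D0 ρ c) := by
  induction c using Finsupp.induction_linear with
  | zero => simp
  | add f h hf hh => simp only [map_add, hf, hh]
  | single σ a =>
    rw [cR_single, D0, Finsupp.linearCombination_single, Finsupp.linearCombination_single,
      map_smul, cR_single, hρ]
    congr 2
    funext j
    fin_cases j
    · simp
    · simp

theorem Y1_equiv (hρ : ∀ (n : N) (g : Γ), ρ (n * g) = n * ρ g) (n : N) (c : Ch Γ ℝ 2) :
    Y1 s ρ P (cR Γ 2 n c) = cR Γ 2 n (Y1 s ρ P c) := by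
  rw [Y1, Y1, ps_equiv ρ P hρ, io_mul, al_of, bd_equiv, D0_equiv ρ hρ, map_sub, map_sub]

theorem D1_equiv (hρ : ∀ (n : N) (g : Γ), ρ (n * g) = n * ρ g) (n : N) (c : Ch Γ ℝ 2) :
    D1 s ρ P (cR Γ 2 n c) = cR Γ 3 n (D1 s ρ P c) := by
  induction c using Finsupp.induction_linear with
  | zero => simp
  | add f h hf hh => simp only [map_add, hf, hh]
  | single σ a =>
    rw [cR_single, D1, Finsupp.linearCombination_single, Finsupp.linearCombination_single,
      map_smul, ← cn_equiv, ← Y1_equiv s ρ P hρ, cR_single]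

theorem D1_aug (hρ : ∀ (n : N) (g : Γ), ρ (n * g) = n * ρ g) {c : Ch Γ ℝ 2}
    (hc : c ∈ aug (cR Γ 2) N) : D1 s ρ P c ∈ aug (cR Γ 3) N := by
  induction hc using Submodule.span_induction with
  | mem x hx =>
    obtain ⟨h, hh, d, rfl⟩ := hx
    rw [map_sub]
    refine Submodule.subset_span ⟨h, hh, D1 s ρ P d, ?_⟩
    rw [← D1_equiv s ρ P hρ ⟨h, hh⟩ d]
  | zero => rw [map_zero]; exact Submodule.zero_mem _
  | add x y _ _ hx hy => rw [map_add]; exact Submodule.add_mem _ hx hy
  | smul a x _ hx => rw [map_smul]; exact Submodule.smul_mem _ a hx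

end main

end TR

open TR in
theorem p_TR : T_TR := by
  intro Γ _ N m q s hs u hu
  obtain ⟨ρ, hρ⟩ := exists_rho N
  choose P hP using exists_P s hs
  refine ⟨fun i => u i - D1 s ρ P (bd (u i)), fun i => ps ρ P (bd (u i)), ?_, ?_, ?_⟩
  · intro i
    have h : u i - D1 s ρ P (bd (u i)) - u i = -(D1 s ρ P (bd (u i))) := by abel
    rw [h]
    exact Submodule.neg_mem _ (D1_aug s ρ P hρ (hu i))
  · intro i
    rw [ps_sum s ρ P hP, bd_bd, map_zero]
  · intro v hv
    have h1 : ∀ i, bd (u i - D1 s ρ P (bd (u i))) = io N s (ps ρ P (bd (u i))) := by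
      intro i
      rw [map_sub, bd_D1 s ρ P hP, Y1, bd_bd, map_zero]
      abel
    rw [map_sum]
    have h2 : ∀ i, bd (Representation.asAlgebraHom
        (MonoidHom.comp (cR Γ 3) N.subtype : Representation ℝ N (Ch Γ ℝ 3)) (v i)
        (u i - D1 s ρ P (bd (u i)))) = io N s (fun j => v i * ps ρ P (bd (u i)) j) := by
      intro i
      rw [io_mul, ← h1 i]
      exact al_bd N 2 (v i) _
    rw [Finset.sum_congr rfl (fun i _ => h2 i), ← io_sum]
    have h3 : (fun j => ∑ i, v i * ps ρ P (bd (u i)) j) = fun _ => 0 := funext hv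
    rw [h3, io_zero]

end Pool.Agent.Asd3
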