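import Mathlib
import Pool.Agent.Asd3.Core

/-!
# The natural homotopy between the identity and the alternation of a map
-/

set_option autoImplicit false

namespace Pool.Agent.Asd3

open Finsupp
open scoped BigOperators

section Q
variable {X Y : Type*}

/-- the homotopy -/
noncomputable def hQ {X : Type*} : (n : ℕ) → Ch (X × X) ℝ n →ₗ[ℝ] Ch X ℝ (n + 1)
  | 0 => 0
  | (n + 1) => Finsupp.lsum ℝ fun σ : Fin (n + 1) → X × X =>
      LinearMap.toSpanSingleton ℝ _ (cn (σ 0).1 (mp Prod.fst (single σ (1 : ℝ)) -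
        alt (mp Prod.snd (single σ (1 : ℝ))) - hQ n (bd (single σ (1 : ℝ)))))

theorem hQ_single (n : ℕ) (σ : Fin (n + 1) → X × X) :
    hQ (n + 1) (single σ (1 : ℝ)) = cn (σ 0).1 (mp Prod.fst (single σ (1 : ℝ)) -
        alt (mp Prod.snd (single σ (1 : ℝ))) - hQ n (bd (single σ (1 : ℝ)))) := by
  rw [hQ, Finsupp.lsum_single, LinearMap.toSpanSingleton_apply, one_smul]

theorem lext1 {n : ℕ} {M : Type*} [AddCommGroup M] [Module ℝ M] {f g : Ch X ℝ n →ₗ[ℝ] M}
    (h : ∀ σ, f (single σ 1) = g (single σ 1)) (c : Ch X ℝ n) : f c = g c := by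
  refine lext (fun σ a => ?_) c
  have ha : (single σ a : Ch X ℝ n) = a • single σ 1 := by simp
  rw [ha, map_smul, map_smul, h]

theorem zero_ch (c : Ch (X × X) ℝ 0) : mp Prod.fst c = alt (mp Prod.snd c) := by
  refine lext1 (f := mp Prod.fst) (g := alt ∘ₗ mp Prod.snd) (fun σ => ?_) c
  simp only [LinearMap.comp_apply, mp_single, alt_single]
  simp only [Nat.factorial_zero, Nat.cast_one, inv_one, one_smul]
  rw [Fintype.sum_unique]
  simp only [Equiv.Perm.default_eq, Equiv.Perm.sign_one, Units.val_one, Int.cast_one, one_smul]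
  congr 1
  funext i
  exact i.elim0

theorem bd_hQ (n : ℕ) (c : Ch (X × X) ℝ (n + 1)) :
    bd (hQ (n + 1) c) = mp Prod.fst c - alt (mp Prod.snd c) - hQ n (bd c) := by
  induction n with
  | zero =>
    refine lext1 (f := bd ∘ₗ hQ 1) (g := mp Prod.fst - alt ∘ₗ mp Prod.snd - hQ 0 ∘ₗ bd)
      (fun σ => ?_) c
    simp only [LinearMap.comp_apply, LinearMap.sub_apply]
    have hy : bd (mp Prod.fst (single σ (1 : ℝ)) - alt (mp Prod.snd (single σ (1 : ℝ))) -
        hQ 0 (bd (single σ (1 : ℝ)))) = 0 := by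
      rw [map_sub, map_sub, bd_mp, bd_alt, bd_mp, zero_ch]
      simp [hQ]
    rw [hQ_single, bd_cn, hy, map_zero, sub_zero]
  | succ n ih =>
    refine lext1 (f := bd ∘ₗ hQ (n + 2)) (g := mp Prod.fst - alt ∘ₗ mp Prod.snd - hQ (n + 1) ∘ₗ bd)
      (fun σ => ?_) c
    simp only [LinearMap.comp_apply, LinearMap.sub_apply]
    have hy : bd (mp Prod.fst (single σ (1 : ℝ)) - alt (mp Prod.snd (single σ (1 : ℝ))) -
        hQ (n + 1) (bd (single σ (1 : ℝ)))) = 0 := by
      rw [map_sub, map_sub, bd_mp, bd_alt, bd_mp, ih, bd_bd, map_zero, sub_zero, sub_self]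
    rw [hQ_single, bd_cn, hy, map_zero, sub_zero]

theorem hQ_mp (g : X → Y) (n : ℕ) (c : Ch (X × X) ℝ n) :
    hQ n (mp (Prod.map g g) c) = mp g (hQ n c) := by
  induction n with
  | zero => simp [hQ]
  | succ n ih =>
    refine lext1 (f := hQ (n + 1) ∘ₗ mp (Prod.map g g)) (g := mp g ∘ₗ hQ (n + 1)) (fun σ => ?_) c
    simp only [LinearMap.comp_apply]
    rw [mp_single, hQ_single, hQ_single, mp_cn]
    congr 1
    rw [map_sub, map_sub, ← ih, ← alt_mp, mp_mp, mp_mp, ← bd_mp, mp_single, mp_single, mp_single,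
      mp_single, mp_single]
    rfl

end Q

section ten
variable {X Y A : Type*} [AddCommGroup A] [Module ℝ A] {n : ℕ}

/-- a real chain times an element of `A` -/
noncomputable def ten (a : A) : Ch X ℝ n →ₗ[ℝ] Ch X A n :=
  Finsupp.mapRange.linearMap (LinearMap.toSpanSingleton ℝ A a)

@[simp] theorem ten_single (a : A) (σ : Fin n → X) (r : ℝ) :
    ten a (single σ r : Ch X ℝ n) = single σ (r • a) := by
  simp [ten]

theorem bd_ten (a : A) (c : Ch X ℝ (n + 1)) : bd (ten a c) = ten a (bd c) := by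
  refine lext (f := bd ∘ₗ ten a) (g := ten a ∘ₗ bd) (fun σ r => ?_) c
  simp only [LinearMap.comp_apply, ten_single, bd_single, map_sum, map_smul]

theorem mp_ten (f : X → Y) (a : A) (c : Ch X ℝ n) : mp f (ten a c) = ten a (mp f c) := by
  refine lext (f := mp f ∘ₗ ten a) (g := ten a ∘ₗ mp f) (fun σ r => ?_) c
  simp

theorem ten_add (a b : A) (c : Ch X ℝ n) : ten (a + b) c = ten a c + ten b c := by
  refine lext (f := ten (a + b)) (g := ten a + ten b) (fun σ r => ?_) c
  simp [smul_add]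

theorem ten_smul (s : ℝ) (a : A) (c : Ch X ℝ n) : ten (s • a) c = s • ten a c := by
  refine lext (f := ten (s • a)) (g := s • ten a) (fun σ r => ?_) c
  rw [ten_single, LinearMap.smul_apply, ten_single, Finsupp.smul_single, smul_comm r s a]

/-- the homotopy for the map `f` with coefficients in `A` -/
noncomputable def hT (f : X → X) : Ch X A n →ₗ[ℝ] Ch X A (n + 1) :=
  Finsupp.lsum ℝ fun σ : Fin n → X =>
    { toFun := fun a => ten a (hQ n (single (fun i => (σ i, f (σ i))) (1 : ℝ)))
      map_add' := fun a b => ten_add a b _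
      map_smul' := fun s a => ten_smul s a _ }

theorem hT_single (f : X → X) (σ : Fin n → X) (a : A) :
    hT f (single σ a : Ch X A n) = ten a (hQ n (single (fun i => (σ i, f (σ i))) (1 : ℝ))) := by
  rw [hT, Finsupp.lsum_single]
  rfl

theorem hT_id (f : X → X) (σ : Fin (n + 1) → X) (a : A)
    (h : ¬ Function.Injective fun i => f (σ i)) :
    bd (hT f (single σ a : Ch X A (n + 1))) + hT f (bd (single σ a)) = single σ a := by
  rw [hT_single, bd_ten, bd_hQ, mp_single, mp_single, alt_zero _ _ h, sub_zero, map_sub,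
    ten_single, one_smul]
  have h1 : hT f (bd (single σ a : Ch X A (n + 1))) =
      ten a (hQ n (bd (single (fun i => (σ i, f (σ i))) (1 : ℝ)))) := by
    rw [bd_single, bd_single, map_sum, map_sum, map_sum]
    refine Finset.sum_congr rfl fun i _ => ?_
    rw [map_smul, map_smul, map_smul, hT_single]
  rw [h1]
  abel

theorem hT_chain (f : X → X) (c : Ch X A (n + 1))
    (h : ∀ σ ∈ c.support, ¬ Function.Injective fun i => f (σ i)) :
    bd (hT f c) + hT f (bd c) = c := by
  have h1 : c = c.sum single := (Finsupp.sum_single c).symm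
  have h2 : bd (hT f c) + hT f (bd c) =
      ∑ σ ∈ c.support, (bd (hT f (single σ (c σ))) + hT f (bd (single σ (c σ)))) := by
    conv_lhs => rw [h1]
    rw [Finsupp.sum, map_sum, map_sum, map_sum, map_sum, Finset.sum_add_distrib]
  rw [h2]
  conv_rhs => rw [h1]
  rw [Finsupp.sum]
  exact Finset.sum_congr rfl fun σ hσ => hT_id f σ _ (h σ hσ)

end ten

end Pool.Agent.Asd3
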