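import Mathlib
import Pool.Agent.Asd3.Hty

/-!
# Vanishing of homology in high degrees by averaging over Foelner sets
-/

set_option autoImplicit false

namespace Pool.Agent.Asd3

open Finsupp
open scoped BigOperators

open Classical in
/-- right Foelner sets in the subgroup `H` -/
def Folner {Γ : Type*} [Group Γ] (H : Subgroup Γ) : Prop :=
  ∀ T : Finset Γ, (∀ t ∈ T, t ∈ H) → ∀ ε : ℝ, 0 < ε → ∃ F : Finset Γ, F.Nonempty ∧
    (∀ h ∈ F, h ∈ H) ∧ ∀ t ∈ T, ((F.image (fun x => x * t) \ F).card : ℝ) ≤ ε * F.card ∧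
      ((F \ F.image (fun x => x * t)).card : ℝ) ≤ ε * F.card

section
variable {Γ X A : Type*} [Group Γ] [MulAction Γ X] [AddCommGroup A] [Module ℝ A]
  (ρ : Representation ℝ Γ A) (H : Subgroup Γ) {n : ℕ}

theorem rep_ten (g : Γ) (a : A) (c : Ch X ℝ n) :
    chRep ρ X n g (ten a c) = ten (ρ g a) (mp (fun x => g • x) c) := by
  refine lext (f := chRep ρ X n g ∘ₗ ten a) (g := ten (ρ g a) ∘ₗ mp (fun x => g • x))
    (fun σ r => ?_) c
  simp

theorem rep_hT (f : X → X) (g : Γ) (σ : Fin n → X) (a : A) :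
    hT f (chRep ρ X n g (single σ a)) = chRep ρ X (n + 1) g
      (ten a (hQ n (single (fun i => (σ i, g⁻¹ • f (g • σ i))) (1 : ℝ)))) := by
  rw [chRep_single, hT_single, rep_ten, ← hQ_mp, mp_single]
  simp

theorem hT_rep (f : X → X) (g : Γ) (c : Ch X A (n + 1))
    (h : ∀ σ ∈ c.support, ¬ Function.Injective fun i => f (g • σ i)) :
    bd (hT f (chRep ρ X (n + 1) g c)) + hT f (bd (chRep ρ X (n + 1) g c)) =
      chRep ρ X (n + 1) g c := by
  have h1 : c = c.sum single := (Finsupp.sum_single c).symm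
  have h2 : chRep ρ X (n + 1) g c =
      ∑ σ ∈ c.support, single (fun i => g • σ i) (ρ g (c σ)) := by
    conv_lhs => rw [h1]
    rw [Finsupp.sum, map_sum]
    simp only [chRep_single]
  rw [h2, map_sum, map_sum, map_sum, map_sum, ← Finset.sum_add_distrib]
  exact Finset.sum_congr rfl fun σ hσ => hT_id f _ _ (h σ hσ)

theorem bounded (f : X → X) (α : Ch X A (n + 1) →ₗ[ℝ] ℝ)
    (hα : ∀ h ∈ H, ∀ c, α (chRep ρ X (n + 1) h c) = α c)
    (hf1 : ∀ x : X, {y : X | ∃ h ∈ H, y = h⁻¹ • f (h • x)}.Finite) (c : Ch X A n) :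
    ∃ M : ℝ, 0 ≤ M ∧ ∀ h ∈ H, |α (hT f (chRep ρ X n h c))| ≤ M := by
  induction c using Finsupp.induction_linear with
  | zero => exact ⟨0, le_rfl, fun h _ => by simp⟩
  | add c d hc hd =>
    obtain ⟨M, h0, h1⟩ := hc
    obtain ⟨M', h0', h1'⟩ := hd
    refine ⟨M + M', add_nonneg h0 h0', fun h hh => ?_⟩
    rw [map_add, map_add, map_add]
    exact (abs_add_le _ _).trans (add_le_add (h1 h hh) (h1' h hh))
  | single σ a =>
    have hfin : (Set.pi Set.univ (fun i : Fin n =>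
        {y : X | ∃ h ∈ H, y = h⁻¹ • f (h • σ i)})).Finite :=
      Set.Finite.pi' (fun i => hf1 (σ i)) |>.subset (fun x hx i => hx i (Set.mem_univ i))
    have hfin2 := hfin.image (fun τ : Fin n → X =>
      |α (ten a (hQ n (single (fun i => (σ i, τ i)) (1 : ℝ))))|)
    obtain ⟨M, hM⟩ := hfin2.bddAbove
    refine ⟨max M 0, le_max_right _ _, fun h hh => ?_⟩
    rw [rep_hT, hα h hh]
    refine le_trans (hM ?_) (le_max_left _ _)
    exact ⟨fun i => h⁻¹ • f (h • σ i), fun i _ => ⟨h, hh, rfl⟩, rfl⟩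

open Classical in
theorem small (f : X → X) (α : Ch X A (n + 1) →ₗ[ℝ] ℝ)
    (hα : ∀ h ∈ H, ∀ c, α (chRep ρ X (n + 1) h c) = α c)
    (hf1 : ∀ x : X, {y : X | ∃ h ∈ H, y = h⁻¹ • f (h • x)}.Finite) (w : Ch X A n)
    (hw : w ∈ aug (chRep ρ X n) H) :
    ∃ T : Finset Γ, (∀ t ∈ T, t ∈ H) ∧ ∃ M : ℝ, 0 ≤ M ∧ ∀ (F : Finset Γ) (ε : ℝ), 0 ≤ ε →
      (∀ h ∈ F, h ∈ H) → (∀ t ∈ T, ((F.image (fun x => x * t) \ F).card : ℝ) ≤ ε * F.card ∧
        ((F \ F.image (fun x => x * t)).card : ℝ) ≤ ε * F.card) →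
      |∑ h ∈ F, α (hT f (chRep ρ X n h w))| ≤ ε * F.card * M := by
  unfold aug at hw
  induction hw using Submodule.span_induction with
  | mem w hw =>
    obtain ⟨g, hg, d, rfl⟩ := hw
    obtain ⟨M, hM0, hM⟩ := bounded ρ H f α hα hf1 d
    refine ⟨{g}, fun t ht => by rw [Finset.mem_singleton.1 ht]; exact hg, 2 * M, by positivity, ?_⟩
    intro F ε hε hF hS
    obtain ⟨hT1, hT2⟩ := hS g (Finset.mem_singleton_self g)
    set b : Γ → ℝ := fun h => α (hT f (chRep ρ X n h d)) with hb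
    have e1 : ∑ h ∈ F, α (hT f (chRep ρ X n h (chRep ρ X n g d - d))) =
        ∑ k ∈ F.image (fun x => x * g), b k - ∑ k ∈ F, b k := by
      rw [Finset.sum_image (fun x _ y _ h => mul_right_cancel h), ← Finset.sum_sub_distrib]
      refine Finset.sum_congr rfl fun h _ => ?_
      rw [hb]
      simp only
      rw [map_sub, map_sub, map_sub, map_mul]
      rfl
    have e2 : ∑ k ∈ F.image (fun x => x * g), b k - ∑ k ∈ F, b k =
        ∑ k ∈ F.image (fun x => x * g) \ F, b k - ∑ k ∈ F \ F.image (fun x => x * g), b k := by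
      rw [Finset.sum_sdiff_sub_sum_sdiff]
    have e3 : |∑ k ∈ F.image (fun x => x * g) \ F, b k| ≤ (ε * F.card) * M := by
      refine (Finset.abs_sum_le_sum_abs _ _).trans ?_
      refine (Finset.sum_le_card_nsmul _ _ M ?_).trans ?_
      · intro k hk
        obtain ⟨x, hx, rfl⟩ := Finset.mem_image.1 (Finset.mem_sdiff.1 hk).1
        exact hM _ (mul_mem (hF x hx) hg)
      · rw [nsmul_eq_mul]
        exact mul_le_mul_of_nonneg_right hT1 hM0
    have e4 : |∑ k ∈ F \ F.image (fun x => x * g), b k| ≤ (ε * F.card) * M := by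
      refine (Finset.abs_sum_le_sum_abs _ _).trans ?_
      refine (Finset.sum_le_card_nsmul _ _ M ?_).trans ?_
      · intro k hk
        exact hM _ (hF k (Finset.mem_sdiff.1 hk).1)
      · rw [nsmul_eq_mul]
        exact mul_le_mul_of_nonneg_right hT2 hM0
    rw [e1, e2]
    refine (abs_sub _ _).trans ?_
    linarith
  | zero =>
    refine ⟨∅, by simp, 0, le_rfl, fun F ε _ _ _ => ?_⟩
    simp
  | add x y _ _ hx hy =>
    obtain ⟨T, hS, M, hM0, hM⟩ := hx
    obtain ⟨T', hS', M', hM0', hM'⟩ := hy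
    refine ⟨T ∪ T', ?_, M + M', add_nonneg hM0 hM0', fun F ε hε hF hb => ?_⟩
    · intro t ht
      rcases Finset.mem_union.1 ht with h | h
      · exact hS t h
      · exact hS' t h
    · have h1 := hM F ε hε hF (fun t ht => hb t (Finset.mem_union_left _ ht))
      have h2 := hM' F ε hε hF (fun t ht => hb t (Finset.mem_union_right _ ht))
      simp only [map_add, Finset.sum_add_distrib]
      refine (abs_add_le _ _).trans ?_
      linarith
  | smul a x _ hx =>
    obtain ⟨T, hS, M, hM0, hM⟩ := hx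
    refine ⟨T, hS, |a| * M, by positivity, fun F ε hε hF hb => ?_⟩
    have h1 := hM F ε hε hF hb
    simp only [map_smul, smul_eq_mul, ← Finset.mul_sum]
    rw [abs_mul]
    calc |a| * |∑ h ∈ F, α (hT f (chRep ρ X n h x))| ≤ |a| * (ε * F.card * M) :=
          mul_le_mul_of_nonneg_left h1 (abs_nonneg a)
      _ = ε * F.card * (|a| * M) := by ring

/-- vanishing of the homology modulo `H` of the chains which `f` makes degenerate -/
theorem core (hF : Folner H) (z : Ch X A (n + 1)) (hz : bd z ∈ aug (chRep ρ X n) H) (f : X → X)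
    (hf1 : ∀ x : X, {y : X | ∃ h ∈ H, y = h⁻¹ • f (h • x)}.Finite)
    (hf2 : ∀ h ∈ H, ∀ σ ∈ z.support, ¬ Function.Injective fun i => f (h • σ i)) :
    ∃ w : Ch X A (n + 2), z - bd w ∈ aug (chRep ρ X (n + 1)) H := by
  classical
  by_contra hcon
  set p : Submodule ℝ (Ch X A (n + 1)) :=
    LinearMap.range (bd : Ch X A (n + 2) →ₗ[ℝ] Ch X A (n + 1)) ⊔ aug (chRep ρ X (n + 1)) H with hp
  have hzp : z ∉ p := by
    intro h
    obtain ⟨y, ⟨w, rfl⟩, v, hv, hyv⟩ := Submodule.mem_sup.1 h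
    exact hcon ⟨w, by rw [← hyv]; simpa using hv⟩
  obtain ⟨α, hαz, hαp⟩ := Submodule.exists_le_ker_of_notMem hzp
  have hαbd : ∀ w : Ch X A (n + 2), α (bd w) = 0 := fun w =>
    hαp (Submodule.mem_sup_left ⟨w, rfl⟩)
  have hα : ∀ h ∈ H, ∀ c, α (chRep ρ X (n + 1) h c) = α c := by
    intro h hh c
    have h1 : chRep ρ X (n + 1) h c - c ∈ p :=
      Submodule.mem_sup_right (Submodule.subset_span ⟨h, hh, c, rfl⟩)
    have h2 : α (chRep ρ X (n + 1) h c - c) = 0 := hαp h1
    rw [map_sub] at h2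
    linarith
  have key : ∀ h ∈ H, α (hT f (chRep ρ X n h (bd z))) = α z := by
    intro h hh
    rw [← hα h hh z, ← hT_rep ρ f h z (hf2 h hh), map_add, hαbd, zero_add, bd_rep]
  obtain ⟨T, hS, M, hM0, hM⟩ := small ρ H f α hα hf1 (bd z) hz
  have hpos : 0 < |α z| := abs_pos.2 hαz
  obtain ⟨F, hFn, hFH, hFT⟩ := hF T hS (|α z| / (2 * (M + 1))) (by positivity)
  have h1 := hM F (|α z| / (2 * (M + 1))) (by positivity) hFH hFT
  rw [Finset.sum_congr rfl (fun h hh => key h (hFH h hh)), Finset.sum_const, nsmul_eq_mul,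
    abs_mul] at h1
  have hc : (0 : ℝ) < F.card := by exact_mod_cast Finset.card_pos.2 hFn
  rw [abs_of_pos hc] at h1
  have h2 : |α z| / (2 * (M + 1)) * F.card * M ≤ F.card * (|α z| / 2) := by
    have h3 : |α z| / (2 * (M + 1)) * M ≤ |α z| / 2 := by
      rw [div_mul_eq_mul_div, div_le_div_iff₀ (by positivity) (by positivity)]
      nlinarith
    calc |α z| / (2 * (M + 1)) * F.card * M = F.card * (|α z| / (2 * (M + 1)) * M) := by ring
      _ ≤ F.card * (|α z| / 2) := mul_le_mul_of_nonneg_left h3 hc.le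
  have h4 : (F.card : ℝ) * |α z| ≤ F.card * (|α z| / 2) := h1.trans h2
  have h5 := le_of_mul_le_mul_left h4 hc
  linarith

end

end Pool.Agent.Asd3
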