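import Mathlib
import Pool.Agent.Asd3.Van

/-!
# Foelner sets, vanishing over subgroups, and injectivity of `x - 1` modulo `aug`
-/

set_option autoImplicit false

namespace Pool.Agent.Asd3

open Finsupp
open scoped BigOperators

section folner
variable {Γ : Type*} [Group Γ] {ℓ : Γ → ℕ} {n : ℕ}

/-- the number of elements of `H` of length at most `r` -/
noncomputable def bt (ℓ : Γ → ℕ) (H : Subgroup Γ) (r : ℕ) : ℕ := Set.ncard {g | g ∈ H ∧ ℓ g ≤ r}

theorem bt_le (hT : Tame Γ ℓ n) (H : Subgroup Γ) (r : ℕ) :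
    bt ℓ H r ≤ Set.ncard {g | ℓ g ≤ r} :=
  Set.ncard_le_ncard (fun _ hg => hg.2) (hT.fin r)

theorem bt_fin (hT : Tame Γ ℓ n) (H : Subgroup Γ) (r : ℕ) : {g | g ∈ H ∧ ℓ g ≤ r}.Finite :=
  (hT.fin r).subset fun _ hg => hg.2

theorem bt_pos (hT : Tame Γ ℓ n) (H : Subgroup Γ) (r : ℕ) : 0 < bt ℓ H r := by
  unfold bt
  rw [Set.ncard_pos (bt_fin hT H r)]
  exact ⟨1, one_mem H, by rw [hT.one]; exact Nat.zero_le _⟩

/-- a radius at which the balls do not grow much -/
theorem slow (hT : Tame Γ ℓ n) (H : Subgroup Γ) (c : ℕ) (ε : ℝ) (hε : 0 < ε) :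
    ∃ r : ℕ, (bt ℓ H (r + c) : ℝ) ≤ (1 + ε) * bt ℓ H r := by
  by_contra hcon
  push Not at hcon
  have hmono : ∀ r r' : ℕ, r ≤ r' → bt ℓ H r ≤ bt ℓ H r' := fun r r' h =>
    Set.ncard_le_ncard (fun _ hg => ⟨hg.1, hg.2.trans h⟩) (bt_fin hT H r')
  have h1 : ∀ k : ℕ, (1 + ε) ^ k ≤ (bt ℓ H ((c + 1) * k) : ℝ) := by
    intro k
    induction k with
    | zero =>
      simp only [pow_zero, mul_zero]
      exact_mod_cast bt_pos hT H 0
    | succ k ih =>
      have h2 := hcon ((c + 1) * k)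
      have h3 : (bt ℓ H ((c + 1) * k + c) : ℝ) ≤ bt ℓ H ((c + 1) * (k + 1)) := by
        exact_mod_cast hmono _ _ (by rw [mul_add]; omega)
      calc (1 + ε) ^ (k + 1) = (1 + ε) * (1 + ε) ^ k := by ring
        _ ≤ (1 + ε) * bt ℓ H ((c + 1) * k) := mul_le_mul_of_nonneg_left ih (by positivity)
        _ ≤ _ := h2.le.trans h3
  have h1' : ∀ k : ℕ, (1 + ε) ^ (k + 1) < (bt ℓ H ((c + 1) * (k + 1)) : ℝ) := by
    intro k
    have h2 := hcon ((c + 1) * k)
    have h3 : (bt ℓ H ((c + 1) * k + c) : ℝ) ≤ bt ℓ H ((c + 1) * (k + 1)) := by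
      exact_mod_cast hmono _ _ (by rw [mul_add]; omega)
    calc (1 + ε) ^ (k + 1) = (1 + ε) * (1 + ε) ^ k := by ring
      _ ≤ (1 + ε) * bt ℓ H ((c + 1) * k) := mul_le_mul_of_nonneg_left (h1 k) (by positivity)
      _ < _ := h2
      _ ≤ _ := h3
  set b : ℝ := (1 + ε) ^ (((c + 1 : ℕ) : ℝ)⁻¹) with hb
  have hb1 : 1 < b := Real.one_lt_rpow (by linarith) (by positivity)
  have hb2 : b ^ (c + 1) = 1 + ε := Real.rpow_inv_natCast_pow (by positivity) (by omega)
  obtain ⟨N, hN⟩ := hT.grow b hb1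
  have h4 := hN ((c + 1) * (N + 1)) (by nlinarith)
  have h5 := h1' N
  rw [pow_mul, hb2] at h4
  have h6 : (bt ℓ H ((c + 1) * (N + 1)) : ℝ) ≤ (Set.ncard {g | ℓ g ≤ (c + 1) * (N + 1)} : ℕ) := by
    exact_mod_cast bt_le hT H _
  linarith

theorem Tame.folner (hT : Tame Γ ℓ n) (H : Subgroup Γ) : Folner H := by
  classical
  intro T hTH ε hε
  obtain ⟨r, hr⟩ := slow hT H (T.sup ℓ) ε hε
  set F : Finset Γ := (bt_fin hT H r).toFinset with hF
  have hFm : ∀ g, g ∈ F ↔ g ∈ H ∧ ℓ g ≤ r := fun g => by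
    rw [hF, Set.Finite.mem_toFinset]; rfl
  have hFc : F.card = bt ℓ H r := by
    rw [hF, bt, Set.ncard_eq_toFinset_card _ (bt_fin hT H r)]
  set F' : Finset Γ := (bt_fin hT H (r + T.sup ℓ)).toFinset with hF'
  have hFm' : ∀ g, g ∈ F' ↔ g ∈ H ∧ ℓ g ≤ r + T.sup ℓ := fun g => by
    rw [hF', Set.Finite.mem_toFinset]; rfl
  have hFc' : F'.card = bt ℓ H (r + T.sup ℓ) := by
    rw [hF', bt, Set.ncard_eq_toFinset_card _ (bt_fin hT H _)]
  refine ⟨F, ⟨1, (hFm 1).2 ⟨one_mem H, by rw [hT.one]; exact Nat.zero_le _⟩⟩,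
    fun h hh => ((hFm h).1 hh).1, fun t ht => ?_⟩
  have hsub : F.image (fun x => x * t) ⊆ F' := by
    intro g hg
    obtain ⟨x, hx, rfl⟩ := Finset.mem_image.1 hg
    obtain ⟨hx1, hx2⟩ := (hFm x).1 hx
    refine (hFm' _).2 ⟨mul_mem hx1 (hTH t ht), (hT.mul x t).trans ?_⟩
    exact add_le_add hx2 (Finset.le_sup ht)
  have hsub' : F ⊆ F' := by
    intro g hg
    obtain ⟨hx1, hx2⟩ := (hFm g).1 hg
    exact (hFm' _).2 ⟨hx1, hx2.trans (Nat.le_add_right _ _)⟩
  have h1 : (F.image (fun x => x * t) \ F).card + F.card ≤ F'.card := by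
    rw [← Finset.card_union_of_disjoint Finset.sdiff_disjoint]
    refine Finset.card_le_card ?_
    intro g hg
    rcases Finset.mem_union.1 hg with h | h
    · exact hsub (Finset.mem_sdiff.1 h).1
    · exact hsub' h
  have h2 : (F \ F.image (fun x => x * t)).card = (F.image (fun x => x * t) \ F).card := by
    have h3 : (F.image (fun x => x * t)).card = F.card :=
      Finset.card_image_of_injective _ (mul_left_injective t)
    exact Finset.card_sdiff_comm h3.symm
  have h4 : ((F.image (fun x => x * t) \ F).card : ℝ) ≤ ε * F.card := by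
    have h5 : ((F.image (fun x => x * t) \ F).card : ℝ) + F.card ≤ F'.card := by
      exact_mod_cast h1
    rw [← hFc, ← hFc'] at hr
    linarith
  exact ⟨h4, by rw [h2]; exact h4⟩

end folner

section vanish
variable {Γ : Type*} [Group Γ] {ℓ : Γ → ℕ} {n : ℕ}

/-- vanishing of the homology modulo `H` of `Γ` in degrees above `n`, arbitrary coefficients -/
theorem van_gen {A : Type*} [AddCommGroup A] [Module ℝ A] (ρ : Representation ℝ Γ A)
    (hfin : ∀ r : ℕ, {g | ℓ g ≤ r}.Finite)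
    (hasd : ∀ R : ℕ, ∃ D : ℕ, ∃ f : Γ → Γ, (∀ x, ℓ (x⁻¹ * f x) ≤ D) ∧
      ∀ σ : Fin (n + 2) → Γ, (∀ i j, ℓ ((σ i)⁻¹ * σ j) ≤ R) →
        ¬ Function.Injective fun i => f (σ i))
    (H : Subgroup Γ) (hF : Folner H) (k : ℕ) (hk : n ≤ k) (z : Ch Γ A (k + 2))
    (hz : bd z ∈ aug (chRep ρ Γ (k + 1)) H) :
    ∃ w : Ch Γ A (k + 3), z - bd w ∈ aug (chRep ρ Γ (k + 2)) H := by
  classical
  obtain ⟨D, f, hf1, hf2⟩ := hasd (z.support.sup fun σ => Finset.univ.sup fun i =>
    Finset.univ.sup fun j => ℓ ((σ i)⁻¹ * σ j))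
  refine core ρ H hF z hz f ?_ ?_
  · intro x
    refine ((hfin D).image fun y => x * y).subset ?_
    rintro y ⟨h, _, rfl⟩
    refine ⟨x⁻¹ * (h⁻¹ • f (h • x)), ?_, by simp⟩
    have := hf1 (h • x)
    simp only [smul_eq_mul, mul_inv_rev, Set.mem_ofPred_eq] at this ⊢
    rwa [← mul_assoc]
  · intro h _ σ hσ hinj
    have h1 : ∀ i j, ℓ ((σ i)⁻¹ * σ j) ≤ z.support.sup fun σ => Finset.univ.sup fun i =>
        Finset.univ.sup fun j => ℓ ((σ i)⁻¹ * σ j) := by
      intro i j
      refine le_trans ?_ (Finset.le_sup hσ)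
      refine le_trans ?_ (Finset.le_sup (Finset.mem_univ i))
      exact Finset.le_sup (f := fun j => ℓ ((σ i)⁻¹ * σ j)) (Finset.mem_univ j)
    have hle : n + 2 ≤ k + 2 := by omega
    refine hf2 (fun i => h • σ (Fin.castLE hle i)) ?_ ?_
    · intro i j
      simp only [smul_eq_mul, mul_inv_rev]
      rw [mul_assoc, inv_mul_cancel_left]
      exact h1 _ _
    · exact hinj.comp (Fin.castLE_injective hle)

theorem Tame.van {A : Type*} [AddCommGroup A] [Module ℝ A] (ρ : Representation ℝ Γ A)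
    (hT : Tame Γ ℓ n) (H : Subgroup Γ) (k : ℕ) (hk : n ≤ k) (z : Ch Γ A (k + 2))
    (hz : bd z ∈ aug (chRep ρ Γ (k + 1)) H) :
    ∃ w : Ch Γ A (k + 3), z - bd w ∈ aug (chRep ρ Γ (k + 2)) H :=
  van_gen ρ hT.fin hT.asd H (hT.folner H) k hk z hz

end vanish

section orbits
variable {Γ : Type*} [Group Γ] (H : Subgroup Γ) (k : ℕ)

/-- orbits of the left multiplication by `H` on tuples -/
def orb : Setoid (Fin k → Γ) where
  r σ τ := ∃ h ∈ H, τ = fun i => h * σ i
  iseqv :=
    { refl := fun σ => ⟨1, one_mem H, by simp⟩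
      symm := by
        rintro σ τ ⟨h, hh, rfl⟩
        exact ⟨h⁻¹, inv_mem hh, by simp⟩
      trans := by
        rintro σ τ υ ⟨h, hh, rfl⟩ ⟨h', hh', rfl⟩
        exact ⟨h' * h, mul_mem hh' hh, by simp [mul_assoc]⟩ }

/-- the chains on the orbits -/
noncomputable def prj : Ch Γ ℝ k →ₗ[ℝ] (Quotient (orb H k) →₀ ℝ) :=
  Finsupp.lmapDomain ℝ ℝ (Quotient.mk (orb H k))

variable {H k}

@[simp] theorem prj_single (σ : Fin k → Γ) (a : ℝ) :
    prj H k (single σ a) = single (Quotient.mk (orb H k) σ) a := by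
  simp [prj, mapDomain_single]

theorem aug_iff (c : Ch Γ ℝ k) : c ∈ aug (cR Γ k) H ↔ prj H k c = 0 := by
  constructor
  · intro hc
    unfold aug at hc
    induction hc using Submodule.span_induction with
    | mem x hx =>
      obtain ⟨h, hh, d, rfl⟩ := hx
      rw [map_sub, sub_eq_zero]
      refine lext (f := prj H k ∘ₗ cR Γ k h) (g := prj H k) (fun σ a => ?_) d
      simp only [LinearMap.comp_apply, cR_single, prj_single]
      congr 1
      exact (Quotient.sound (⟨h, hh, rfl⟩ : (orb H k).r σ fun i => h * σ i)).symm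
    | zero => simp
    | add x y _ _ hx hy => rw [map_add, hx, hy, add_zero]
    | smul a x _ hx => rw [map_smul, hx, smul_zero]
  · intro hc
    have key : ∀ d : Ch Γ ℝ k, d - Finsupp.lmapDomain ℝ ℝ Quotient.out (prj H k d) ∈
        aug (cR Γ k) H := by
      intro d
      induction d using Finsupp.induction_linear with
      | zero => simp
      | add c d hc hd =>
        rw [map_add, map_add, add_sub_add_comm]
        exact add_mem hc hd
      | single σ a =>
        rw [prj_single, Finsupp.lmapDomain_apply, mapDomain_single]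
        have h1 : (orb H k).r σ (Quotient.mk (orb H k) σ).out :=
          (orb H k).symm (Quotient.mk_out (s := orb H k) σ)
        obtain ⟨h, hh, he⟩ := h1
        rw [he]
        have h2 : single σ a - single (fun i => h * σ i) a = -(cR Γ k h (single σ a) -
            single σ a) := by
          rw [cR_single]; abel
        rw [h2]
        exact neg_mem (Submodule.subset_span ⟨h, hh, _, rfl⟩)
    have := key c
    rwa [hc, map_zero, sub_zero] at this

end orbits

/-- `H` is the semidirect product of `H0` and the infinite cyclic group generated by `x` -/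
structure ZExt {Γ : Type*} [Group Γ] (H H0 : Subgroup Γ) (x : Γ) : Prop where
  le : H0 ≤ H
  mem : x ∈ H
  conj : ∀ h ∈ H0, x * h * x⁻¹ ∈ H0
  conj' : ∀ h ∈ H0, x⁻¹ * h * x ∈ H0
  split : ∀ h ∈ H, ∃ j : ℤ, ∃ h0 ∈ H0, h = h0 * x ^ j
  inj : ∀ j : ℕ, 0 < j → x ^ j ∉ H0

section inject
variable {Γ : Type*} [Group Γ] {H H0 : Subgroup Γ} {x : Γ}

/-- `x - 1` is injective modulo `aug` on chains -/
theorem inj_ch (hZ : ZExt H H0 x) (k : ℕ) (c : Ch Γ ℝ (k + 1))
    (hc : cR Γ (k + 1) x c - c ∈ aug (cR Γ (k + 1)) H0) : c ∈ aug (cR Γ (k + 1)) H0 := by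
  rw [aug_iff] at hc ⊢
  rw [map_sub, sub_eq_zero] at hc
  let T : Quotient (orb H0 (k + 1)) → Quotient (orb H0 (k + 1)) :=
    Quotient.map (fun σ i => x * σ i) (by
      rintro σ τ ⟨h, hh, rfl⟩
      exact ⟨x * h * x⁻¹, hZ.conj h hh, by funext i; simp [mul_assoc]⟩)
  have hTm : ∀ σ, T (Quotient.mk _ σ) = Quotient.mk _ (fun i => x * σ i) := fun σ => rfl
  have hTinj : Function.Injective T := by
    intro p q
    induction p using Quotient.inductionOn with
    | h σ =>
      induction q using Quotient.inductionOn with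
      | h τ =>
        intro he
        rw [hTm, hTm] at he
        obtain ⟨h, hh, he⟩ := Quotient.exact he
        refine Quotient.sound ⟨x⁻¹ * h * x, hZ.conj' h hh, ?_⟩
        funext i
        have := congrFun he i
        simp only at this
        rw [mul_assoc, mul_assoc, ← this]
        simp
  have hfix : ∀ (j : ℕ) (p : Quotient (orb H0 (k + 1))), 0 < j → T^[j] p ≠ p := by
    intro j p hj
    induction p using Quotient.inductionOn with
    | h σ =>
      have h1 : ∀ j : ℕ, T^[j] (Quotient.mk _ σ) = Quotient.mk _ (fun i => x ^ j * σ i) := by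
        intro j
        induction j with
        | zero => simp
        | succ j ih =>
          rw [Function.iterate_succ_apply', ih, hTm]
          simp only [pow_succ', mul_assoc]
      rw [h1]
      intro he
      obtain ⟨h, hh, he⟩ := Quotient.exact he
      have h2 := congrFun he 0
      simp only at h2
      have h3 : h * x ^ j = 1 := by
        have h4 : h * x ^ j * σ 0 = 1 * σ 0 := by rw [one_mul, mul_assoc]; exact h2.symm
        exact mul_right_cancel h4
      have h5 : x ^ j = h⁻¹ := eq_inv_of_mul_eq_one_right h3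
      exact hZ.inj j hj (by rw [h5]; exact inv_mem hh)
  set d := prj H0 (k + 1) c with hd
  have h1 : Finsupp.mapDomain T d = d := by
    have : ∀ c : Ch Γ ℝ (k + 1), Finsupp.lmapDomain ℝ ℝ T (prj H0 (k + 1) c) =
        prj H0 (k + 1) (cR Γ (k + 1) x c) := by
      intro c
      refine lext (f := Finsupp.lmapDomain ℝ ℝ T ∘ₗ prj H0 (k + 1))
        (g := prj H0 (k + 1) ∘ₗ cR Γ (k + 1) x) (fun σ a => ?_) c
      simp only [LinearMap.comp_apply, cR_single, prj_single, Finsupp.lmapDomain_apply,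
        mapDomain_single, hTm]
    exact (this c).trans hc
  have h2 : ∀ p, d (T p) = d p := by
    intro p
    conv_lhs => rw [← h1]
    exact Finsupp.mapDomain_apply hTinj d p
  ext p
  rw [Finsupp.zero_apply]
  by_contra hne
  have h3 : ∀ j : ℕ, d (T^[j] p) = d p := by
    intro j
    induction j with
    | zero => rfl
    | succ j ih => rw [Function.iterate_succ_apply', h2, ih]
  have h4 : Function.Injective fun j : ℕ => T^[j] p := by
    have aux : ∀ i j : ℕ, i < j → T^[i] p ≠ T^[j] p := by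
      intro i j hij he
      have h5 : T^[j] p = T^[i] (T^[j - i] p) := by
        rw [← Function.iterate_add_apply]
        congr 2
        omega
      rw [h5] at he
      exact hfix (j - i) p (by omega) ((hTinj.iterate i) he).symm
    intro i j he
    rcases lt_trichotomy i j with h | h | h
    · exact absurd he (aux i j h)
    · exact h
    · exact absurd he.symm (aux j i h)
  refine (Set.infinite_range_of_injective h4) ((d.support.finite_toSet).subset ?_)
  rintro q ⟨j, rfl⟩
  simp only [Finset.mem_coe, Finsupp.mem_support_iff]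
  rw [h3]
  exact hne

/-- decomposition of `aug H` -/
theorem aug_split {M : Type*} [AddCommGroup M] [Module ℝ M] (ρ : Representation ℝ Γ M)
    (hZ : ZExt H H0 x) (c : M) (hc : c ∈ aug ρ H) :
    ∃ e ∈ aug ρ H0, ∃ d : M, c = e + (ρ x d - d) := by
  set L : Submodule ℝ M := aug ρ H0 ⊔ LinearMap.range (ρ x - 1) with hL
  have hS : ∀ h ∈ H, ∀ d, ρ h d - d ∈ L := by
    have hx : ∀ d, ρ x d - d ∈ L := fun d => Submodule.mem_sup_right ⟨d, by simp⟩
    let S : Subgroup Γ :=
      { carrier := {h | ∀ d, ρ h d - d ∈ L}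
        one_mem' := fun d => by simp
        mul_mem' := by
          intro g h hg hh d
          have : ρ (g * h) d - d = (ρ g (ρ h d) - ρ h d) + (ρ h d - d) := by
            rw [map_mul]
            simp
          rw [this]
          exact add_mem (hg _) (hh _)
        inv_mem' := by
          intro g hg d
          have : ρ g⁻¹ d - d = -(ρ g (ρ g⁻¹ d) - ρ g⁻¹ d) := by
            have h1 : ρ g (ρ g⁻¹ d) = d := by
              rw [← Module.End.mul_apply, ← map_mul, mul_inv_cancel, map_one]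
              rfl
            rw [h1]
            abel
          rw [this]
          exact neg_mem (hg _) }
    have hxS : x ∈ S := hx
    intro h hh
    obtain ⟨j, h0, hh0, rfl⟩ := hZ.split h hh
    have h0S : h0 ∈ S := fun d => Submodule.mem_sup_left (Submodule.subset_span ⟨h0, hh0, d, rfl⟩)
    exact mul_mem h0S (zpow_mem hxS j)
  have hle : aug ρ H ≤ L := by
    unfold aug
    rw [Submodule.span_le]
    rintro _ ⟨h, hh, d, rfl⟩
    exact hS h hh d
  obtain ⟨e, he, _, ⟨d, rfl⟩, hd⟩ := Submodule.mem_sup.1 (hle hc)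
  exact ⟨e, he, d, by rw [← hd]; simp⟩

/-- `x - 1` is injective on the chains modulo boundaries and `aug` -/
theorem inj_bd {ℓ : Γ → ℕ} (hT : Tame Γ ℓ 2) (hZ : ZExt H H0 x) (y : Ch Γ ℝ 3)
    (hy : cR Γ 3 x y - y ∈ LinearMap.range (bd : Ch Γ ℝ 4 →ₗ[ℝ] Ch Γ ℝ 3) ⊔ aug (cR Γ 3) H0) :
    y ∈ LinearMap.range (bd : Ch Γ ℝ 4 →ₗ[ℝ] Ch Γ ℝ 3) ⊔ aug (cR Γ 3) H0 := by
  obtain ⟨_, ⟨w, rfl⟩, a, ha, hwa⟩ := Submodule.mem_sup.1 hy
  have h1 : bd w ∈ aug (cR Γ 3) H := by
    have : bd w = (cR Γ 3 x y - y) - a := by rw [← hwa]; abel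
    rw [this]
    exact sub_mem (Submodule.subset_span ⟨x, hZ.mem, y, rfl⟩) (aug_mono hZ.le ha)
  obtain ⟨v, hv⟩ := Tame.van (triv Γ) hT H 2 le_rfl w h1
  obtain ⟨e, he, d, hd⟩ := aug_split (cR Γ 4) hZ _ hv
  have h2 : bd w = bd e + (cR Γ 3 x (bd d) - bd d) := by
    have h3 : bd (w - bd v) = bd e + (cR Γ 3 x (bd d) - bd d) := by
      rw [hd, map_add, map_sub]
      congr 2
      exact bd_rep (triv Γ) x d
    rw [map_sub, bd_bd, sub_zero] at h3
    exact h3
  have h4 : cR Γ 3 x (y - bd d) - (y - bd d) ∈ aug (cR Γ 3) H0 := by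
    have h5 : cR Γ 3 x (y - bd d) - (y - bd d) = bd e + a := by
      rw [map_sub]
      have : cR Γ 3 x (y) = bd w + a + y := by rw [hwa]; abel
      rw [this, h2]
      abel
    rw [h5]
    exact add_mem (aug_bd (triv Γ) he) ha
  have h6 := inj_ch hZ 2 _ h4
  have h7 : y = bd d + (y - bd d) := by abel
  rw [h7]
  exact add_mem (Submodule.mem_sup_left ⟨d, rfl⟩) (Submodule.mem_sup_right h6)

end inject

end Pool.Agent.Asd3
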