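import Mathlib
import Pool.Agent.Asd3.Targets
import Pool.Agent.Asd3.Wang
import Pool.Agent.Asd3.CONS
import Pool.Agent.Asd3.RANK
import Pool.Agent.Asd3.LAM
import Pool.Agent.Asd3.TR

/-!
# The contradiction in asymptotic dimension two
-/

set_option autoImplicit false

namespace Pool.Agent.Asd3

open Finsupp
open scoped BigOperators

/-- tameness passes to subgroups -/
theorem Tame.sub {Γ : Type*} [Group Γ] {ℓ : Γ → ℕ} {n : ℕ} (hT : Tame Γ ℓ n) (H : Subgroup Γ) :
    Tame H (fun h => ℓ h) n := by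
  classical
  refine ⟨hT.one, fun g => hT.inv g, fun g h => hT.mul g h, ?_, ?_, ?_⟩
  · intro r
    exact (hT.fin r).preimage (Subtype.val_injective.injOn)
  · intro b hb
    obtain ⟨N, hN⟩ := hT.grow b hb
    refine ⟨N, fun r hr => le_trans ?_ (hN r hr)⟩
    have h1 : Set.ncard {g : H | ℓ g ≤ r} ≤ Set.ncard {g | ℓ g ≤ r} := by
      refine Set.ncard_le_ncard_of_injOn (fun g : H => (g : Γ)) (fun g hg => hg)
        (Subtype.val_injective.injOn) (hT.fin r)
    exact_mod_cast h1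
  · intro R
    obtain ⟨D, f, hf1, hf2⟩ := hT.asd R
    have hex : ∀ x : H, ∃ y : H, f y = f x := fun x => ⟨x, rfl⟩
    let F : Γ → H := fun p => if h : ∃ y : H, f y = p then h.choose else 1
    have hF : ∀ x : H, f (F (f x)) = f x := by
      intro x
      have h : ∃ y : H, f y = f x := ⟨x, rfl⟩
      simp only [F]
      rw [dif_pos h]
      exact h.choose_spec
    refine ⟨D + D, fun x => F (f x), fun x => ?_, fun σ hσ hinj => ?_⟩
    · have h1 := hf1 x
      have h2 := hf1 (F (f x))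
      rw [hF] at h2
      have h3 : ((x⁻¹ * F (f x) : H) : Γ) = ((x : Γ)⁻¹ * f x) * (((F (f x) : H) : Γ)⁻¹ * f x)⁻¹ := by
        simp [mul_assoc]
      rw [h3]
      refine (hT.mul _ _).trans (add_le_add h1 ?_)
      rw [hT.inv]
      exact h2
    · refine hf2 (fun i => (σ i : Γ)) (fun i j => hσ i j) ?_
      intro i j hij
      refine hinj ?_
      simp only at hij ⊢
      rw [hij]

/-- local indicability passes to subgroups -/
theorem LocInd.sub {Γ : Type*} [Group Γ] (h : LocInd Γ) (N : Subgroup Γ) : LocInd N := by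
  intro H hH hne
  obtain ⟨S, hS⟩ := hH
  have h1 : (H.map N.subtype).FG := by
    classical
    exact ⟨S.image N.subtype, by rw [Finset.coe_image, ← MonoidHom.map_closure, hS]⟩
  have h2 : H.map N.subtype ≠ ⊥ := by
    rwa [Ne, Subgroup.map_eq_bot_iff_of_injective _ N.subtype_injective]
  obtain ⟨f, hf⟩ := h _ h1 h2
  let e : H ≃* H.map N.subtype := H.equivMapOfInjective N.subtype N.subtype_injective
  refine ⟨f.comp e.toMonoidHom, fun hcon => hf ?_⟩
  ext x
  obtain ⟨y, rfl⟩ := e.surjective x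
  have := DFunLike.congr_fun hcon y
  simpa using this

/-- locally indicable groups are torsion free -/
theorem LocInd.tf {Γ : Type*} [Group Γ] (h : LocInd Γ) (g : Γ) (hg : g ≠ 1) :
    ¬ IsOfFinOrder g := by
  intro hfin
  obtain ⟨f, hf⟩ := h (Subgroup.zpowers g) ⟨{g}, by simp [Subgroup.zpowers_eq_closure]⟩
    (by rwa [Ne, Subgroup.zpowers_eq_bot])
  obtain ⟨n, hn, hgn⟩ := isOfFinOrder_iff_pow_eq_one.1 hfin
  refine hf (MonoidHom.ext fun x => ?_)
  have h0 : x ^ n = 1 := by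
    obtain ⟨k, hk⟩ := Subgroup.mem_zpowers_iff.1 x.2
    ext
    rw [Subgroup.coe_pow, ← hk, Subgroup.coe_one, ← zpow_natCast, ← zpow_mul, mul_comm, zpow_mul,
      zpow_natCast, hgn, one_zpow]
  have h1 : (f x) ^ n = 1 := by rw [← map_pow, h0, map_one]
  have h2 : (n : ℤ) * Multiplicative.toAdd (f x) = 0 := by
    have := congrArg Multiplicative.toAdd h1
    simpa using this
  have h3 : Multiplicative.toAdd (f x) = 0 := by
    rcases mul_eq_zero.1 h2 with h | h
    · omega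
    · exact h
  exact h3

section quot
variable {Γ M : Type*} [Group Γ] [AddCommGroup M] [Module ℝ M]

/-- the representation on a quotient -/
def qrep (ρ : Representation ℝ Γ M) (R : Submodule ℝ M) (hR : ∀ g, R ≤ R.comap (ρ g)) :
    Representation ℝ Γ (M ⧸ R) where
  toFun g := R.mapQ R (ρ g) (hR g)
  map_one' := by
    ext m
    simp
  map_mul' g h := by
    ext m
    simp

theorem qrep_mk (ρ : Representation ℝ Γ M) (R : Submodule ℝ M) (hR : ∀ g, R ≤ R.comap (ρ g))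
    (g : Γ) (m : M) : qrep ρ R hR g (R.mkQ m) = R.mkQ (ρ g m) := rfl

theorem aug_q (ρ : Representation ℝ Γ M) (R : Submodule ℝ M) (hR : ∀ g, R ≤ R.comap (ρ g))
    (H : Subgroup Γ) (m : M) : R.mkQ m ∈ aug (qrep ρ R hR) H ↔ m ∈ R ⊔ aug ρ H := by
  have h1 : aug (qrep ρ R hR) H = (aug ρ H).map R.mkQ := by
    unfold aug
    rw [Submodule.map_span]
    congr 1
    ext c
    constructor
    · rintro ⟨h, hh, d, rfl⟩
      obtain ⟨d, rfl⟩ := R.mkQ_surjective d
      exact ⟨ρ h d - d, ⟨h, hh, d, rfl⟩, by rw [map_sub, qrep_mk]⟩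
    · rintro ⟨_, ⟨h, hh, d, rfl⟩, rfl⟩
      exact ⟨h, hh, R.mkQ d, by rw [map_sub, qrep_mk]⟩
  rw [h1, ← Submodule.mem_comap, Submodule.comap_map_mkQ]

/-- restriction to a subgroup -/
theorem aug_res (ρ : Representation ℝ Γ M) (N : Subgroup Γ) (K : Subgroup N) :
    aug (MonoidHom.comp ρ N.subtype : Representation ℝ N M) K = aug ρ (K.map N.subtype) := by
  unfold aug
  congr 1
  ext c
  constructor
  · rintro ⟨h, hh, d, rfl⟩
    exact ⟨h, ⟨h, hh, rfl⟩, d, rfl⟩
  · rintro ⟨_, ⟨h, hh, rfl⟩, d, rfl⟩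
    exact ⟨h, hh, d, rfl⟩

end quot

/-- the group generated by the kernel and an element of value one -/
theorem zext_of {Γ : Type*} [Group Γ] (N : Subgroup Γ) (H : Subgroup N)
    (χ : H →* Multiplicative ℤ) (x : H) (hx : χ x = Multiplicative.ofAdd 1) :
    ZExt (H.map N.subtype) ((χ.ker.map H.subtype).map N.subtype) ((x : N) : Γ) := by
  have hmem : ∀ g : Γ, g ∈ (χ.ker.map H.subtype).map N.subtype ↔
      ∃ h : H, χ h = 1 ∧ ((h : N) : Γ) = g := by
    intro g
    constructor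
    · rintro ⟨_, ⟨h, hh, rfl⟩, rfl⟩
      exact ⟨h, hh, rfl⟩
    · rintro ⟨h, hh, rfl⟩
      exact ⟨_, ⟨h, hh, rfl⟩, rfl⟩
  refine ⟨?_, ⟨x, x.2, rfl⟩, ?_, ?_, ?_, ?_⟩
  · rintro _ ⟨_, ⟨h, hh, rfl⟩, rfl⟩
    exact ⟨h, h.2, rfl⟩
  · intro g hg
    obtain ⟨h, hh, rfl⟩ := (hmem g).1 hg
    exact (hmem _).2 ⟨x * h * x⁻¹, by simp [hh], rfl⟩
  · intro g hg
    obtain ⟨h, hh, rfl⟩ := (hmem g).1 hg
    exact (hmem _).2 ⟨x⁻¹ * h * x, by simp [hh], rfl⟩
  · rintro _ ⟨h, hh, rfl⟩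
    refine ⟨Multiplicative.toAdd (χ ⟨h, hh⟩), _, (hmem _).2 ⟨⟨h, hh⟩ * x ^
      (-Multiplicative.toAdd (χ ⟨h, hh⟩)), ?_, rfl⟩, ?_⟩
    · rw [map_mul, map_zpow, hx, ← ofAdd_zsmul]
      apply Multiplicative.toAdd.injective
      simp
    · simp
  · intro j hj hcon
    obtain ⟨h, hh, he⟩ := (hmem _).1 hcon
    have h1 : h = x ^ j := by
      ext
      rw [he]
      simp
    rw [h1, map_pow, hx] at hh
    have h2 := congrArg Multiplicative.toAdd hh
    simp at h2
    omega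

theorem zext_top {Γ : Type*} [Group Γ] (b : Γ →* Multiplicative ℤ) (t : Γ)
    (ht : b t = Multiplicative.ofAdd 1) : ZExt ⊤ b.ker t := by
  refine ⟨le_top, trivial, ?_, ?_, ?_, ?_⟩
  · intro h hh
    rw [MonoidHom.mem_ker] at hh ⊢
    simp [hh]
  · intro h hh
    rw [MonoidHom.mem_ker] at hh ⊢
    simp [hh]
  · intro h _
    refine ⟨Multiplicative.toAdd (b h), h * t ^ (-Multiplicative.toAdd (b h)), ?_, by simp⟩
    rw [MonoidHom.mem_ker, map_mul, map_zpow, ht, ← ofAdd_zsmul]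
    apply Multiplicative.toAdd.injective
    simp
  · intro j hj hcon
    rw [MonoidHom.mem_ker, map_pow, ht] at hcon
    have h2 := congrArg Multiplicative.toAdd hcon
    simp at h2
    omega

/-- The main contradiction: the data of LAM do not exist in asymptotic dimension two. -/
theorem main (Γ : Type) [Group Γ] (ℓ : Γ → ℕ) (hLI : LocInd Γ) (hT : Tame Γ ℓ 2)
    (a b : Γ →* Multiplicative ℤ) (s t : Γ) (φ ψ : Γ → ℝ) (c : Γ →₀ ℝ)
    (has : a s = Multiplicative.ofAdd 1) (hbs : b s = 1) (hat : a t = 1)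
    (hbt : b t = Multiplicative.ofAdd 1) (hfg : b.ker.FG)
    (hφ : ∀ k ∈ a.ker ⊓ b.ker, ∀ k' ∈ a.ker ⊓ b.ker, φ (k * k') = φ k + φ k')
    (hψ : ∀ k ∈ a.ker ⊓ b.ker, ∀ k' ∈ a.ker ⊓ b.ker, ψ (k * k') = ψ k + ψ k')
    (hφψ : ∀ k ∈ a.ker ⊓ b.ker, φ (t * k * t⁻¹) = φ k + ψ (s * k * s⁻¹) - ψ k)
    (hc : ∀ k ∈ c.support, k ∈ a.ker ⊓ b.ker)
    (hcχ : ∀ χ : Γ → ℝ, (∀ k ∈ a.ker ⊓ b.ker, ∀ k' ∈ a.ker ⊓ b.ker, χ (k * k') = χ k + χ k') →
      (c.sum fun k x => x * (χ (s * k * s⁻¹) - χ k)) = 0)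
    (hcφ : (c.sum fun k x => x * φ k) ≠ 0) : False := by
  classical
  obtain ⟨Lam, hL1, hL2, hL3, u₀, hu₀, hLu⟩ :=
    p_LAM Γ a b s t φ ψ c has hbs hat hbt hφ hψ hφψ hc hcχ hcφ
  set N := b.ker with hN
  set R : Submodule ℝ (Ch Γ ℝ 3) := LinearMap.range (bd : Ch Γ ℝ 4 →ₗ[ℝ] Ch Γ ℝ 3) with hR
  set L : Submodule ℝ (Ch Γ ℝ 3) := R ⊔ aug (cR Γ 3) N with hL
  have hLamL : ∀ y ∈ L, Lam y = 0 := by
    intro y hy
    obtain ⟨_, ⟨w, rfl⟩, z, hz, rfl⟩ := Submodule.mem_sup.1 hy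
    rw [map_add, hL1, hL2 z hz, add_zero]
  have hRinv : ∀ g : Γ, R ≤ R.comap (cR Γ 3 g) := by
    rintro g _ ⟨w, rfl⟩
    exact ⟨cR Γ 4 g w, bd_rep (triv Γ) g w⟩
  have hnorm : ∀ h ∈ N, t * h * t⁻¹ ∈ N := fun h hh => (MonoidHom.normal_ker b).conj_mem h hh t
  have haugt : ∀ (k : ℕ) (z : Ch Γ ℝ k), z ∈ aug (cR Γ k) N → cR Γ k t z ∈ aug (cR Γ k) N := by
    intro k z hz
    unfold aug at hz
    induction hz using Submodule.span_induction with
    | mem x hx =>
      obtain ⟨h, hh, d, rfl⟩ := hx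
      have h1 : cR Γ k t (cR Γ k h d - d) = cR Γ k (t * h * t⁻¹) (cR Γ k t d) - cR Γ k t d := by
        rw [map_sub]
        congr 1
        rw [← Module.End.mul_apply, ← Module.End.mul_apply, ← map_mul, ← map_mul]
        congr 2
        simp
      rw [h1]
      exact Submodule.subset_span ⟨t * h * t⁻¹, hnorm h hh, _, rfl⟩
    | zero => simp
    | add x y _ _ hx hy => rw [map_add]; exact add_mem hx hy
    | smul r x _ hx => rw [map_smul]; exact Submodule.smul_mem _ _ hx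
  -- the powers of `t` on `u₀`
  have hpow : ∀ i : ℕ, bd (cR Γ 3 (t ^ i) u₀) ∈ aug (cR Γ 2) N ∧
      Lam (cR Γ 3 (t ^ i) u₀) = Lam u₀ := by
    intro i
    induction i with
    | zero => simpa using hu₀
    | succ i ih =>
      obtain ⟨h1, h2⟩ := ih
      have h3 : cR Γ 3 (t ^ (i + 1)) u₀ = cR Γ 3 t (cR Γ 3 (t ^ i) u₀) := by
        rw [pow_succ', map_mul]
        rfl
      refine ⟨?_, ?_⟩
      · rw [h3]
        have h4 : bd (cR Γ 3 t (cR Γ 3 (t ^ i) u₀)) = cR Γ 2 t (bd (cR Γ 3 (t ^ i) u₀)) :=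
          bd_rep (triv Γ) t _
        rw [h4]
        exact haugt 2 _ h1
      · rw [h3, hL3 _ h1, h2]
  -- no polynomial relation modulo `L`
  have hpoly : ∀ (n : ℕ) (p : Polynomial ℝ), p ≠ 0 → p.natDegree = n →
      Polynomial.aeval (cR Γ 3 t : Module.End ℝ (Ch Γ ℝ 3)) p u₀ ∉ L := by
    have hev : ∀ p : Polynomial ℝ, Lam (Polynomial.aeval (cR Γ 3 t :
        Module.End ℝ (Ch Γ ℝ 3)) p u₀) = p.eval 1 * Lam u₀ := by
      intro p
      induction p using Polynomial.induction_on' with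
      | add p q hp hq =>
        rw [map_add, LinearMap.add_apply, map_add, hp, hq, Polynomial.eval_add, add_mul]
      | monomial i r =>
        rw [Polynomial.aeval_monomial, Module.End.mul_apply, ← map_pow,
          Module.algebraMap_end_apply, map_smul, (hpow i).2]
        simp
    intro n
    induction n using Nat.strong_induction_on with
    | _ n ih =>
      intro p hp hn hmem
      have h1 : p.eval 1 = 0 := by
        have := hev p
        rw [hLamL _ hmem] at this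
        rcases mul_eq_zero.1 this.symm with h | h
        · exact h
        · exact absurd h hLu
      obtain ⟨q, hq⟩ := Polynomial.dvd_iff_isRoot.2 h1
      have hq0 : q ≠ 0 := by
        rintro rfl
        exact hp (by rw [hq, mul_zero])
      have hdeg : q.natDegree < n := by
        rw [← hn, hq, Polynomial.natDegree_mul (Polynomial.X_sub_C_ne_zero 1) hq0,
          Polynomial.natDegree_X_sub_C]
        omega
      refine ih _ hdeg q hq0 rfl (inj_bd hT (zext_top b t hbt) _ ?_)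
      have h2 : cR Γ 3 t (Polynomial.aeval (cR Γ 3 t : Module.End ℝ (Ch Γ ℝ 3)) q u₀) -
          Polynomial.aeval (cR Γ 3 t : Module.End ℝ (Ch Γ ℝ 3)) q u₀ =
          Polynomial.aeval (cR Γ 3 t : Module.End ℝ (Ch Γ ℝ 3)) p u₀ := by
        rw [hq, map_mul, Module.End.mul_apply]
        simp
      rw [h2]
      exact hmem
  -- generators of the kernel
  obtain ⟨S, hS⟩ := Group.fg_def.1 ((Group.fg_iff_subgroup_fg N).2 hfg)
  set m := S.card with hm
  let sg : Fin m → N := fun i => (S.equivFin.symm i : N)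
  have hrange : Set.range sg = (S : Set N) := by
    ext x
    constructor
    · rintro ⟨i, rfl⟩
      exact (S.equivFin.symm i).2
    · intro hx
      exact ⟨S.equivFin ⟨x, hx⟩, by simp [sg]⟩
  have hgen : Subgroup.closure (Set.range sg) = ⊤ := by rw [hrange, hS]
  have hne : ∃ j, sg j ≠ 1 := by
    by_contra hcon
    push Not at hcon
    have h1 : Subgroup.closure (Set.range sg) ≤ ⊥ := by
      rw [Subgroup.closure_le]
      rintro _ ⟨j, rfl⟩
      exact hcon j
    rw [hgen] at h1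
    have h2 : (⟨s, hbs⟩ : N) = 1 := h1 (Subgroup.mem_top (⟨s, hbs⟩ : N))
    have h3 : s = 1 := congrArg Subtype.val h2
    rw [h3, map_one] at has
    have h4 := congrArg Multiplicative.toAdd has
    simp at h4
  obtain ⟨u', r, hu', hr, hv⟩ := p_TR Γ N m m sg hgen (fun i => cR Γ 3 (t ^ (i : ℕ)) u₀)
    (fun i => (hpow i).1)
  have hdep : ∃ v : Fin m → MonoidAlgebra ℝ N, (∀ j, ∑ i, v i * r i j = 0) ∧ v ≠ 0 := by
    by_contra hcon
    push Not at hcon
    have := p_RANK N (fun h => ℓ h) 2 (hT.sub N) (fun g hg => (hLI.sub N).tf g hg) m m sg hne r hr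
      hcon
    omega
  obtain ⟨v, hv1, hv0⟩ := hdep
  have hv2 := hv v hv1
  set ρN : Representation ℝ N (Ch Γ ℝ 3) := MonoidHom.comp (cR Γ 3) N.subtype with hρN
  set ρM : Representation ℝ N (Ch Γ ℝ 3 ⧸ R) := MonoidHom.comp (qrep (cR Γ 3) R hRinv) N.subtype
    with hρM
  have hcomm : ∀ (w : MonoidAlgebra ℝ N) (y : Ch Γ ℝ 3),
      ρM.asAlgebraHom w (R.mkQ y) = R.mkQ (ρN.asAlgebraHom w y) := by
    intro w y
    induction w using MonoidAlgebra.induction_linear with
    | zero => simp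
    | add w w' hw hw' =>
      rw [map_add, map_add, LinearMap.add_apply, LinearMap.add_apply, map_add, hw, hw']
    | single g r =>
      have h1 : ρM.asAlgebraHom (MonoidAlgebra.single g r) = r • ρM g :=
        Representation.asAlgebraHom_single ρM g r
      have h2 : ρN.asAlgebraHom (MonoidAlgebra.single g r) = r • ρN g :=
        Representation.asAlgebraHom_single ρN g r
      have h3 : ρM.asAlgebraHom (MonoidAlgebra.single g r) (R.mkQ y) =
          R.mkQ (ρN.asAlgebraHom (MonoidAlgebra.single g r) y) := by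
        rw [h1, h2, LinearMap.smul_apply, LinearMap.smul_apply, map_smul]
        rfl
      exact h3
  have hsum : ∑ i, ρM.asAlgebraHom (v i) (R.mkQ (u' i)) = 0 := by
    simp only [hcomm]
    rw [← map_sum, Submodule.mkQ_apply, Submodule.Quotient.mk_eq_zero]
    exact ⟨cn 1 (∑ i, ρN.asAlgebraHom (v i) (u' i)), by rw [bd_cn, hv2, map_zero, sub_zero]⟩
  have hW : ∀ (H : Subgroup N) (χ : H →* Multiplicative ℤ) (x : H),
      χ x = Multiplicative.ofAdd 1 → ∀ y : Ch Γ ℝ 3 ⧸ R,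
      ρM x y - y ∈ aug ρM (χ.ker.map H.subtype) → y ∈ aug ρM (χ.ker.map H.subtype) := by
    intro H χ x hx y
    obtain ⟨y, rfl⟩ := R.mkQ_surjective y
    have h1 : ρM x (R.mkQ y) - R.mkQ y = R.mkQ (cR Γ 3 ((x : N) : Γ) y - y) := by
      rw [map_sub]
      rfl
    rw [h1, hρM, aug_res, aug_q, aug_q]
    exact inj_bd hT (zext_of N H χ x hx) y
  have hdep2 : ∃ a' : Fin m → ℝ, ∑ i, a' i • R.mkQ (u' i) ∈ aug ρM ⊤ ∧ a' ≠ 0 := by
    by_contra hcon
    push Not at hcon
    exact hv0 (p_CONS N (hLI.sub N) (Ch Γ ℝ 3 ⧸ R) ρM hW (Fin m) (fun i => R.mkQ (u' i)) hcon v hsum)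
  obtain ⟨a', ha', ha0⟩ := hdep2
  have h1 : ∑ i, a' i • u' i ∈ L := by
    have h2 : ∑ i, a' i • R.mkQ (u' i) = R.mkQ (∑ i, a' i • u' i) := by
      rw [map_sum]
      simp only [map_smul]
    rw [h2, hρM, aug_res, ← MonoidHom.range_eq_map, Subgroup.range_subtype, aug_q] at ha'
    exact ha'
  have h2 : ∑ i, a' i • cR Γ 3 (t ^ (i : ℕ)) u₀ ∈ L := by
    have h3 : ∑ i, a' i • cR Γ 3 (t ^ (i : ℕ)) u₀ =
        ∑ i, a' i • u' i - ∑ i, a' i • (u' i - cR Γ 3 (t ^ (i : ℕ)) u₀) := by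
      rw [← Finset.sum_sub_distrib]
      refine Finset.sum_congr rfl fun i _ => ?_
      rw [smul_sub]
      abel
    rw [h3]
    refine sub_mem h1 (Submodule.sum_mem _ fun i _ => Submodule.smul_mem _ _ ?_)
    exact Submodule.mem_sup_right (hu' i)
  set p : Polynomial ℝ := ∑ i : Fin m, Polynomial.monomial (i : ℕ) (a' i) with hp
  have hp0 : p ≠ 0 := by
    intro hcon
    refine ha0 ?_
    funext j
    have h3 : p.coeff (j : ℕ) = a' j := by
      rw [hp, Polynomial.finsetSum_coeff]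
      simp only [Polynomial.coeff_monomial, Fin.val_inj]
      simp
    rw [← h3, hcon]
    simp
  refine hpoly _ p hp0 rfl ?_
  have h4 : Polynomial.aeval (cR Γ 3 t : Module.End ℝ (Ch Γ ℝ 3)) p u₀ =
      ∑ i, a' i • cR Γ 3 (t ^ (i : ℕ)) u₀ := by
    rw [hp, map_sum, LinearMap.sum_apply]
    refine Finset.sum_congr rfl fun i _ => ?_
    rw [Polynomial.aeval_monomial, Module.End.mul_apply, ← map_pow, Module.algebraMap_end_apply]
  rw [h4]
  exact h2

end Pool.Agent.Asd3
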