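import Mathlib
import Pool.Agent.ASD.Final

/-!
# Asymptotic dimension passes to finitely generated subgroups
-/

set_option autoImplicit false

namespace Pool.Agent.Asd3

open Pool.Agent.ASD (Bl SubexpGrowth AsdimLE)

theorem bl_of_sub {G : Type*} [Group G] {S : Finset G} {H : Subgroup G} {T : Finset H} {c : ℕ}
    (hc : ∀ t ∈ T, Bl S c (t : G)) (r : ℕ) (h : H) (hh : Bl T r h) : Bl S (c * r) (h : G) := by
  obtain ⟨l, hl, hlT, rfl⟩ := hh
  have key : ∀ l : List H, (∀ x ∈ l, x ∈ T ∨ x⁻¹ ∈ T) → Bl S (c * l.length) (l.prod : G) := by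
    intro l
    induction l with
    | nil => intro _; simpa using Pool.Agent.ASD.Bl.one
    | cons x l ih =>
      intro hl
      have h1 : Bl S c (x : G) := by
        rcases hl x List.mem_cons_self with h | h
        · exact hc x h
        · have := (hc _ h).inv
          simpa using this
      have h2 := ih fun y hy => hl y (List.mem_cons_of_mem _ hy)
      have h3 := h1.mul h2
      rw [List.prod_cons, List.length_cons, Subgroup.coe_mul]
      exact h3.mono (by rw [mul_add, mul_one, add_comm])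
  exact (key l hlT).mono (Nat.mul_le_mul le_rfl hl)

theorem asdim_sub {G : Type*} [Group G] (S : Finset G) (hS : Subgroup.closure (S : Set G) = ⊤)
    (n : ℕ) (hn : AsdimLE S n) (H : Subgroup G) (T : Finset H)
    (hT : Subgroup.closure (T : Set H) = ⊤) : AsdimLE T n := by
  classical
  intro R
  have h0 : ∀ t : G, ∃ r, Bl S r t := fun t =>
    Pool.Agent.ASD.exists_bl (by rw [hS]; exact Subgroup.mem_top t)
  choose len hlen using h0
  set c : ℕ := T.sup (fun t : H => len (t : G)) with hc
  have hcT : ∀ t ∈ T, Bl S c (t : G) := fun t ht =>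
    (hlen t).mono (Finset.le_sup (f := fun t : H => len (t : G)) ht)
  obtain ⟨D, U, h1, h2, h3⟩ := hn (c * R)
  have hfin : {h : H | Bl S D (h : G)}.Finite := by
    have h5 : {h : H | Bl S D (h : G)} = Subtype.val ⁻¹' {g : G | Bl S D g} := rfl
    rw [h5]
    exact (Pool.Agent.ASD.bl_finite S D).preimage Subtype.val_injective.injOn
  have h4 : ∀ t : H, ∃ r, Bl T r t := fun t =>
    Pool.Agent.ASD.exists_bl (by rw [hT]; exact Subgroup.mem_top t)
  choose len' hlen' using h4
  refine ⟨hfin.toFinset.sup len', fun i => (fun A : Set G => ((↑) : H → G) ⁻¹' A) '' U i, ?_, ?_, ?_⟩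
  · intro g
    obtain ⟨i, A, hA, hg⟩ := h1 g
    exact ⟨i, _, ⟨A, hA, rfl⟩, hg⟩
  · rintro i _ ⟨A, hA, rfl⟩ x hx y hy
    have h5 : x⁻¹ * y ∈ hfin.toFinset := by
      rw [Set.Finite.mem_toFinset]
      exact h2 i A hA _ hx _ hy
    exact (hlen' _).mono (Finset.le_sup h5)
  · rintro i _ ⟨A, hA, rfl⟩ _ ⟨A', hA', rfl⟩ hne x hx y hy hxy
    have hne' : A ≠ A' := fun h => hne (by rw [h])
    refine h3 i A hA A' hA' hne' _ hx _ hy ?_
    have := bl_of_sub hcT R _ hxy
    simpa using this

end Pool.Agent.Asd3
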