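import Mathlib
import Pool.Agent.Asd3.Targets

/-!
# Growth and asymptotic dimension pass to subgroups
-/

set_option autoImplicit false

namespace Pool.Agent.Asd3

open Pool.Agent.ASD (Bl SubexpGrowth AsdimLE)

theorem Tame.subgroup {G : Type} [Group G] {ℓ : G → ℕ} {n : ℕ} (h : Tame G ℓ n)
    (H : Subgroup G) : Tame H (fun h => ℓ h) n := by
  classical
  have himg : ∀ r : ℕ, (Subtype.val : H → G) '' {g : H | ℓ g ≤ r} ⊆ {g : G | ℓ g ≤ r} := by
    rintro r _ ⟨g, hg, rfl⟩
    exact hg
  refine ⟨by simpa using h.one, fun g => by simpa using h.inv g,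
    fun g g' => by simpa using h.mul g g', fun r => ?_, fun b hb => ?_, fun R => ?_⟩
  · exact Set.Finite.of_finite_image ((h.fin r).subset (himg r)) Subtype.val_injective.injOn
  · obtain ⟨N, hN⟩ := h.grow b hb
    refine ⟨N, fun r hr => le_trans ?_ (hN r hr)⟩
    have h1 := Set.ncard_le_ncard (himg r) (h.fin r)
    rw [Set.ncard_image_of_injective _ Subtype.val_injective] at h1
    exact_mod_cast h1
  · obtain ⟨D, f, hf1, hf2⟩ := h.asd R
    have hc : ∀ v : G, ∃ y : H, (∃ x : H, f x = v) → f y = v := by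
      intro v
      by_cases hv : ∃ x : H, f x = v
      · obtain ⟨x, hx⟩ := hv
        exact ⟨x, fun _ => hx⟩
      · exact ⟨1, fun h => absurd h hv⟩
    choose c hc using hc
    have hc' : ∀ x : H, f (c (f x)) = f x := fun x => hc _ ⟨x, rfl⟩
    refine ⟨D + D, fun x => c (f x), fun x => ?_, fun σ hσ hinj => ?_⟩
    · have h1 := hf1 x
      have h2 := hf1 (c (f x))
      rw [hc' x] at h2
      have h3 : ((x⁻¹ * c (f x) : H) : G) =
          ((x : G)⁻¹ * f x) * (((c (f x) : H) : G)⁻¹ * f x)⁻¹ := by
        push_cast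
        group
      change ℓ ((x⁻¹ * c (f x) : H) : G) ≤ D + D
      rw [h3]
      refine (h.mul _ _).trans ?_
      rw [h.inv]
      omega
    · apply hf2 (fun i => (σ i : G))
      · intro i j
        simpa using hσ i j
      · intro i j hij
        apply hinj
        simp only at hij ⊢
        rw [hij]

theorem p_TAME : T_TAME := by
  classical
  intro G _ S n hgen hgr has
  have hex : ∀ g : G, ∃ r, Bl S r g := fun g =>
    Pool.Agent.ASD.exists_bl (by rw [hgen]; exact Subgroup.mem_top g)
  let ℓ : G → ℕ := fun g => Nat.find (hex g)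
  have hl : ∀ g r, ℓ g ≤ r ↔ Bl S r g := by
    intro g r
    constructor
    · intro h
      exact (Nat.find_spec (hex g)).mono h
    · intro h
      exact Nat.find_min' _ h
  have hset : ∀ r, {g : G | ℓ g ≤ r} = {g : G | Bl S r g} := by
    intro r
    ext g
    exact hl g r
  have hT : Tame G ℓ n := by
    refine ⟨?_, fun g => ?_, fun g g' => ?_, fun r => ?_, fun b hb => ?_, fun R => ?_⟩
    · exact Nat.le_zero.1 ((hl 1 0).2 Pool.Agent.ASD.Bl.one)
    · apply le_antisymm
      · exact (hl _ _).2 ((hl g _).1 le_rfl).inv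
      · refine (hl _ _).2 ?_
        have := ((hl g⁻¹ _).1 le_rfl).inv
        rwa [inv_inv] at this
    · exact (hl _ _).2 (((hl g _).1 le_rfl).mul ((hl g' _).1 le_rfl))
    · rw [hset]
      exact Pool.Agent.ASD.bl_finite S r
    · obtain ⟨N, hN⟩ := hgr b hb
      refine ⟨N, fun r hr => ?_⟩
      rw [hset]
      exact hN r hr
    · obtain ⟨D, U, h1, h2, h3⟩ := has R
      choose i A hA hgA using h1
      have hc : ∀ B : Set G, ∃ y : G, B.Nonempty → y ∈ B := by
        intro B
        by_cases hB : B.Nonempty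
        · obtain ⟨y, hy⟩ := hB
          exact ⟨y, fun _ => hy⟩
        · exact ⟨1, fun h => absurd h hB⟩
      choose c hc using hc
      refine ⟨D, fun x => c (A x), fun x => ?_, fun σ hσ hinj => ?_⟩
      · exact (hl _ _).2 (h2 (i x) (A x) (hA x) x (hgA x) _ (hc _ ⟨x, hgA x⟩))
      · obtain ⟨a, b, hab, he⟩ := Fintype.exists_ne_map_eq_of_card_lt
          (fun k : Fin (n + 2) => i (σ k)) (by simp)
        apply hab
        apply hinj
        have h4 : A (σ a) = A (σ b) := by
          by_contra hne
          have h5 : A (σ b) ∈ U (i (σ a)) := by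
            have h6 := hA (σ b)
            have h7 : i (σ a) = i (σ b) := he
            rwa [← h7] at h6
          exact h3 (i (σ a)) (A (σ a)) (hA _) (A (σ b)) h5 hne (σ a) (hgA _) (σ b) (hgA _)
            ((hl _ _).1 (hσ a b))
        exact congrArg c h4
  exact ⟨ℓ, hl, hT, fun H => hT.subgroup H⟩

end Pool.Agent.Asd3
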