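import Mathlib
import Pool.Agent.Asd3.Main
import Pool.Agent.Asd3.TAME
import Pool.Agent.Asd3.Sub

/-!
# Final assembly: locally indicable subgroups in asymptotic dimension two
-/

set_option autoImplicit false

namespace Pool.Agent.Asd3

open Pool.Agent.ASD (Bl SubexpGrowth AsdimLE)

/-- Locally indicable groups of subexponential growth and asymptotic dimension at most two have at
most quadratic growth. -/
theorem quad (hEX : T_EX) (H : Type) [Group H] (T : Finset H)
    (hT : Subgroup.closure (T : Set H) = ⊤) (hg : SubexpGrowth T) (h2 : AsdimLE T 2)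
    (hLI : LocInd H) :
    ∃ C : ℕ, ∀ r : ℕ, Set.ncard {h : H | Bl T r h} ≤ C * (r + 1) ^ 2 := by
  obtain ⟨ℓ, -, hTame, -⟩ := p_TAME H T 2 hT hg h2
  by_contra hcon
  push Not at hcon
  obtain ⟨Γ, a, b, s, t, φ, ψ, c, h3, h4, h5, h6, h7, h8, h9, h10, h11, h12, h13⟩ :=
    hEX H T hT hg hLI hcon
  exact main Γ (fun g => ℓ g) (hLI.sub Γ) (hTame.sub Γ) a b s t φ ψ c h3 h4 h5 h6 h7 h8 h9
    h10 h11 h12 h13

end Pool.Agent.Asd3
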