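import Mathlib
import Pool.Agent.Asd3.Wang
import Pool.Agent.Asd3.TAME
import Pool.Agent.Asd3.AmenDef

/-!
# Group homology of groups of finite asymptotic dimension
-/

set_option autoImplicit false

namespace Pool.Agent.Asd3

open Finsupp CategoryTheory
open scoped BigOperators

section gh
variable {H : Type} [Group H] (V : Rep.{0} ℝ H)

/-- from homogeneous to inhomogeneous chains -/
noncomputable def psi (k : ℕ) : Ch H V (k + 1) →ₗ[ℝ] ((Fin k → H) →₀ V) :=
  Finsupp.lsum ℝ fun σ =>
    (Finsupp.lsingle (fun i : Fin k => (σ i.castSucc)⁻¹ * σ i.succ)) ∘ₗ V.ρ (σ 0)⁻¹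

/-- from inhomogeneous to homogeneous chains -/
noncomputable def phi (k : ℕ) : ((Fin k → H) →₀ V) →ₗ[ℝ] Ch H V (k + 1) :=
  Finsupp.lsum ℝ fun g => Finsupp.lsingle (Fin.partialProd g)

@[simp] theorem psi_single (k : ℕ) (σ : Fin (k + 1) → H) (a : V) :
    psi V k (single σ a) = single (fun i : Fin k => (σ i.castSucc)⁻¹ * σ i.succ)
      (V.ρ (σ 0)⁻¹ a) := by
  simp [psi]

@[simp] theorem phi_single (k : ℕ) (g : Fin k → H) (a : V) :
    phi V k (single g a) = single (Fin.partialProd g) a := by
  simp [phi]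

theorem psi_phi (k : ℕ) (c : (Fin k → H) →₀ V) : psi V k (phi V k c) = c := by
  induction c using Finsupp.induction_linear with
  | zero => simp
  | add c d hc hd => rw [map_add, map_add, hc, hd]
  | single g a =>
    rw [phi_single, psi_single]
    simp [Fin.partialProd_right_inv]

theorem psi_aug (k : ℕ) (c : Ch H V (k + 1)) (hc : c ∈ aug (chRep V.ρ H (k + 1)) ⊤) :
    psi V k c = 0 := by
  unfold aug at hc
  induction hc using Submodule.span_induction with
  | mem x hx =>
    obtain ⟨h, -, d, rfl⟩ := hx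
    rw [map_sub, sub_eq_zero]
    refine lext (f := psi V k ∘ₗ chRep V.ρ H (k + 1) h) (g := psi V k) (fun σ a => ?_) d
    simp only [LinearMap.comp_apply, chRep_single, psi_single, smul_eq_mul, mul_inv_rev]
    congr 1
    · funext i
      group
    · rw [map_mul, Module.End.mul_apply, ← Module.End.mul_apply, ← map_mul]
      simp
  | zero => simp
  | add x y _ _ hx hy => rw [map_add, hx, hy, add_zero]
  | smul a x _ hx => rw [map_smul, hx, smul_zero]

theorem phi_psi (k : ℕ) (c : Ch H V (k + 1)) :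
    phi V k (psi V k c) - c ∈ aug (chRep V.ρ H (k + 1)) ⊤ := by
  induction c using Finsupp.induction_linear with
  | zero => simp
  | add c d hc hd =>
    rw [map_add, map_add, add_sub_add_comm]
    exact add_mem hc hd
  | single σ a =>
    refine Submodule.subset_span ⟨(σ 0)⁻¹, trivial, single σ a, ?_⟩
    rw [psi_single, phi_single, chRep_single]
    congr 2
    exact (inv_smul_eq_iff.2 (Fin.partialProd_left_inv σ).symm).symm

theorem psi_bd (k : ℕ) (c : Ch H V (k + 2)) :
    groupHomology.inhomogeneousChains.d V k (psi V (k + 1) c) = psi V k (bd c) := by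
  induction c using Finsupp.induction_linear with
  | zero => simp
  | add c d hc hd => rw [map_add, map_add, hc, hd, map_add, map_add]
  | single σ a =>
    rw [psi_single, groupHomology.inhomogeneousChains.d_single, bd_single, map_sum,
      Fin.sum_univ_succ (n := k + 1)]
    congr 1
    · rw [map_smul, psi_single]
      simp only [Fin.val_zero, pow_zero, one_smul, Fin.zero_succAbove, Fin.succ_castSucc]
      congr 1
      rw [← Module.End.mul_apply, ← map_mul]
      congr 2
      simp
    · refine Finset.sum_congr rfl fun j _ => ?_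
      rw [map_smul, psi_single, Fin.val_succ]
      congr 1
      have h0 : j.succ.succAbove (0 : Fin (k + 1)) = 0 := by simp
      rw [h0]
      congr 1
      funext i
      rw [Fin.succ_succAbove_succ]
      have h1 := Fin.partialProd_left_inv σ
      have h2 := Fin.inv_partialProd_mul_eq_contractNth
        (fun i : Fin (k + 1) => (σ i.castSucc)⁻¹ * σ i.succ) j i
      rw [← h2]
      have h3 : ∀ x, σ x = σ 0 * Fin.partialProd
          (fun i : Fin (k + 1) => (σ i.castSucc)⁻¹ * σ i.succ) x := fun x =>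
        (congrFun h1 x).symm
      rw [h3 (j.succ.succAbove i.castSucc), h3 (j.succAbove i).succ]
      group

/-- exactness of the inhomogeneous chains above the asymptotic dimension -/
theorem gh_zero {n : ℕ} (hvan : ∀ k : ℕ, n ≤ k → ∀ z : Ch H V (k + 2),
      bd z ∈ aug (chRep V.ρ H (k + 1)) ⊤ →
      ∃ w : Ch H V (k + 3), z - bd w ∈ aug (chRep V.ρ H (k + 2)) ⊤) (k : ℕ) (hk : n < k) :
    Limits.IsZero (groupHomology V k) := by
  obtain ⟨j, rfl⟩ : ∃ j, k = j + 1 := ⟨k - 1, by omega⟩
  have h1 : ((groupHomology.inhomogeneousChains V).sc' (j + 2) (j + 1) j).Exact := by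
    rw [ShortComplex.moduleCat_exact_iff]
    intro c hc
    have hc' : groupHomology.inhomogeneousChains.d V j c = 0 := by
      rw [← groupHomology.inhomogeneousChains.d_def]
      exact hc
    have h2 : psi V j (bd (phi V (j + 1) c)) = 0 := by
      rw [← psi_bd, psi_phi]
      exact hc'
    have h3 : bd (phi V (j + 1) c) ∈ aug (chRep V.ρ H (j + 1)) ⊤ := by
      have := phi_psi V j (bd (phi V (j + 1) c))
      rw [h2, map_zero, zero_sub] at this
      simpa using neg_mem this
    obtain ⟨w, hw⟩ := hvan j (by omega) (phi V (j + 1) c) h3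
    have h4 := psi_aug V (j + 1) _ hw
    rw [map_sub, psi_phi, sub_eq_zero, ← psi_bd] at h4
    refine ⟨psi V (j + 2) w, ?_⟩
    rw [h4]
    change (groupHomology.inhomogeneousChains V).d (j + 2) (j + 1) _ = _
    rw [groupHomology.inhomogeneousChains.d_def]
  have h5 : (groupHomology.inhomogeneousChains V).ExactAt (j + 1) :=
    (HomologicalComplex.exactAt_iff' _ (j + 2) (j + 1) j (by simp) (by simp)).2 h1
  exact h5.isZero_homology

end gh

theorem Amen.folner {H : Type*} [Group H] (h : Amen H) : Folner (⊤ : Subgroup H) := by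
  classical
  intro T _ ε hε
  obtain ⟨F, hF, hFt⟩ := h T ε hε
  refine ⟨F, hF, fun _ _ => trivial, fun t ht => ?_⟩
  have h1 : (F \ F.image (fun x => x * t)).card = (F.image (fun x => x * t) \ F).card := by
    have h3 : (F.image (fun x => x * t)).card = F.card :=
      Finset.card_image_of_injective _ (mul_left_injective t)
    exact Finset.card_sdiff_comm h3.symm
  have h2 : ((F.image (fun x => x * t) \ F).card : ℝ) ≤ ε * F.card := by
    convert hFt t ht
  exact ⟨by convert h2, by
    have : ((F \ F.image (fun x => x * t)).card : ℝ) ≤ ε * F.card := by rw [h1]; exact h2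
    convert this⟩

/-- a proper length function and asymptotic dimension at most `n` -/
structure Ctrl (Γ : Type*) [Group Γ] (ℓ : Γ → ℕ) (n : ℕ) : Prop where
  inv : ∀ g, ℓ g⁻¹ = ℓ g
  mul : ∀ g h, ℓ (g * h) ≤ ℓ g + ℓ h
  fin : ∀ r : ℕ, {g | ℓ g ≤ r}.Finite
  asd : ∀ R : ℕ, ∃ D : ℕ, ∃ f : Γ → Γ, (∀ x, ℓ (x⁻¹ * f x) ≤ D) ∧
    ∀ σ : Fin (n + 2) → Γ, (∀ i j, ℓ ((σ i)⁻¹ * σ j) ≤ R) →
      ¬ Function.Injective fun i => f (σ i)

theorem Ctrl.sub {Γ : Type*} [Group Γ] {ℓ : Γ → ℕ} {n : ℕ} (hT : Ctrl Γ ℓ n) (H : Subgroup Γ) :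
    Ctrl H (fun h => ℓ h) n := by
  classical
  refine ⟨fun g => hT.inv g, fun g h => hT.mul g h, ?_, ?_⟩
  · intro r
    exact (hT.fin r).preimage (Subtype.val_injective.injOn)
  · intro R
    obtain ⟨D, f, hf1, hf2⟩ := hT.asd R
    let F : Γ → H := fun p => if h : ∃ y : H, f y = p then h.choose else 1
    have hF : ∀ x : H, f (F (f x)) = f x := by
      intro x
      have h : ∃ y : H, f y = f x := ⟨x, rfl⟩
      simp only [F]
      rw [dif_pos h]
      exact h.choose_spec
    refine ⟨D + D, fun x => F (f x), fun x => ?_, fun σ hσ hinj => ?_⟩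
    · have h1 := hf1 x
      have h2 := hf1 (F (f x))
      rw [hF] at h2
      have h3 : ((x⁻¹ * F (f x) : H) : Γ) = ((x : Γ)⁻¹ * f x) * (((F (f x) : H) : Γ)⁻¹ * f x)⁻¹ := by
        simp [mul_assoc]
      rw [h3]
      refine (hT.mul _ _).trans (add_le_add h1 ?_)
      rw [hT.inv]
      exact h2
    · refine hf2 (fun i => (σ i : Γ)) (fun i j => hσ i j) ?_
      intro i j hij
      refine hinj ?_
      simp only at hij ⊢
      rw [hij]

open Pool.Agent.ASD (Bl SubexpGrowth AsdimLE) in
theorem ctrl_of (G : Type*) [Group G] (S : Finset G) (n : ℕ)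
    (hgen : Subgroup.closure (S : Set G) = ⊤) (has : AsdimLE S n) :
    ∃ ℓ : G → ℕ, (∀ g r, ℓ g ≤ r ↔ Bl S r g) ∧ Ctrl G ℓ n := by
  classical
  have hex : ∀ g : G, ∃ r, Bl S r g := fun g =>
    Pool.Agent.ASD.exists_bl (by rw [hgen]; exact Subgroup.mem_top g)
  let ℓ : G → ℕ := fun g => Nat.find (hex g)
  have hl : ∀ g r, ℓ g ≤ r ↔ Bl S r g := by
    intro g r
    constructor
    · intro h
      exact (Nat.find_spec (hex g)).mono h
    · intro h
      exact Nat.find_min' _ h
  have hset : ∀ r, {g : G | ℓ g ≤ r} = {g : G | Bl S r g} := by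
    intro r
    ext g
    exact hl g r
  refine ⟨ℓ, hl, fun g => ?_, fun g g' => ?_, fun r => ?_, fun R => ?_⟩
  · apply le_antisymm
    · exact (hl _ _).2 ((hl g _).1 le_rfl).inv
    · refine (hl _ _).2 ?_
      have := ((hl g⁻¹ _).1 le_rfl).inv
      rwa [inv_inv] at this
  · exact (hl _ _).2 (((hl g _).1 le_rfl).mul ((hl g' _).1 le_rfl))
  · rw [hset]
    exact Pool.Agent.ASD.bl_finite S r
  · obtain ⟨D, U, h1, h2, h3⟩ := has R
    choose i A hA hgA using h1
    have hc : ∀ B : Set G, ∃ y : G, B.Nonempty → y ∈ B := by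
      intro B
      by_cases hB : B.Nonempty
      · obtain ⟨y, hy⟩ := hB
        exact ⟨y, fun _ => hy⟩
      · exact ⟨1, fun h => absurd h hB⟩
    choose c hc using hc
    refine ⟨D, fun x => c (A x), fun x => ?_, fun σ hσ hinj => ?_⟩
    · exact (hl _ _).2 (h2 (i x) (A x) (hA x) x (hgA x) _ (hc _ ⟨x, hgA x⟩))
    · obtain ⟨a, b, hab, he⟩ := Fintype.exists_ne_map_eq_of_card_lt
        (fun k : Fin (n + 2) => i (σ k)) (by simp)
      apply hab
      apply hinj
      have h4 : A (σ a) = A (σ b) := by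
        by_contra hne
        have h5 : A (σ b) ∈ U (i (σ a)) := by
          have h6 := hA (σ b)
          have h7 : i (σ a) = i (σ b) := he
          rwa [← h7] at h6
        exact h3 (i (σ a)) (A (σ a)) (hA _) (A (σ b)) h5 hne (σ a) (hgA _) (σ b) (hgA _)
          ((hl _ _).1 (hσ a b))
      exact congrArg c h4

open Pool.Agent.ASD (Bl SubexpGrowth AsdimLE) in
/-- Vanishing of the real group homology above the asymptotic dimension. -/
theorem hd_le (G : Type) [Group G] (S : Finset G) (hS : Subgroup.closure (S : Set G) = ⊤)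
    (n : ℕ) (hn : AsdimLE S n) (H : Subgroup G) (h : SubexpGrowth S ∨ Amen H)
    (V : Rep.{0} ℝ H) (k : ℕ) (hk : n < k) : Limits.IsZero (groupHomology V k) := by
  obtain ⟨ℓ, hℓ, hC⟩ := ctrl_of G S n hS hn
  have hCH := hC.sub H
  have hF : Folner (⊤ : Subgroup H) := by
    rcases h with h | h
    · have hT : Tame H (fun h => ℓ h) n := by
        obtain ⟨ℓ', h1, -, h3⟩ := p_TAME G S n hS h hn
        have h4 : ℓ' = ℓ := by
          funext g
          exact le_antisymm ((h1 g _).2 ((hℓ g _).1 le_rfl)) ((hℓ g _).2 ((h1 g _).1 le_rfl))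
        rw [← h4]
        exact h3 H
      exact hT.folner ⊤
    · exact h.folner
  exact gh_zero V (fun k hk z hz => van_gen V.ρ hCH.fin hCH.asd ⊤ hF k hk z hz) k hk

end Pool.Agent.Asd3
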