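import Pool.Agent.Asd3.Targets

/-!
# Linear algebra for the choice of `φ`, `ψ`, `c`
-/

set_option autoImplicit false

namespace Pool.Agent.Asd3

/-- Functionals on a finite dimensional space of functions are combinations of evaluations. -/
theorem eval_surj (K : Type) (V : Submodule ℝ (K → ℝ)) [Module.Finite ℝ V]
    (f : V →ₗ[ℝ] ℝ) : ∃ c : K →₀ ℝ, ∀ χ : V, f χ = c.sum fun k x => x * (χ : K → ℝ) k := by
  let T : (K →₀ ℝ) →ₗ[ℝ] Module.Dual ℝ V :=
    Finsupp.linearCombination ℝ (fun k => (LinearMap.proj k ∘ₗ V.subtype : V →ₗ[ℝ] ℝ))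
  have hT : ∀ c (χ : V), T c χ = c.sum fun k x => x * (χ : K → ℝ) k := by
    intro c χ
    simp only [T, Finsupp.linearCombination_apply, Finsupp.sum, LinearMap.sum_apply,
      LinearMap.smul_apply, smul_eq_mul]
    rfl
  have hco : (LinearMap.range T).dualCoannihilator = ⊥ := by
    rw [eq_bot_iff]
    intro x hx
    rw [Submodule.mem_dualCoannihilator] at hx
    rw [Submodule.mem_bot]
    apply Subtype.ext
    funext k
    have h1 := hx (T (Finsupp.single k 1)) ⟨_, rfl⟩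
    rw [hT] at h1
    simpa using h1
  have htop : LinearMap.range T = ⊤ := by
    have h1 := Subspace.dualCoannihilator_dualAnnihilator_eq (W := LinearMap.range T)
    rw [hco, Submodule.dualAnnihilator_bot] at h1
    exact h1.symm
  have hf : f ∈ LinearMap.range T := by
    rw [htop]
    exact Submodule.mem_top
  obtain ⟨c, hc⟩ := hf
  exact ⟨c, fun χ => by rw [← hT, hc]⟩

theorem p_LIN : T_LIN := by
  intro K V hfin hV A B hA hB _ hAn hBn
  obtain ⟨d, hd⟩ := hAn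
  obtain ⟨e, he⟩ := hBn
  set W : Submodule ℝ (K → ℝ) := V.map (A - 1) with hW
  have hA1 : ∀ f ∈ V, (A - 1) f ∈ V := fun f hf => V.sub_mem (hA f hf) hf
  have hB1 : ∀ f ∈ V, (B - 1) f ∈ V := fun f hf => V.sub_mem (hB f hf) hf
  have hBj : ∀ (j : ℕ), ∀ f ∈ V, ((B - 1) ^ j) f ∈ V := by
    intro j
    induction j with
    | zero =>
      intro f hf
      simpa using hf
    | succ j ih =>
      intro f hf
      rw [pow_succ, Module.End.mul_apply]
      exact ih _ (hB1 f hf)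
  -- a function outside `W`
  have hex : ∃ φ₀ ∈ V, φ₀ ∉ W := by
    by_contra hcon
    push Not at hcon
    have hj : ∀ (j : ℕ), ∀ f ∈ V, ∃ g ∈ V, ((A - 1) ^ j) g = f := by
      intro j
      induction j with
      | zero =>
        intro f hf
        exact ⟨f, hf, by simp⟩
      | succ j ih =>
        intro f hf
        obtain ⟨g, hg, h1⟩ := ih f hf
        obtain ⟨h, hh, h2⟩ := hcon g hg
        refine ⟨h, hh, ?_⟩
        rw [pow_succ, Module.End.mul_apply, h2, h1]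
    apply hV
    rw [eq_bot_iff]
    intro f hf
    obtain ⟨g, hg, h1⟩ := hj d f hf
    rw [Submodule.mem_bot, ← h1, hd g hg]
  obtain ⟨φ₀, hφ₀, hφW⟩ := hex
  classical
  have hfe : ∃ j : ℕ, ((B - 1) ^ j) φ₀ ∈ W := ⟨e, by rw [he φ₀ hφ₀]; exact W.zero_mem⟩
  have hj1 := Nat.find_spec hfe
  have hjm := @Nat.find_min _ _ hfe
  set j := Nat.find hfe
  have hj0 : j ≠ 0 := by
    intro h0
    rw [h0, pow_zero] at hj1
    exact hφW hj1
  set φ := ((B - 1) ^ (j - 1)) φ₀ with hφ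
  have hφV : φ ∈ V := hBj _ _ hφ₀
  have hφW' : φ ∉ W := hjm (by omega)
  have hBφ : (B - 1) φ ∈ W := by
    rw [hφ, ← Module.End.mul_apply, ← pow_succ', Nat.sub_add_cancel (by omega)]
    exact hj1
  obtain ⟨ψ, hψV, hψ⟩ := hBφ
  -- the functional
  have hnot : (⟨φ, hφV⟩ : V) ∉ W.comap V.subtype := hφW'
  obtain ⟨f, hf1, hf2⟩ := Submodule.exists_le_ker_of_notMem hnot
  obtain ⟨c, hc⟩ := eval_surj K V f
  refine ⟨φ, hφV, ψ, hψV, c, ?_, ?_, ?_⟩
  · have h1 : A ψ - ψ = B φ - φ := hψ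
    rw [add_sub_assoc, h1]
    abel
  · intro χ hχ
    have h1 := hc ⟨(A - 1) χ, hA1 χ hχ⟩
    have h2 : f ⟨(A - 1) χ, hA1 χ hχ⟩ = 0 := hf2 (show (A - 1) χ ∈ W from ⟨χ, hχ, rfl⟩)
    rw [h2] at h1
    exact h1.symm
  · rw [← hc ⟨φ, hφV⟩]
    exact hf1

end Pool.Agent.Asd3
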