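import Pool.Agent.Asd3.TargetLO

/-!
# Left orderable groups of subexponential growth are locally indicable
-/

set_option autoImplicit false
set_option linter.unusedSectionVars false
set_option linter.unusedVariables false

namespace Pool.Agent.Asd3

open Pool.Agent.ASD (SubexpGrowth Bl bl_finite exists_bl)

section growth

variable {G : Type*} [Group G]

theorem growth_contra {S : Finset G} (hg : SubexpGrowth S) (c : ℕ) (hc0 : c ≠ 0)
    (hcount : ∀ n : ℕ, 2 ^ n ≤ Set.ncard {g : G | Bl S (n * c) g}) : False := by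
  obtain ⟨N, hN⟩ := hg ((3 / 2 : ℝ) ^ ((c : ℝ)⁻¹))
    (Real.one_lt_rpow (by norm_num) (by positivity))
  have h4 := hN ((N + 1) * c) (by
    have : 1 ≤ c := Nat.one_le_iff_ne_zero.2 hc0
    nlinarith)
  have h6 : ((2 ^ (N + 1) : ℕ) : ℝ) ≤
      ((Set.ncard {g : G | Bl S ((N + 1) * c) g} : ℕ) : ℝ) := by
    exact_mod_cast hcount (N + 1)
  have h7 : ((3 / 2 : ℝ) ^ ((c : ℝ)⁻¹)) ^ ((N + 1) * c) = (3 / 2 : ℝ) ^ (N + 1) := by
    rw [mul_comm (N + 1), pow_mul, Real.rpow_inv_natCast_pow (by norm_num) hc0]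
  rw [h7] at h4
  have h8 := h6.trans h4
  push_cast at h8
  have h9 : (3 / 2 : ℝ) ^ (N + 1) < 2 ^ (N + 1) :=
    pow_lt_pow_left₀ (by norm_num) (by norm_num) (by omega)
  linarith

/-- words in two letters -/
def wd (f h : G) : List Bool → G
  | [] => 1
  | e :: l => (if e then h else f) * wd f h l

theorem wd_bl {S : Finset G} {f h : G} {c : ℕ} (hf : Bl S c f) (hh : Bl S c h) (l : List Bool) :
    Bl S (l.length * c) (wd f h l) := by
  induction l with
  | nil => simp only [wd]; exact Bl.one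
  | cons e l ih =>
    have h1 : Bl S c (if e then h else f) := by
      split_ifs
      · exact hh
      · exact hf
    have h2 := h1.mul ih
    refine h2.mono ?_
    simp only [List.length_cons]
    ring_nf
    omega

/-- ping-pong: subexponential growth gives the Conrad property -/
theorem conr {S : Finset G} (hS : Subgroup.closure (S : Set G) = ⊤) (hg : SubexpGrowth S)
    [LinearOrder G] [MulLeftMono G] (f g : G) (hf : 1 < f) (hg1 : 1 < g) :
    ∃ n : ℕ, 1 ≤ n ∧ g < f * g ^ n := by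
  by_contra hcon
  push Not at hcon
  have hlt : ∀ n : ℕ, f * g ^ n < g := by
    intro n
    have h1 : g ^ n < g ^ (n + 1) := by
      rw [pow_succ]
      exact lt_mul_of_one_lt_right' _ hg1
    exact lt_of_lt_of_le (mul_lt_mul_right h1 f) (hcon (n + 1) (by omega))
  set h := g * f with hh
  have hmem : ∀ l : List Bool, 1 ≤ wd f h l ∧ ∃ n : ℕ, wd f h l ≤ g ^ n := by
    intro l
    induction l with
    | nil => exact ⟨le_rfl, 0, by simp [wd]⟩
    | cons e l ih =>
      obtain ⟨h1, n, h2⟩ := ih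
      have h3 : f * wd f h l < g := lt_of_le_of_lt (mul_le_mul_right h2 f) (hlt n)
      have h4 : 1 < f * wd f h l := lt_of_lt_of_le hf (le_mul_of_one_le_right' h1)
      cases e
      · simp only [wd, Bool.false_eq_true, if_false]
        exact ⟨h4.le, 1, by simpa using h3.le⟩
      · simp only [wd, if_true, hh, mul_assoc]
        refine ⟨?_, 2, ?_⟩
        · exact (lt_trans hg1 (lt_mul_of_one_lt_right' g h4)).le
        · rw [pow_two]
          exact mul_le_mul_right h3.le g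
  have hlo : ∀ l : List Bool, f * wd f h l < g := by
    intro l
    obtain ⟨h1, n, h2⟩ := hmem l
    exact lt_of_le_of_lt (mul_le_mul_right h2 f) (hlt n)
  have hhi : ∀ l : List Bool, g < h * wd f h l := by
    intro l
    obtain ⟨h1, n, h2⟩ := hmem l
    rw [hh, mul_assoc]
    exact lt_mul_of_one_lt_right' g (lt_of_lt_of_le hf (le_mul_of_one_le_right' h1))
  have hinj : ∀ l l' : List Bool, l.length = l'.length → wd f h l = wd f h l' → l = l' := by
    intro l
    induction l with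
    | nil =>
      intro l' h1 _
      exact (List.length_eq_zero_iff.1 h1.symm).symm
    | cons e l ih =>
      intro l' h1 h2
      cases l' with
      | nil => simp at h1
      | cons e' l' =>
        have h1' : l.length = l'.length := by simpa using h1
        cases e <;> cases e'
        · simp only [wd, Bool.false_eq_true, if_false, mul_right_inj] at h2
          rw [ih l' h1' h2]
        · simp only [wd, Bool.false_eq_true, if_false, if_true] at h2
          have h3 := hlo l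
          rw [h2] at h3
          exact absurd h3 (hhi l').not_gt
        · simp only [wd, Bool.false_eq_true, if_false, if_true] at h2
          have h3 := hhi l
          rw [h2] at h3
          exact absurd h3 (hlo l').not_gt
        · simp only [wd, if_true, mul_right_inj] at h2
          rw [ih l' h1' h2]
  have hall : ∀ g : G, g ∈ Subgroup.closure (S : Set G) := by
    intro g; rw [hS]; trivial
  obtain ⟨c₁, hc₁⟩ := exists_bl (hall f)
  obtain ⟨c₂, hc₂⟩ := exists_bl (hall h)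
  refine growth_contra hg (c₁ + c₂ + 1) (by omega) fun n => ?_
  have h1 : Function.Injective (fun v : Fin n → Bool => wd f h (List.ofFn v)) := by
    intro v v' hv
    exact List.ofFn_injective (hinj _ _ (by simp) hv)
  have h2 : Set.range (fun v : Fin n → Bool => wd f h (List.ofFn v)) ⊆
      {g : G | Bl S (n * (c₁ + c₂ + 1)) g} := by
    rintro g ⟨v, rfl⟩
    have := wd_bl (hc₁.mono (by omega : c₁ ≤ c₁ + c₂ + 1))
      (hc₂.mono (by omega : c₂ ≤ c₁ + c₂ + 1)) (List.ofFn v)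
    simpa using this
  have h3 := Set.ncard_le_ncard h2 (bl_finite S _)
  rw [← Set.image_univ, Set.ncard_image_of_injective _ h1, Set.ncard_univ] at h3
  simpa using h3

end growth

section order

variable {H : Type*} [Group H] [LinearOrder H] [MulLeftMono H]

theorem up2 (c1 : ∀ f g : H, 1 < f → 1 < g → ∃ n : ℕ, 1 ≤ n ∧ g < f * g ^ n)
    {x y : H} (hx : 1 < x) {k : ℕ} (hy : y ≤ x ^ k) (n : ℕ) : ∃ m : ℕ, y * x ^ n ≤ x ^ m := by
  by_contra hcon
  push Not at hcon
  have hx' : x⁻¹ < 1 := Left.inv_lt_one_iff.2 hx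
  rcases Nat.eq_zero_or_pos n with rfl | hn
  · have := hcon k
    rw [pow_zero, mul_one] at this
    exact absurd hy this.not_ge
  set f := y⁻¹ * x ^ k with hf
  have h1 : ∀ m : ℕ, f * x ^ m < x ^ n := by
    intro m
    have h2 := mul_lt_mul_right (hcon (k + m)) y⁻¹
    rw [inv_mul_cancel_left, pow_add, ← mul_assoc] at h2
    exact h2
  have h2 : 1 ≤ f := by
    have := mul_le_mul_right hy y⁻¹
    rwa [inv_mul_cancel] at this
  rcases h2.eq_or_lt with h3 | h3
  · have := h1 n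
    rw [← h3, one_mul] at this
    exact absurd this (lt_irrefl _)
  · obtain ⟨j, hj, h4⟩ := c1 f (x ^ n) h3 (one_lt_pow' hx hn.ne')
    rw [← pow_mul] at h4
    exact absurd (h1 (n * j)) h4.not_gt

theorem lo2 (c2 : ∀ f g : H, f < 1 → g < 1 → ∃ n : ℕ, 1 ≤ n ∧ f * g ^ n < g)
    {x y : H} (hx : x < 1) {k : ℕ} (hy : x ^ k ≤ y) (n : ℕ) : ∃ m : ℕ, x ^ m ≤ y * x ^ n := by
  by_contra hcon
  push Not at hcon
  rcases Nat.eq_zero_or_pos n with rfl | hn
  · have := hcon k
    rw [pow_zero, mul_one] at this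
    exact absurd hy this.not_ge
  set f := y⁻¹ * x ^ k with hf
  have h1 : ∀ m : ℕ, x ^ n < f * x ^ m := by
    intro m
    have h2 := mul_lt_mul_right (hcon (k + m)) y⁻¹
    rw [inv_mul_cancel_left, pow_add, ← mul_assoc] at h2
    exact h2
  have h2 : f ≤ 1 := by
    have := mul_le_mul_right hy y⁻¹
    rwa [inv_mul_cancel] at this
  rcases h2.eq_or_lt with h3 | h3
  · have := h1 n
    rw [h3, one_mul] at this
    exact absurd this (lt_irrefl _)
  · obtain ⟨j, hj, h4⟩ := c2 f (x ^ n) h3 (pow_lt_one' hx hn.ne')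
    rw [← pow_mul] at h4
    exact absurd (h1 (n * j)) h4.not_gt

theorem up3 (c2 : ∀ f g : H, f < 1 → g < 1 → ∃ n : ℕ, 1 ≤ n ∧ f * g ^ n < g)
    {x y : H} (hx : 1 < x) {k : ℕ} (hy : y ≤ x ^ k) : ∃ m : ℕ, (x⁻¹) ^ m ≤ y⁻¹ := by
  by_contra hcon
  push Not at hcon
  have hx' : x⁻¹ < 1 := Left.inv_lt_one_iff.2 hx
  have hy1 : y ≤ x ^ (k + 1) := hy.trans (pow_le_pow_right' hx.le (by omega))
  set w := (x⁻¹) ^ (k + 1) with hw
  have hwx : w * x ^ (k + 1) = 1 := by rw [hw, inv_pow, inv_mul_cancel]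
  have h1 : ∀ m : ℕ, w < w * y * (x⁻¹) ^ m := by
    intro m
    have h2 := mul_lt_mul_right (hcon m) (w * y)
    rwa [mul_assoc, mul_inv_cancel, mul_one] at h2
  have h2 : w * y ≤ 1 := by
    rw [← hwx]
    exact mul_le_mul_right hy1 w
  rcases h2.eq_or_lt with h3 | h3
  · have h4 := hcon (k + 1)
    rw [← hw, eq_inv_of_mul_eq_one_left h3] at h4
    exact absurd h4 (lt_irrefl _)
  · obtain ⟨j, hj, h4⟩ := c2 (w * y) w h3 (pow_lt_one' hx' (by omega))
    rw [hw, ← pow_mul] at h4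
    exact absurd (h1 ((k + 1) * j)) h4.not_gt

theorem lo3 (c1 : ∀ f g : H, 1 < f → 1 < g → ∃ n : ℕ, 1 ≤ n ∧ g < f * g ^ n)
    {x y : H} (hx : 1 < x) {k : ℕ} (hy : (x⁻¹) ^ k ≤ y) : ∃ m : ℕ, y⁻¹ ≤ x ^ m := by
  by_contra hcon
  push Not at hcon
  have hx' : x⁻¹ < 1 := Left.inv_lt_one_iff.2 hx
  have hy1 : (x⁻¹) ^ (k + 1) ≤ y :=
    (pow_le_pow_right_of_le_one' hx'.le (by omega)).trans hy
  set w := x ^ (k + 1) with hw
  have hwx : w * (x⁻¹) ^ (k + 1) = 1 := by rw [hw, inv_pow, mul_inv_cancel]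
  have h1 : ∀ m : ℕ, w * y * x ^ m < w := by
    intro m
    have h2 := mul_lt_mul_right (hcon m) (w * y)
    rwa [mul_assoc w y y⁻¹, mul_inv_cancel, mul_one] at h2
  have h2 : 1 ≤ w * y := by
    rw [← hwx]
    exact mul_le_mul_right hy1 w
  rcases h2.eq_or_lt with h3 | h3
  · have h4 := hcon (k + 1)
    rw [← hw, eq_inv_of_mul_eq_one_left h3.symm] at h4
    exact absurd h4 (lt_irrefl _)
  · obtain ⟨j, hj, h4⟩ := c1 (w * y) w h3 (one_lt_pow' hx (by omega))
    rw [hw, ← pow_mul] at h4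
    exact absurd (h1 ((k + 1) * j)) h4.not_gt

/-- the two Conrad properties -/
structure Cnr (H : Type*) [Group H] [LinearOrder H] : Prop where
  c1 : ∀ f g : H, 1 < f → 1 < g → ∃ n : ℕ, 1 ≤ n ∧ g < f * g ^ n
  c2 : ∀ f g : H, f < 1 → g < 1 → ∃ n : ℕ, 1 ≤ n ∧ f * g ^ n < g

/-- the convex subgroup generated by `x` -/
def Ic (c : Cnr H) (x : H) (hx : 1 < x) : Subgroup H where
  carrier := {y | (∃ n : ℕ, y ≤ x ^ n) ∧ ∃ n : ℕ, (x⁻¹) ^ n ≤ y}
  one_mem' := ⟨⟨0, by simp⟩, ⟨0, by simp⟩⟩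
  mul_mem' := by
    rintro y z ⟨⟨a, ha⟩, ⟨b, hb⟩⟩ ⟨⟨a', ha'⟩, ⟨b', hb'⟩⟩
    obtain ⟨m, hm⟩ := up2 c.c1 hx ha a'
    obtain ⟨m', hm'⟩ := lo2 c.c2 (Left.inv_lt_one_iff.2 hx) hb b'
    exact ⟨⟨m, (mul_le_mul_right ha' y).trans hm⟩, ⟨m', hm'.trans (mul_le_mul_right hb' y)⟩⟩
  inv_mem' := by
    rintro y ⟨⟨a, ha⟩, ⟨b, hb⟩⟩
    exact ⟨lo3 c.c1 hx hb, up3 c.c2 hx ha⟩

theorem mem_Ic_of_le (c : Cnr H) {x y : H} (hx : 1 < x) (h1 : y ≤ x) (h2 : y⁻¹ ≤ x) :
    y ∈ Ic c x hx := by
  refine ⟨⟨1, by simpa using h1⟩, ?_⟩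
  obtain ⟨m, hm⟩ := up3 c.c2 hx (k := 1) (y := y⁻¹) (by simpa using h2)
  exact ⟨m, by simpa using hm⟩

theorem Ic_convex (c : Cnr H) {x a b d : H} (hx : 1 < x) (ha : a ∈ Ic c x hx)
    (hd : d ∈ Ic c x hx) (h1 : a ≤ b) (h2 : b ≤ d) : b ∈ Ic c x hx := by
  obtain ⟨-, n, hn⟩ := ha
  obtain ⟨⟨n', hn'⟩, -⟩ := hd
  exact ⟨⟨n', h2.trans hn'⟩, ⟨n, hn.trans h1⟩⟩

theorem Ic_le (c : Cnr H) {x w : H} (hx : 1 < x) (hw : 1 < w) (h : w ∈ Ic c x hx) :
    Ic c w hw ≤ Ic c x hx := by
  rintro y ⟨⟨n, hn⟩, ⟨n', hn'⟩⟩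
  exact Ic_convex c hx (pow_mem (inv_mem h) n') (pow_mem h n) hn' hn

/-- the elements infinitesimal with respect to `x` -/
def Inf (x : H) : Set H := {y | ∀ k : ℤ, y ^ k < x}

theorem inf_of_mem (c : Cnr H) {x w y : H} (hw : 1 < w) (hwx : w ∈ Inf x)
    (hy : y ∈ Ic c w hw) : y ∈ Inf x := by
  intro k
  obtain ⟨⟨n, hn⟩, -⟩ := zpow_mem hy k
  refine hn.trans_lt ?_
  have := hwx n
  simpa using this

theorem inf_inv {x y : H} (h : y ∈ Inf x) : y⁻¹ ∈ Inf x := by
  intro k
  have := h (-k)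
  rwa [← inv_zpow'] at this

theorem exists_abs (a b : H) : ∃ w, (w = a ∨ w = a⁻¹ ∨ w = b ∨ w = b⁻¹) ∧ a ≤ w ∧ a⁻¹ ≤ w ∧
    b ≤ w ∧ b⁻¹ ≤ w := by
  rcases le_total a a⁻¹ with h1 | h1 <;> rcases le_total b b⁻¹ with h2 | h2
  · rcases le_total a⁻¹ b⁻¹ with h3 | h3
    · exact ⟨b⁻¹, by simp, h1.trans h3, h3, h2, le_rfl⟩
    · exact ⟨a⁻¹, by simp, h1, le_rfl, h2.trans h3, h3⟩
  · rcases le_total a⁻¹ b with h3 | h3
    · exact ⟨b, by simp, h1.trans h3, h3, le_rfl, h2⟩
    · exact ⟨a⁻¹, by simp, h1, le_rfl, h3, h2.trans h3⟩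
  · rcases le_total a b⁻¹ with h3 | h3
    · exact ⟨b⁻¹, by simp, h3, h1.trans h3, h2, le_rfl⟩
    · exact ⟨a, by simp, le_rfl, h1, h2.trans h3, h3⟩
  · rcases le_total a b with h3 | h3
    · exact ⟨b, by simp, h3, h1.trans h3, le_rfl, h2⟩
    · exact ⟨a, by simp, le_rfl, h1, h3, h2.trans h3⟩

/-- two infinitesimal elements lie in a convex subgroup of infinitesimal elements -/
theorem inf_pair (c : Cnr H) {x a b : H} (ha : a ∈ Inf x) (hb : b ∈ Inf x) :
    (a = 1 ∧ b = 1) ∨ ∃ w, ∃ hw : 1 < w, w ∈ Inf x ∧ a ∈ Ic c w hw ∧ b ∈ Ic c w hw := by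
  obtain ⟨w, h0, h1, h2, h3, h4⟩ := exists_abs a b
  have hwx : w ∈ Inf x := by
    rcases h0 with rfl | rfl | rfl | rfl
    · exact ha
    · exact inf_inv ha
    · exact hb
    · exact inf_inv hb
  have hw1 : 1 ≤ w := by
    by_contra hlt
    push Not at hlt
    have h5 : a < 1 := h1.trans_lt hlt
    have h6 : a⁻¹ < 1 := h2.trans_lt hlt
    exact absurd (Left.inv_lt_one_iff.1 h6) h5.not_gt
  rcases hw1.eq_or_lt with h5 | h5
  · left
    rw [← h5] at h1 h2 h3 h4
    exact ⟨le_antisymm h1 (Left.inv_le_one_iff.1 h2), le_antisymm h3 (Left.inv_le_one_iff.1 h4)⟩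
  · exact Or.inr ⟨w, h5, hwx, mem_Ic_of_le c h5 h1 h2, mem_Ic_of_le c h5 h3 h4⟩

theorem inf_convex (c : Cnr H) {x a b d : H} (hx : 1 < x) (ha : a ∈ Inf x) (hd : d ∈ Inf x)
    (h1 : a ≤ b) (h2 : b ≤ d) : b ∈ Inf x := by
  rcases inf_pair c ha hd with ⟨rfl, rfl⟩ | ⟨w, hw, hwx, haw, hdw⟩
  · rw [le_antisymm h2 h1]
    intro k
    rw [one_zpow]
    exact hx
  · exact inf_of_mem c hw hwx (Ic_convex c hw haw hdw h1 h2)

/-- the subgroup of infinitesimal elements -/
def CC (c : Cnr H) (x : H) (hx : 1 < x) : Subgroup H where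
  carrier := Inf x
  one_mem' := fun k => by rw [one_zpow]; exact hx
  mul_mem' := by
    intro a b ha hb
    rcases inf_pair c ha hb with ⟨rfl, rfl⟩ | ⟨w, hw, hwx, haw, hbw⟩
    · intro k
      rw [one_mul, one_zpow]
      exact hx
    · exact inf_of_mem c hw hwx (mul_mem haw hbw)
  inv_mem' := fun h => inf_inv h

theorem mem_CC (c : Cnr H) {x y : H} (hx : 1 < x) : y ∈ CC c x hx ↔ y ∈ Inf x := Iff.rfl

section full

variable (c : Cnr H) {x : H} (hx : 1 < x) (htop : ∀ y, y ∈ Ic c x hx)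

include htop

/-- a positive element which is not infinitesimal generates the group as a convex subgroup -/
theorem full {y : H} (hy : 1 < y) (hyC : y ∉ CC c x hx) : ∀ z, z ∈ Ic c y hy := by
  have h1 : ∃ k : ℤ, x ≤ y ^ k := by
    by_contra hcon
    push Not at hcon
    exact hyC hcon
  obtain ⟨k, hk⟩ := h1
  have hxI : x ∈ Ic c y hy := by
    refine Ic_convex c hy (one_mem _) (zpow_mem ?_ k) hx.le hk
    refine ⟨⟨1, by simp⟩, ⟨0, ?_⟩⟩
    rw [pow_zero]
    exact hy.le
  intro z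
  exact Ic_le c hy hx hxI (htop z)

/-- the subgroup of infinitesimal elements is normal -/
theorem CC_normal : (CC c x hx).Normal := by
  refine ⟨fun a ha g => ?_⟩
  by_contra hu
  have key : ∀ a, a ∈ CC c x hx → 1 < g * a * g⁻¹ → g * a * g⁻¹ ∉ CC c x hx → False := by
    intro a ha h1 h2
    have hfull := full c hx htop h1 h2
    have hconj : ∀ n : ℕ, (g * a * g⁻¹) ^ n = g * a ^ n * g⁻¹ := fun n => conj_pow
    have hg : g ∈ CC c x hx := by
      rcases lt_trichotomy g 1 with hg1 | hg1 | hg1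
      · obtain ⟨-, n, hn⟩ := hfull g
        have h3 : (g * a * g⁻¹)⁻¹ ^ (n + 1) < g := by
          refine lt_of_lt_of_le ?_ hn
          rw [pow_succ]
          exact mul_lt_of_lt_one_right' _ (Left.inv_lt_one_iff.2 h1)
        rw [inv_pow, hconj] at h3
        have h4 : g⁻¹ < a ^ (n + 1) := by
          have h5 := mul_lt_mul_right h3 (a ^ (n + 1) * g⁻¹)
          have e1 : a ^ (n + 1) * g⁻¹ * (g * a ^ (n + 1) * g⁻¹)⁻¹ = g⁻¹ * (g * g⁻¹) := by
            group
          have e2 : a ^ (n + 1) * g⁻¹ * g = a ^ (n + 1) := by group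
          rw [e1, e2, mul_inv_cancel, mul_one] at h5
          exact h5
        have h6 : g⁻¹ ∈ CC c x hx :=
          inf_convex c hx (one_mem (CC c x hx)) (pow_mem ha (n + 1))
            (Left.one_lt_inv_iff.2 hg1).le h4.le
        simpa using inv_mem h6
      · rw [hg1]; exact one_mem _
      · obtain ⟨⟨n, hn⟩, -⟩ := hfull g
        have h3 : g < (g * a * g⁻¹) ^ (n + 1) := by
          refine lt_of_le_of_lt hn ?_
          rw [pow_succ]
          exact lt_mul_of_one_lt_right' _ h1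
        rw [hconj] at h3
        have h4 : (a ^ (n + 1))⁻¹ < g⁻¹ := by
          have h5 := mul_lt_mul_right h3 ((a ^ (n + 1))⁻¹ * g⁻¹)
          have e1 : (a ^ (n + 1))⁻¹ * g⁻¹ * g = (a ^ (n + 1))⁻¹ := by group
          have e2 : (a ^ (n + 1))⁻¹ * g⁻¹ * (g * a ^ (n + 1) * g⁻¹) = g⁻¹ := by group
          rw [e1, e2] at h5
          exact h5
        have h6 : g⁻¹ ∈ CC c x hx :=
          inf_convex c hx (inv_mem (pow_mem ha (n + 1))) (one_mem (CC c x hx)) h4.le
            (Left.inv_lt_one_iff.2 hg1).le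
        simpa using inv_mem h6
    exact h2 (mul_mem (mul_mem hg ha) (inv_mem hg))
  rcases lt_trichotomy (g * a * g⁻¹) 1 with h1 | h1 | h1
  · refine key a⁻¹ (inv_mem ha) ?_ ?_
    · have e : g * a⁻¹ * g⁻¹ = (g * a * g⁻¹)⁻¹ := by group
      rw [e]
      exact Left.one_lt_inv_iff.2 h1
    · intro h2
      apply hu
      have e : g * a * g⁻¹ = (g * a⁻¹ * g⁻¹)⁻¹ := by group
      rw [e]
      exact inv_mem h2
  · apply hu
    rw [h1]
    exact one_mem _
  · exact key a ha h1 hu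

/-- positive and not infinitesimal -/
def PC (c : Cnr H) (x : H) (hx : 1 < x) : Set H := {p | 1 < p ∧ p ∉ CC c x hx}

theorem PC_mul {p p' : H} (hp : p ∈ PC c x hx) (hp' : p' ∈ PC c x hx) : p * p' ∈ PC c x hx := by
  have h1 : p < p * p' := lt_mul_of_one_lt_right' _ hp'.1
  refine ⟨hp.1.trans h1, fun h2 => hp.2 ?_⟩
  exact inf_convex c hx (one_mem (CC c x hx)) h2 hp.1.le h1.le

theorem PC_arch {p q : H} (hp : p ∈ PC c x hx) (hq : q ∈ PC c x hx) :
    ∃ n : ℕ, q⁻¹ * p ^ n ∈ PC c x hx := by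
  obtain ⟨⟨n, hn⟩, -⟩ := full c hx htop hp.1 hp.2 q
  refine ⟨n + 1, ?_⟩
  have h1 : 1 ≤ q⁻¹ * p ^ n := by
    have := mul_le_mul_right hn q⁻¹
    rwa [inv_mul_cancel] at this
  have e : q⁻¹ * p ^ (n + 1) = q⁻¹ * p ^ n * p := by rw [pow_succ, mul_assoc]
  have h2 : q⁻¹ * p ^ n < q⁻¹ * p ^ n * p := lt_mul_of_one_lt_right' _ hp.1
  rw [e]
  refine ⟨h1.trans_lt h2, fun h3 => hp.2 ?_⟩
  have h4 : q⁻¹ * p ^ n ∈ CC c x hx :=
    inf_convex c hx (one_mem (CC c x hx)) h3 h1 h2.le
  have h5 := mul_mem (inv_mem h4) h3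
  rwa [inv_mul_cancel_left] at h5

theorem PC_conj {p g : H} (hp : p ∈ PC c x hx) : g⁻¹ * p * g ∈ PC c x hx := by
  have hN := CC_normal c hx htop
  have hnot : ∀ p, p ∉ CC c x hx → ∀ g, g⁻¹ * p * g ∉ CC c x hx := by
    intro p hp g h
    apply hp
    have := hN.conj_mem _ h g
    have e : g * (g⁻¹ * p * g) * g⁻¹ = p := by group
    rwa [e] at this
  -- first step: `g` positive and not infinitesimal
  have s1 : ∀ p g : H, p ∈ PC c x hx → g ∈ PC c x hx → 1 < g⁻¹ * p * g := by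
    intro p g hp hg
    by_contra hcon
    push Not at hcon
    have hne : g⁻¹ * p * g ≠ 1 := by
      intro h
      apply hnot p hp.2 g
      rw [h]
      exact one_mem _
    have h1 := lt_of_le_of_ne hcon hne
    have h2 : p * g < g := by
      have := mul_lt_mul_right h1 g
      rw [mul_one] at this
      have e : g * (g⁻¹ * p * g) = p * g := by group
      rwa [e] at this
    have h3 : ∀ n : ℕ, p ^ (n + 1) * g < g := by
      intro n
      induction n with
      | zero => simpa using h2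
      | succ n ih =>
        have h4 := mul_lt_mul_right ih p
        rw [← mul_assoc, ← pow_succ'] at h4
        exact h4.trans h2
    obtain ⟨⟨n, hn⟩, -⟩ := full c hx htop hp.1 hp.2 g
    have h4 : g < p ^ (n + 1) := by
      refine lt_of_le_of_lt hn ?_
      rw [pow_succ]
      exact lt_mul_of_one_lt_right' _ hp.1
    have h5 : p ^ (n + 1) < p ^ (n + 1) * g := lt_mul_of_one_lt_right' _ hg.1
    exact absurd (h4.trans (h5.trans (h3 n))) (lt_irrefl _)
  -- second step: conjugation with the inverse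
  have s2 : ∀ p g : H, p ∈ PC c x hx → g ∈ PC c x hx → 1 < g * p * g⁻¹ := by
    intro p g hp hg
    by_contra hcon
    push Not at hcon
    have hnot' : g * p * g⁻¹ ∉ CC c x hx := by
      have := hnot p hp.2 g⁻¹
      rwa [inv_inv] at this
    have hne : g * p * g⁻¹ ≠ 1 := by
      intro h
      apply hnot'
      rw [h]
      exact one_mem _
    have h1 := lt_of_le_of_ne hcon hne
    have h2 : (g * p * g⁻¹)⁻¹ ∈ PC c x hx :=
      ⟨Left.one_lt_inv_iff.2 h1, fun h => hnot' (by simpa using inv_mem h)⟩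
    have h3 := s1 _ g h2 hg
    have e : g⁻¹ * (g * p * g⁻¹)⁻¹ * g = p⁻¹ := by group
    rw [e] at h3
    exact absurd (Left.one_lt_inv_iff.1 h3) hp.1.not_gt
  refine ⟨?_, hnot p hp.2 g⟩
  by_cases hg : g ∈ CC c x hx
  · -- `g` infinitesimal
    by_contra hcon
    push Not at hcon
    have h2 : p * g ≤ g := by
      have := mul_le_mul_right hcon g
      rw [mul_one] at this
      have e : g * (g⁻¹ * p * g) = p * g := by group
      rwa [e] at this
    rcases le_total 1 g with h1 | h1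
    · have h3 : p ≤ p * g := le_mul_of_one_le_right' h1
      exact hp.2 (inf_convex c hx (one_mem (CC c x hx)) hg hp.1.le (h3.trans h2))
    · have h3 : g ≤ p⁻¹ := by
        have := mul_le_mul_right (h2.trans h1) p⁻¹
        rwa [inv_mul_cancel_left, mul_one] at this
      have h4 := inf_convex c hx hg (one_mem (CC c x hx)) h3 (Left.inv_lt_one_iff.2 hp.1).le
      have h5 := inf_inv h4
      rw [inv_inv] at h5
      exact hp.2 h5
  · rcases lt_trichotomy g 1 with h1 | h1 | h1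
    · have hg' : g⁻¹ ∈ PC c x hx :=
        ⟨Left.one_lt_inv_iff.2 h1, fun h => hg (by simpa using inv_mem h)⟩
      have := s2 p g⁻¹ hp hg'
      rwa [inv_inv] at this
    · exfalso
      apply hg
      rw [h1]
      exact one_mem _
    · exact s1 p g hp ⟨h1, hg⟩

end full

end order

/-- a positive cone -/
structure Cone {H : Type*} [Group H] (P : Set H) : Prop where
  mul : ∀ a ∈ P, ∀ b ∈ P, a * b ∈ P
  one : (1 : H) ∉ P
  tot : ∀ g, g ≠ 1 → g ∈ P ∨ g⁻¹ ∈ P

section cone

variable {H : Type*} [Group H] {P : Set H}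

/-- the linear order of a positive cone -/
@[reducible] noncomputable def Cone.lo (h : Cone P) : LinearOrder H where
  le a b := a = b ∨ a⁻¹ * b ∈ P
  lt a b := a⁻¹ * b ∈ P
  le_refl a := Or.inl rfl
  le_trans := by
    rintro a b c (rfl | h1) (rfl | h2)
    · exact Or.inl rfl
    · exact Or.inr h2
    · exact Or.inr h1
    · right
      have := h.mul _ h1 _ h2
      have e : a⁻¹ * b * (b⁻¹ * c) = a⁻¹ * c := by group
      rwa [e] at this
  lt_iff_le_not_ge := by
    intro a b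
    constructor
    · intro h1
      refine ⟨Or.inr h1, ?_⟩
      rintro (rfl | h2)
      · rw [inv_mul_cancel] at h1
        exact h.one h1
      · have := h.mul _ h1 _ h2
        have e : a⁻¹ * b * (b⁻¹ * a) = 1 := by group
        rw [e] at this
        exact h.one this
    · rintro ⟨rfl | h1, h2⟩
      · exact absurd (Or.inl rfl) h2
      · exact h1
  le_antisymm := by
    rintro a b (rfl | h1) (h2 | h2)
    · rfl
    · rfl
    · exact h2.symm
    · have := h.mul _ h1 _ h2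
      have e : a⁻¹ * b * (b⁻¹ * a) = 1 := by group
      rw [e] at this
      exact absurd this h.one
  le_total := by
    intro a b
    by_cases h1 : a = b
    · exact Or.inl (Or.inl h1)
    · have h2 : a⁻¹ * b ≠ 1 := by
        intro h3
        exact h1 (inv_mul_eq_one.1 h3)
      rcases h.tot _ h2 with h3 | h3
      · exact Or.inl (Or.inr h3)
      · right
        right
        have e : (a⁻¹ * b)⁻¹ = b⁻¹ * a := by group
        rwa [e] at h3
  toDecidableLE := Classical.decRel _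

theorem Cone.lmono (h : Cone P) : @MulLeftMono H _ h.lo.toLE := by
  let _ := h.lo
  refine ⟨fun a b c hbc => ?_⟩
  rcases hbc with rfl | h1
  · exact Or.inl rfl
  · right
    have e : (a * b)⁻¹ * (a * c) = b⁻¹ * c := by group
    show (a * b)⁻¹ * (a * c) ∈ P
    rwa [e]

/-- the opposite cone -/
theorem Cone.inv (h : Cone P) : Cone {g : H | g⁻¹ ∈ P} := by
  refine ⟨fun a ha b hb => ?_, ?_, fun g hg => ?_⟩
  · show (a * b)⁻¹ ∈ P
    rw [mul_inv_rev]
    exact h.mul _ hb _ ha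
  · show (1 : H)⁻¹ ∉ P
    rw [inv_one]
    exact h.one
  · rcases h.tot g hg with h1 | h1
    · right
      show (g⁻¹)⁻¹ ∈ P
      rwa [inv_inv]
    · exact Or.inl h1

end cone

section holder

variable {Q : Type*} [Group Q] [LinearOrder Q] [MulLeftMono Q] [MulRightMono Q]

theorem exists_floor (arch : ∀ x y : Q, 1 < x → ∃ n : ℕ, y < x ^ n) {u a : Q} (hu : 1 < u)
    (ha : 1 ≤ a) : ∃ n : ℕ, u ^ n ≤ a ∧ a < u ^ (n + 1) := by
  classical
  have hex := arch u a hu
  have h1 := Nat.find_spec hex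
  have h2 : Nat.find hex ≠ 0 := by
    intro h0
    rw [h0, pow_zero] at h1
    exact absurd ha h1.not_ge
  obtain ⟨k, hk⟩ := Nat.exists_eq_succ_of_ne_zero h2
  refine ⟨k, ?_, ?_⟩
  · have := Nat.find_min hex (m := k) (by omega)
    exact not_lt.1 this
  · rw [← Nat.succ_eq_add_one, ← hk]
    exact h1

/-- Hoelder: a bi-ordered Archimedean group is commutative -/
theorem holder (arch : ∀ x y : Q, 1 < x → ∃ n : ℕ, y < x ^ n) (a b : Q) : a * b = b * a := by
  have key : ∀ a b : Q, 1 < a → 1 < b → a * b ≤ b * a := by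
    intro a b ha hb
    by_contra hcon
    push Not at hcon
    by_cases hz : ∃ z : Q, 1 < z ∧ ∀ w, 1 < w → z ≤ w
    · obtain ⟨z, hz1, hz2⟩ := hz
      have hcyc : ∀ a : Q, 1 < a → ∃ n : ℕ, a = z ^ n := by
        intro a ha
        obtain ⟨n, h1, h2⟩ := exists_floor arch hz1 ha.le
        refine ⟨n, ?_⟩
        by_contra hne
        have h3 : z ^ n < a := lt_of_le_of_ne h1 (Ne.symm hne)
        have h4 : 1 < (z ^ n)⁻¹ * a := by
          have := mul_lt_mul_right h3 (z ^ n)⁻¹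
          rwa [inv_mul_cancel] at this
        have h5 := mul_le_mul_right (hz2 _ h4) (z ^ n)
        rw [mul_inv_cancel_left, ← pow_succ] at h5
        exact absurd h2 h5.not_gt
      obtain ⟨n, rfl⟩ := hcyc a ha
      obtain ⟨k, rfl⟩ := hcyc b hb
      rw [← pow_add, ← pow_add, add_comm] at hcon
      exact absurd hcon (lt_irrefl _)
    · push Not at hz
      set c := a * b * (b * a)⁻¹ with hc
      have hc1 : 1 < c := by
        have := mul_lt_mul_left hcon (b * a)⁻¹
        rwa [mul_inv_cancel] at this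
      obtain ⟨w, hw1, hw2⟩ := hz c hc1
      have hv : 1 < w⁻¹ * c := by
        have := mul_lt_mul_right hw2 w⁻¹
        rwa [inv_mul_cancel] at this
      set u := min w (w⁻¹ * c) with hu
      have hu1 : 1 < u := lt_min hw1 hv
      have hu2 : u * u ≤ c := by
        have h1 : u * u ≤ w * (w⁻¹ * c) := mul_le_mul' (min_le_left _ _) (min_le_right _ _)
        rwa [mul_inv_cancel_left] at h1
      obtain ⟨k, hk1, hk2⟩ := exists_floor arch hu1 ha.le
      obtain ⟨l, hl1, hl2⟩ := exists_floor arch hu1 hb.le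
      have h1 : a * b < u ^ (k + 1) * u ^ (l + 1) := mul_lt_mul_of_lt_of_lt hk2 hl2
      have h2 : u ^ l * u ^ k ≤ b * a := mul_le_mul' hl1 hk1
      have h3 : a * b < u * u * (u ^ l * u ^ k) := by
        have e : u ^ (k + 1) * u ^ (l + 1) = u * u * (u ^ l * u ^ k) := by
          rw [← pow_add, ← pow_add, ← pow_two, ← pow_add]
          congr 1
          omega
        rwa [e] at h1
      have h4 : a * b < u * u * (b * a) := lt_of_lt_of_le h3 (mul_le_mul_right h2 _)
      have h5 : c < u * u := by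
        have := mul_lt_mul_left h4 (b * a)⁻¹
        have e : u * u * (b * a) * (b * a)⁻¹ = u * u := by group
        rwa [e] at this
      exact absurd h5 hu2.not_gt
  have key2 : ∀ a b : Q, 1 < a → 1 < b → a * b = b * a := fun a b ha hb =>
    le_antisymm (key a b ha hb) (key b a hb ha)
  have key3 : ∀ a b : Q, 1 < a → a * b = b * a := by
    intro a b ha
    rcases lt_trichotomy b 1 with hb | hb | hb
    · have h1 := key2 a b⁻¹ ha (Left.one_lt_inv_iff.2 hb)
      have h2 : b * (a * b⁻¹) * b = b * (b⁻¹ * a) * b := by rw [h1]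
      rw [mul_inv_cancel_left, mul_assoc, mul_assoc, inv_mul_cancel, mul_one] at h2
      exact h2.symm
    · rw [hb, mul_one, one_mul]
    · exact key2 a b ha hb
  rcases lt_trichotomy a 1 with ha | ha | ha
  · have h1 := key3 a⁻¹ b (Left.one_lt_inv_iff.2 ha)
    have h2 : a * (a⁻¹ * b) * a = a * (b * a⁻¹) * a := by rw [h1]
    rw [mul_inv_cancel_left, mul_assoc, mul_assoc, inv_mul_cancel, mul_one] at h2
    exact h2.symm
  · rw [ha, mul_one, one_mul]
  · exact key3 a b ha

end holder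

section final

theorem exists_bound {H : Type*} [Group H] [LinearOrder H] (T : Finset H) :
    ∃ x : H, 1 ≤ x ∧ ∀ t ∈ T, t ≤ x ∧ t⁻¹ ≤ x := by
  classical
  induction T using Finset.induction with
  | empty => exact ⟨1, le_rfl, by simp⟩
  | insert a T _ ih =>
    obtain ⟨x, hx, h⟩ := ih
    refine ⟨max x (max a a⁻¹), le_max_of_le_left hx, fun t ht => ?_⟩
    rcases Finset.mem_insert.1 ht with rfl | ht
    · exact ⟨le_max_of_le_right (le_max_left _ _), le_max_of_le_right (le_max_right _ _)⟩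
    · exact ⟨le_max_of_le_left (h t ht).1, le_max_of_le_left (h t ht).2⟩

/-- a finitely generated torsion-free abelian group which is not trivial maps onto `ℤ` -/
theorem hom_of_comm {Q : Type*} [CommGroup Q] (hfg : Group.FG Q)
    (htf : ∀ (q : Q) (n : ℕ), n ≠ 0 → q ^ n = 1 → q = 1) {q : Q} (hq : q ≠ 1) :
    ∃ f : Q →* Multiplicative ℤ, f q ≠ 1 := by
  have hfin : Module.Finite ℤ (Additive Q) := by
    have : AddGroup.FG (Additive Q) := inferInstance
    infer_instance
  have htf0 : IsAddTorsionFree (Additive Q) := by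
    refine ⟨fun n hn a b hab => ?_⟩
    have h1 : (a.toMul * (b.toMul)⁻¹) ^ n = 1 := by
      rw [mul_pow, inv_pow]
      exact mul_inv_eq_one.2 hab
    exact Additive.toMul.injective (mul_inv_eq_one.1 (htf _ n hn h1))
  have hfree : Module.Free ℤ (Additive Q) := Module.free_of_finite_type_torsion_free'
  let b := Module.Free.chooseBasis ℤ (Additive Q)
  have h1 : b.repr (Additive.ofMul q) ≠ 0 := by
    intro h
    exact hq (b.repr.map_eq_zero_iff.1 h)
  obtain ⟨i, hi⟩ := Finsupp.ne_iff.1 h1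
  refine ⟨AddMonoidHom.toMultiplicativeRight (b.coord i).toAddMonoidHom, ?_⟩
  intro h
  exact hi h

/-- a finitely generated Conrad ordered group has a nontrivial homomorphism to `ℤ` -/
theorem hom_of_cnr {H : Type*} [Group H] [LinearOrder H] [MulLeftMono H] (c : Cnr H)
    (hfg : Group.FG H) (hne : ∃ y : H, y ≠ 1) : ∃ f : H →* Multiplicative ℤ, f ≠ 1 := by
  classical
  obtain ⟨T, hT⟩ := Group.fg_def.1 hfg
  obtain ⟨y, hy⟩ := hne
  obtain ⟨x, hx1, hxT⟩ := exists_bound (insert y T)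
  have hx : 1 < x := by
    rcases hx1.eq_or_lt with h | h
    · exfalso
      have h1 := hxT y (Finset.mem_insert_self _ _)
      rw [← h] at h1
      exact hy (le_antisymm h1.1 (Left.inv_le_one_iff.1 h1.2))
    · exact h
  have htop : ∀ z, z ∈ Ic c x hx := by
    have h1 : Subgroup.closure (T : Set H) ≤ Ic c x hx := by
      rw [Subgroup.closure_le]
      intro t ht
      have h2 := hxT t (Finset.mem_insert_of_mem ht)
      exact mem_Ic_of_le c hx h2.1 h2.2
    intro z
    exact h1 (by rw [hT]; trivial)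
  have hN := CC_normal c hx htop
  set N := CC c x hx with hNdef
  have hxN : x ∉ N := by
    intro h
    have := h 1
    rw [zpow_one] at this
    exact absurd this (lt_irrefl _)
  set PQ : Set (H ⧸ N) := {q | ∃ p ∈ PC c x hx, (p : H ⧸ N) = q} with hPQ
  have hPne : ∀ p ∈ PC c x hx, (p : H ⧸ N) ≠ 1 := by
    intro p hp h
    exact hp.2 ((QuotientGroup.eq_one_iff p).1 h)
  have hC : Cone PQ := by
    refine ⟨?_, ?_, ?_⟩
    · rintro a ⟨p, hp, rfl⟩ b ⟨p', hp', rfl⟩
      exact ⟨p * p', PC_mul c hx htop hp hp', rfl⟩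
    · rintro ⟨p, hp, h⟩
      exact hPne p hp h
    · intro g hg
      obtain ⟨h, rfl⟩ := QuotientGroup.mk_surjective g
      have hhN : h ∉ N := fun hh => hg ((QuotientGroup.eq_one_iff h).2 hh)
      rcases lt_trichotomy h 1 with h1 | h1 | h1
      · right
        exact ⟨h⁻¹, ⟨Left.one_lt_inv_iff.2 h1, fun hh => hhN (by simpa using inv_mem hh)⟩, rfl⟩
      · exfalso
        apply hhN
        rw [h1]
        exact one_mem _
      · exact Or.inl ⟨h, ⟨h1, hhN⟩, rfl⟩
  have hconj : ∀ a : H ⧸ N, ∀ q ∈ PQ, a⁻¹ * q * a ∈ PQ := by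
    intro a q hq
    obtain ⟨g, rfl⟩ := QuotientGroup.mk_surjective a
    obtain ⟨p, hp, rfl⟩ := hq
    exact ⟨g⁻¹ * p * g, PC_conj c hx htop hp, rfl⟩
  let lo : LinearOrder (H ⧸ N) := hC.lo
  have lm : MulLeftMono (H ⧸ N) := hC.lmono
  have rm : MulRightMono (H ⧸ N) := by
    refine ⟨fun a b d hbd => ?_⟩
    rcases hbd with rfl | h1
    · exact Or.inl rfl
    · right
      have h2 := hconj a _ h1
      have e : (b * a)⁻¹ * (d * a) = a⁻¹ * (b⁻¹ * d) * a := by group
      show (b * a)⁻¹ * (d * a) ∈ PQ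
      rwa [e]
  have hpos : ∀ q : H ⧸ N, 1 < q → q ∈ PQ := by
    intro q hq
    have h1 : (1 : H ⧸ N)⁻¹ * q ∈ PQ := hq
    rwa [inv_one, one_mul] at h1
  have arch : ∀ a b : H ⧸ N, 1 < a → ∃ n : ℕ, b < a ^ n := by
    intro a b ha
    rcases le_or_gt b 1 with hb | hb
    · exact ⟨1, by rw [pow_one]; exact hb.trans_lt ha⟩
    · obtain ⟨p, hp, rfl⟩ := hpos a ha
      obtain ⟨r, hr, rfl⟩ := hpos b hb
      obtain ⟨n, hn⟩ := PC_arch c hx htop hp hr
      exact ⟨n, r⁻¹ * p ^ n, hn, rfl⟩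
  have hcomm := holder arch
  let cg : CommGroup (H ⧸ N) := { (inferInstance : Group (H ⧸ N)) with mul_comm := hcomm }
  have hfgQ : Group.FG (H ⧸ N) := inferInstance
  have htf : ∀ (q : H ⧸ N) (n : ℕ), n ≠ 0 → q ^ n = 1 → q = 1 := by
    intro q n hn h
    rcases lt_trichotomy q 1 with h1 | h1 | h1
    · exact absurd h (pow_lt_one' h1 hn).ne
    · exact h1
    · exact absurd h (one_lt_pow' h1 hn).ne'
  have hx1 : (x : H ⧸ N) ≠ 1 := fun h => hxN ((QuotientGroup.eq_one_iff x).1 h)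
  obtain ⟨f, hf⟩ := hom_of_comm hfgQ htf hx1
  refine ⟨f.comp (QuotientGroup.mk' N), fun h => hf ?_⟩
  have := DFunLike.congr_fun h x
  simpa using this

theorem conrP {G : Type*} [Group G] {S : Finset G} (hS : Subgroup.closure (S : Set G) = ⊤)
    (hg : SubexpGrowth S) {P : Set G} (h : Cone P) :
    ∀ f ∈ P, ∀ g ∈ P, ∃ n : ℕ, 1 ≤ n ∧ g⁻¹ * (f * g ^ n) ∈ P := by
  let lo : LinearOrder G := h.lo
  have lm : MulLeftMono G := h.lmono
  intro f hf g hg'
  have h1 : (1 : G) < f := by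
    show (1 : G)⁻¹ * f ∈ P
    rwa [inv_one, one_mul]
  have h2 : (1 : G) < g := by
    show (1 : G)⁻¹ * g ∈ P
    rwa [inv_one, one_mul]
  exact conr hS hg f g h1 h2

/-- LO: left orderable groups of subexponential growth are locally indicable -/
theorem p_LO : T_LO := by
  rintro G _ S hS hg ⟨P, hmul, hone, htot⟩ H hH hbot
  have hP : Cone P := ⟨hmul, hone, htot⟩
  have k1 := conrP hS hg hP
  have k2 := conrP hS hg hP.inv
  have hPH : Cone {h : H | (h : G) ∈ P} := by
    refine ⟨fun a ha b hb => hmul _ ha _ hb, hone, fun g hg => ?_⟩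
    have h1 : (g : G) ≠ 1 := by
      intro h
      exact hg (Subtype.ext h)
    exact htot g h1
  let lo : LinearOrder H := hPH.lo
  have lm : MulLeftMono H := hPH.lmono
  have c : Cnr H := by
    refine ⟨fun f g hf hg' => ?_, fun f g hf hg' => ?_⟩
    · have h1 : (f : G) ∈ P := by
        have : ((1 : H)⁻¹ * f : H) ∈ {h : H | (h : G) ∈ P} := hf
        rwa [inv_one, one_mul] at this
      have h2 : (g : G) ∈ P := by
        have : ((1 : H)⁻¹ * g : H) ∈ {h : H | (h : G) ∈ P} := hg'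
        rwa [inv_one, one_mul] at this
      obtain ⟨n, hn, h3⟩ := k1 f h1 g h2
      exact ⟨n, hn, h3⟩
    · have h1 : (f : G)⁻¹ ∈ P := by
        have : (f⁻¹ * 1 : H) ∈ {h : H | (h : G) ∈ P} := hf
        rwa [mul_one] at this
      have h2 : (g : G)⁻¹ ∈ P := by
        have : (g⁻¹ * 1 : H) ∈ {h : H | (h : G) ∈ P} := hg'
        rwa [mul_one] at this
      obtain ⟨n, hn, h3⟩ := k2 f h1 g h2
      refine ⟨n, hn, ?_⟩
      have h4 : ((g : G)⁻¹ * (f * (g : G) ^ n))⁻¹ ∈ P := h3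
      have e : ((g : G)⁻¹ * (f * (g : G) ^ n))⁻¹ = (f * (g : G) ^ n)⁻¹ * g := by group
      rw [e] at h4
      exact h4
  have hfg : Group.FG H := (Group.fg_iff_subgroup_fg H).2 hH
  refine hom_of_cnr c hfg ?_
  obtain ⟨y, hy⟩ := (Subgroup.ne_bot_iff_exists_ne_one).1 hbot
  exact ⟨y, hy⟩

end final

end Pool.Agent.Asd3
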