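import Mathlib

/-!
# Left orderable groups
-/

set_option autoImplicit false

namespace Pool.Agent.Asd3

/-- Left orderable: there is a positive cone of a left order. -/
def LeftOrd (G : Type*) [Group G] : Prop :=
  ∃ P : Set G, (∀ a ∈ P, ∀ b ∈ P, a * b ∈ P) ∧ (1 : G) ∉ P ∧ ∀ g, g ≠ 1 → g ∈ P ∨ g⁻¹ ∈ P

end Pool.Agent.Asd3
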