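import Mathlib
import Pool.Agent.Asd3.LocIndDef
import Pool.Agent.Asd3.LeftOrdDef
import Pool.Agent.ASD.Final

/-!
# Left orderable groups of subexponential growth are locally indicable: target
-/

set_option autoImplicit false

namespace Pool.Agent.Asd3

open Pool.Agent.ASD (SubexpGrowth)

/-- LO: left orderable groups of subexponential growth are locally indicable -/
def T_LO : Prop := ∀ (G : Type) [Group G] (S : Finset G), Subgroup.closure (S : Set G) = ⊤ →
  SubexpGrowth S → LeftOrd G → LocInd G

end Pool.Agent.Asd3
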